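import Pool.Agent.ALS.St

/-!
# ALS [BCN]: a connected set has at least as many bases as elements
-/

set_option autoImplicit false

namespace ALS

theorem BCN_ind (hBDC : St_BDC) (hBMI : St_BMI) (hTUT : St_TUT) (hCNC : St_CNC)
    (α : Type) [DecidableEq α] : ∀ (n : ℕ) (r : Finset α → ℕ) (S : Finset α), S.card = n → Rk r →
      Con r S → n ≤ bs r S := by
  intro n
  induction n with
  | zero => exact fun _ _ _ _ _ => Nat.zero_le _
  | succ n ih =>
    intro r S hn hr hc
    rcases Nat.eq_zero_or_pos n with h0 | h0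
    · subst h0
      exact (hBMI α r hr).1 S
    · have h2 : 2 ≤ S.card := by omega
      obtain ⟨hNL, hNC⟩ := hCNC α r S hr hc h2
      obtain ⟨f, hf⟩ := hc.1
      have h3 : (S.erase f).card = n := by
        rw [Finset.card_erase_of_mem hf, hn]
        rfl
      rw [hBDC α r S f hr hf (hNL f hf) (hNC f hf)]
      rcases hTUT α r S f hr hc hf h2 with h | h
      · have h4 := ih r (S.erase f) h3 hr h
        have h5 := (hBMI α (ct r {f}) (hr.ctr {f})).1 (S.erase f)
        omega
      · have h4 := ih (ct r {f}) (S.erase f) h3 (hr.ctr {f}) h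
        have h5 := (hBMI α r hr).1 (S.erase f)
        omega

theorem thm_BCN (hBDC : St_BDC) (hBMI : St_BMI) (hTUT : St_TUT) (hCNC : St_CNC) : St_BCN :=
  fun α _ r S hr hc => BCN_ind hBDC hBMI hTUT hCNC α S.card r S rfl hr hc

end ALS
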