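import Pool.Agent.ALS.St

/-! # ALS, loops and coloops for the number of bases (helper19) -/

set_option autoImplicit false

namespace ALS

theorem thm_BLC : St_BLC := by
  intro α _ r S f hr hf
  refine ⟨fun h0 => ?_, fun hlt => ?_⟩
  · have hfe : r (S.erase f) = r S := by
      have h := hr.clo ∅ (S.erase f) f (Finset.empty_subset _) (by
        rw [hr.r0, insert_empty_eq, h0])
      rw [Finset.insert_erase hf] at h
      exact h.symm
    unfold bs
    congr 1
    ext A
    simp only [Finset.mem_filter, Finset.mem_powerset]
    constructor
    · rintro ⟨hA, hc, hrA⟩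
      have hfA : f ∉ A := by
        intro hfA
        have h := hr.clo ∅ (A.erase f) f (Finset.empty_subset _) (by
          rw [hr.r0, insert_empty_eq, h0])
        rw [Finset.insert_erase hfA] at h
        have h1 := hr.le_card (A.erase f)
        have h2 := Finset.card_erase_add_one hfA
        omega
      exact ⟨fun x hx => Finset.mem_erase.2 ⟨fun h => hfA (h ▸ hx), hA hx⟩, by omega, by omega⟩
    · rintro ⟨hA, hc, hrA⟩
      exact ⟨hA.trans (Finset.erase_subset f S), by omega, by omega⟩
  · have her := hr.er S f
    have key : ∀ B ⊆ S.erase f, r (insert f B) = r B + 1 := by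
      intro B hB
      have h1 := hr.dim B (S.erase f) f hB
      rw [Finset.insert_erase hf] at h1
      have h2 := hr.up B f
      omega
    unfold bs
    have h1 : (S.powerset.filter fun A => A.card = r S ∧ r A = r S) =
        (((S.erase f).powerset.filter fun A => A.card = r (S.erase f) ∧
          r A = r (S.erase f)).image fun A => insert f A) := by
      ext A
      simp only [Finset.mem_filter, Finset.mem_powerset, Finset.mem_image]
      constructor
      · rintro ⟨hA, hc, hrA⟩
        have hfA : f ∈ A := by
          by_contra hfA
          have h := hr.mono A (S.erase f) fun x hx =>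
            Finset.mem_erase.2 ⟨fun h => hfA (h ▸ hx), hA hx⟩
          omega
        have hs : A.erase f ⊆ S.erase f := Finset.erase_subset_erase f hA
        refine ⟨A.erase f, ⟨hs, ?_, ?_⟩, Finset.insert_erase hfA⟩
        · have := Finset.card_erase_add_one hfA
          omega
        · have h := key (A.erase f) hs
          rw [Finset.insert_erase hfA] at h
          omega
      · rintro ⟨B, ⟨hB, hc, hrB⟩, rfl⟩
        have hfB : f ∉ B := fun h => (Finset.mem_erase.1 (hB h)).1 rfl
        refine ⟨?_, ?_, ?_⟩
        · intro x hx
          rcases Finset.mem_insert.1 hx with h | h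
          · rwa [h]
          · exact Finset.mem_of_mem_erase (hB h)
        · rw [Finset.card_insert_of_notMem hfB]
          omega
        · have h := key B hB
          omega
    rw [h1, Finset.card_image_of_injOn]
    intro A hA B hB hAB
    have hA' := (Finset.mem_powerset.1 (Finset.mem_filter.1 (Finset.mem_coe.1 hA)).1)
    have hB' := (Finset.mem_powerset.1 (Finset.mem_filter.1 (Finset.mem_coe.1 hB)).1)
    have hfA : f ∉ A := fun h => (Finset.mem_erase.1 (hA' h)).1 rfl
    have hfB : f ∉ B := fun h => (Finset.mem_erase.1 (hB' h)).1 rfl
    have h := congrArg (fun C => C.erase f) hAB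
    simp only [Finset.erase_insert hfA, Finset.erase_insert hfB] at h
    exact h

end ALS
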