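import Pool.Agent.ALS.St

/-!
# ALS, module BMI: bases of minors
-/

set_option autoImplicit false

namespace ALS

/-- every set contains a basis -/
theorem BMI_ex {α : Type} [DecidableEq α] {r : Finset α → ℕ} (h : Rk r) (S : Finset α) :
    ∃ A, A ⊆ S ∧ A.card = r S ∧ r A = r S := by
  induction S using Finset.induction_on with
  | empty => exact ⟨∅, Finset.Subset.refl _, by rw [h.r0]; rfl, rfl⟩
  | insert x S hx ih =>
    obtain ⟨A, hA, hc, hr⟩ := ih
    by_cases h1 : r (insert x A) ≤ r A
    · have h2 := h.clo A S x hA h1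
      exact ⟨A, hA.trans (Finset.subset_insert _ _), by rw [h2, hc], by rw [h2, hr]⟩
    · have h2 := h.up A x
      have h3 := h.up S x
      have h4 : r (insert x A) ≤ r (insert x S) := h.mono _ _ (Finset.insert_subset_insert x hA)
      have h5 : x ∉ A := fun h => hx (hA h)
      refine ⟨insert x A, Finset.insert_subset_insert x hA, ?_, ?_⟩
      · rw [Finset.card_insert_of_notMem h5]
        omega
      · omega

theorem BMI_mem {α : Type} [DecidableEq α] {r : Finset α → ℕ} {S A : Finset α} :
    A ∈ S.powerset.filter (fun A => A.card = r S ∧ r A = r S) ↔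
      A ⊆ S ∧ A.card = r S ∧ r A = r S := by
  rw [Finset.mem_filter, Finset.mem_powerset]

theorem thm_BMI : St_BMI := by
  intro α _ r h
  refine ⟨fun S => ?_, fun Q T hQT => ?_⟩
  · obtain ⟨A, hA⟩ := BMI_ex h S
    exact Finset.card_pos.2 ⟨A, BMI_mem.2 hA⟩
  · obtain ⟨B, hB, hBc, hBr⟩ := BMI_ex h Q
    unfold bs
    refine Finset.card_le_card_of_injOn (fun A => A ∪ B) ?_ ?_
    · intro A hA
      obtain ⟨hAT, hAc, hAr⟩ := BMI_mem.1 hA
      have hdis : Disjoint A B := Finset.disjoint_of_subset_left hAT
        (Finset.disjoint_of_subset_right hB hQT.symm)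
      have k1 := h.ct_add Q T
      have k2 := h.ct_add Q A
      have k3 : Q ∪ T = T ∪ Q := Finset.union_comm Q T
      have k4 := h.sub (A ∪ B) Q
      have k5 : A ∪ B ∪ Q = A ∪ Q := by
        rw [Finset.union_assoc, Finset.union_eq_right.2 hB]
      have k6 : r B ≤ r ((A ∪ B) ∩ Q) :=
        h.mono _ _ (Finset.subset_inter Finset.subset_union_right hB)
      have k7 : r (A ∪ B) ≤ r (A ∪ Q) := h.mono _ _ (Finset.union_subset_union_right hB)
      rw [k5] at k4
      refine BMI_mem.2 ⟨?_, ?_, ?_⟩
      · exact Finset.union_subset (hAT.trans Finset.subset_union_right)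
          (hB.trans Finset.subset_union_left)
      · show (A ∪ B).card = r (Q ∪ T)
        rw [Finset.card_union_of_disjoint hdis, k3]
        omega
      · show r (A ∪ B) = r (Q ∪ T)
        rw [k3]
        omega
    · intro A hA A' hA' he
      have he' : A ∪ B = A' ∪ B := he
      obtain ⟨hAT, -, -⟩ := BMI_mem.1 hA
      obtain ⟨hAT', -, -⟩ := BMI_mem.1 hA'
      have hd : ∀ C : Finset α, C ⊆ T → (C ∪ B) \ B = C := by
        intro C hC
        have hdis : Disjoint C B := Finset.disjoint_of_subset_left hC
          (Finset.disjoint_of_subset_right hB hQT.symm)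
        rw [Finset.union_sdiff_right, Finset.sdiff_eq_self_of_disjoint hdis]
      rw [← hd A hAT, ← hd A' hAT', he']

end ALS
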