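import Pool.Agent.ALS.St

/-!
# ALS: module BN1, small numbers of bases of sets without loops
-/

set_option autoImplicit false

namespace ALS

private theorem BN1_aux {α : Type} [DecidableEq α] (hBLC : St_BLC) (hBNC : St_BNC)
    (r : Finset α → ℕ) (hr : Rk r) : ∀ (n : ℕ) (S : Finset α), S.card = n → NL r S →
      r S < S.card → 2 ≤ bs r S ∧ (NP r S → 3 ≤ bs r S) := by
  intro n
  induction n with
  | zero =>
    intro S hn _ hlt
    omega
  | succ n ih =>
    intro S hn hNL hlt
    by_cases hc : ∃ x ∈ S, r (S.erase x) < r S
    · obtain ⟨x, hx, hxl⟩ := hc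
      have hcard : (S.erase x).card + 1 = S.card := Finset.card_erase_add_one hx
      have hNL' : NL r (S.erase x) := fun y hy => hNL y (Finset.mem_of_mem_erase hy)
      have hb : bs r S = bs r (S.erase x) := (hBLC α r S x hr hx).2 hxl
      have h1 := ih (S.erase x) (by omega) hNL' (by omega)
      rw [hb]
      refine ⟨h1.1, fun hNP => h1.2 ?_⟩
      intro y hy z hz hyz
      exact hNP y (Finset.mem_of_mem_erase hy) z (Finset.mem_of_mem_erase hz) hyz
    · have hNC : NC r S := by
        intro x hx
        have h1 := hr.er_le S x
        by_contra hne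
        exact hc ⟨x, hx, lt_of_le_of_ne h1 hne⟩
      have hb := hBNC α r S hr hNL hNC
      have hne : S.Nonempty := by
        rw [← Finset.card_pos]
        omega
      obtain ⟨x, hx⟩ := hne
      have h1 : 1 ≤ r S := by
        rw [← hNL x hx]
        exact hr.mono _ _ (Finset.singleton_subset_iff.2 hx)
      refine ⟨by omega, fun hNP => ?_⟩
      have h2 : 1 < S.card := by omega
      obtain ⟨a, ha, b, hb', hab⟩ := Finset.one_lt_card.1 h2
      have h3 := hNP a ha b hb' hab
      have h4 : r {a, b} ≤ r S := by
        refine hr.mono _ _ ?_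
        intro y hy
        simp only [Finset.mem_insert, Finset.mem_singleton] at hy
        rcases hy with h | h
        · rw [h]
          exact ha
        · rw [h]
          exact hb'
      omega

theorem thm_BN1 (hBLC : St_BLC) (hBNC : St_BNC) : St_BN1 := by
  intro α inst r S hr hNL hlt
  exact BN1_aux hBLC hBNC r hr S.card S rfl hNL hlt

end ALS
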