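import Pool.Agent.ALS.St

/-!
# ALS, module BN2: connected, rank and nullity at least two
-/

set_option autoImplicit false

namespace ALS

theorem BN2_main (hBDC : St_BDC) (hBLC : St_BLC) (hTUT : St_TUT) (hCNC : St_CNC)
    (hBCN : St_BCN) (hBNC : St_BNC) (hBR2 : St_BR2) (hBN1 : St_BN1) (α : Type) [DecidableEq α] :
    ∀ (n : ℕ) (r : Finset α → ℕ) (S : Finset α), S.card = n → Rk r → Con r S → 2 ≤ r S →
      r S + 2 ≤ n → 2 * n ≤ bs r S + 3 := by
  intro n
  induction n with
  | zero => intro r S hcard h hC h2 hn; omega
  | succ n ih =>
    intro r S hcard h hC h2 hn
    obtain ⟨hNL, hNC⟩ := hCNC α r S h hC (by omega)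
    obtain ⟨f, hf⟩ := hC.1
    have hrf : r {f} = 1 := hNL f hf
    have hrE : r (S.erase f) = r S := hNC f hf
    have hbdc := hBDC α r S f h hf hrf hrE
    set E : Finset α := S.erase f with hE
    have hEcard : E.card = n := by
      rw [hE, Finset.card_erase_of_mem hf, hcard]
      rfl
    have hfE : f ∉ E := Finset.notMem_erase f S
    have hins : insert f E = S := Finset.insert_erase hf
    have hES : E ⊆ S := Finset.erase_subset f S
    have h' : Rk (ct r {f}) := h.ctr {f}
    have hct : ∀ A, ct r {f} A + 1 = r (insert f A) := by
      intro A
      have := h.ct1 f A
      omega
    have hctE : ct r {f} E + 1 = r S := by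
      rw [hct E, hins]
    have hNC' : NC (ct r {f}) E := by
      intro x hx
      have h1 := hct (E.erase x)
      have hxf : x ≠ f := by
        rintro rfl
        exact hfE hx
      have h3 : insert f (E.erase x) = S.erase x := by
        rw [← hins]
        exact (Finset.erase_insert_of_ne (Ne.symm hxf)).symm
      rw [h3, hNC x (hES hx)] at h1
      omega
    have htut : Con r E ∨ Con (ct r {f}) E := hTUT α r S f h hC hf (by omega)
    rcases htut with hcon | hcon
    · -- deletion connected
      have hb2 := (hBR2 α (ct r {f}) E h' hNC').1 (by omega)
      by_cases hcase : r S + 2 ≤ n
      · have h4 := ih r E hEcard h hcon (by omega) (by omega)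
        omega
      · have hbE := hBCN α r E h hcon
        have hfull : ∀ A, A ⊆ E → A.Nonempty → A ≠ E → r A = A.card := by
          intro A hA hne hAE
          have h5 := hcon.2 A hA hne hAE
          have h6 := h.le_card A
          have h7 := h.le_card (E \ A)
          have h8 : (E \ A).card = E.card - A.card := Finset.card_sdiff_of_subset hA
          have h9 := Finset.card_le_card hA
          omega
        have hpair : ∀ x ∈ E, ∀ y ∈ E, x ≠ y → r {x, y} = 2 := by
          intro x hx y hy hxy
          have hc : ({x, y} : Finset α).card = 2 := Finset.card_pair hxy
          rw [← hc]
          refine hfull {x, y} ?_ ⟨x, by simp⟩ ?_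
          · intro z hz
            rw [Finset.mem_insert, Finset.mem_singleton] at hz
            rcases hz with rfl | rfl
            · exact hx
            · exact hy
          · intro h10
            rw [h10] at hc
            omega
        have hge : n - 1 ≤ bs (ct r {f}) E := by
          by_cases hl : NL (ct r {f}) E
          · have := hBNC α (ct r {f}) E h' hl hNC'
            omega
          · unfold NL at hl
            push Not at hl
            obtain ⟨x, hx, hx1⟩ := hl
            have hx0 : ct r {f} {x} = 0 := by
              have := h'.sgl x
              omega
            have hclo : ∀ A, ct r {f} (insert x A) = ct r {f} A := by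
              intro A
              refine h'.clo ∅ A x (Finset.empty_subset A) ?_
              have e : insert x (∅ : Finset α) = {x} := by simp
              rw [e, hx0]
              exact Nat.zero_le _
            have hb := (hBLC α (ct r {f}) E x h' hx).1 hx0
            have hNLD : NL (ct r {f}) (E.erase x) := by
              intro y hy
              by_contra hy1
              have hyE : y ∈ E := (Finset.mem_erase.1 hy).2
              have hxy : x ≠ y := (Finset.mem_erase.1 hy).1.symm
              have hy0 : ct r {f} {y} = 0 := by
                have := h'.sgl y
                omega
              have h11 : ct r {f} {x, y} = 0 := by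
                have := hclo {y}
                rw [this, hy0]
              have h12 := hct {x, y}
              have h13 := h.ge_ins {x, y} f
              have h14 := hpair x hx y hyE hxy
              omega
            have hNCD : NC (ct r {f}) (E.erase x) := by
              intro y hy
              have hyE : y ∈ E := (Finset.mem_erase.1 hy).2
              have hxy : x ≠ y := (Finset.mem_erase.1 hy).1.symm
              have h15 := hclo (E.erase x)
              have h16 := hclo ((E.erase x).erase y)
              have h17 : insert x ((E.erase x).erase y) = E.erase y := by
                rw [← Finset.erase_insert_of_ne hxy, Finset.insert_erase hx]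
              rw [Finset.insert_erase hx] at h15
              rw [h17] at h16
              have h18 := hNC' y hyE
              omega
            have h19 := hBNC α (ct r {f}) (E.erase x) h' hNLD hNCD
            rw [Finset.card_erase_of_mem hx, hEcard] at h19
            omega
        omega
    · -- contraction connected
      have hNLE : NL r E := fun x hx => hNL x (hES hx)
      have hb2 := (hBN1 α r E h hNLE (by omega)).1
      by_cases hcase : 3 ≤ r S
      · have h4 := ih (ct r {f}) E hEcard h' hcon (by omega) (by omega)
        omega
      · have hb1 := hBCN α (ct r {f}) E h' hcon
        have hge : n - 1 ≤ bs r E := by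
          by_cases hc : NC r E
          · have := hBNC α r E h hNLE hc
            omega
          · unfold NC at hc
            push Not at hc
            obtain ⟨x, hx, hx1⟩ := hc
            have hxlt : r (E.erase x) < r E := by
              have := h.er_le E x
              omega
            have hb := (hBLC α r E x h hx).2 hxlt
            have hDcard : (E.erase x).card = n - 1 := by
              rw [Finset.card_erase_of_mem hx, hEcard]
            have hNLD : NL r (E.erase x) := fun y hy => hNLE y (Finset.mem_erase.1 hy).2
            have hNCD : NC r (E.erase x) := by
              intro y hy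
              have h5 : ((E.erase x).erase y).card = n - 1 - 1 := by
                rw [Finset.card_erase_of_mem hy, hDcard]
              obtain ⟨z, hz⟩ := Finset.card_pos.1 (by omega : 0 < ((E.erase x).erase y).card)
              have h6 : r {z} = 1 := hNLD z (Finset.mem_erase.1 hz).2
              have h7 := h.mono {z} ((E.erase x).erase y) (Finset.singleton_subset_iff.2 hz)
              have h8 := h.er_le (E.erase x) y
              omega
            have h19 := hBNC α r (E.erase x) h hNLD hNCD
            omega
        omega

theorem thm_BN2 (hBDC : St_BDC) (hBLC : St_BLC) (hTUT : St_TUT) (hCNC : St_CNC)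
    (hBCN : St_BCN) (hBNC : St_BNC) (hBR2 : St_BR2) (hBN1 : St_BN1) : St_BN2 := by
  intro α _ r S h hC h2 hn
  exact BN2_main hBDC hBLC hTUT hCNC hBCN hBNC hBR2 hBN1 α S.card r S rfl h hC h2 hn

end ALS
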