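import Pool.Agent.ALS.St

/-!
# ALS [BNC]: no loops and no coloops, at least `S.card` bases
-/

set_option autoImplicit false

namespace ALS

/-- a summand has no loops and no coloops -/
theorem BNC_part {α : Type} [DecidableEq α] {r : Finset α → ℕ} (h : Rk r) {X Y : Finset α}
    (hd : Disjoint X Y) (hs : r X + r Y ≤ r (X ∪ Y)) (hl : NL r (X ∪ Y)) (hc : NC r (X ∪ Y)) :
    NL r X ∧ NC r X := by
  refine ⟨fun x hx => hl x (Finset.mem_union_left Y hx), fun x hx => ?_⟩
  have h1 := hc x (Finset.mem_union_left Y hx)
  have h2 : (X ∪ Y).erase x = X.erase x ∪ Y := by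
    have h3 : x ∉ Y := Finset.disjoint_left.1 hd hx
    ext y
    rw [Finset.mem_erase, Finset.mem_union, Finset.mem_union, Finset.mem_erase]
    constructor
    · rintro ⟨h4, h5 | h5⟩
      · exact Or.inl ⟨h4, h5⟩
      · exact Or.inr h5
    · rintro (⟨h4, h5⟩ | h5)
      · exact ⟨h4, Or.inl h5⟩
      · refine ⟨?_, Or.inr h5⟩
        intro h6
        subst h6
        exact h3 h5
  rw [h2] at h1
  have h4 := h.un (X.erase x) Y
  have h5 := h.er_le X x
  omega

theorem BNC_two {α : Type} [DecidableEq α] {r : Finset α → ℕ} (h : Rk r) {X : Finset α}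
    (hn : X.Nonempty) (hl : NL r X) (hc : NC r X) : 2 ≤ X.card := by
  by_contra hlt
  have h1 : X.card = 1 := by
    have := Finset.card_pos.2 hn
    omega
  obtain ⟨x, rfl⟩ := Finset.card_eq_one.1 h1
  have h2 := hl x (Finset.mem_singleton_self x)
  have h3 := hc x (Finset.mem_singleton_self x)
  rw [Finset.erase_singleton, h.r0, h2] at h3
  omega

theorem BNC_main (hBSP : St_BSP) (hBCN : St_BCN) (α : Type) [DecidableEq α]
    (r : Finset α → ℕ) (h : Rk r) : ∀ (n : ℕ) (S : Finset α), S.card = n → NL r S → NC r S →
    S.card ≤ bs r S := by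
  intro n
  induction n using Nat.strong_induction_on with
  | _ n ih =>
    intro S hS hl hc
    rcases S.eq_empty_or_nonempty with h0 | h0
    · rw [h0]
      simp
    · by_cases hcon : Con r S
      · exact hBCN α r S h hcon
      · have h1 : ∃ X, X ⊆ S ∧ X.Nonempty ∧ X ≠ S ∧ r X + r (S \ X) ≤ r S := by
          by_contra hno
          apply hcon
          refine ⟨h0, fun X hX hX0 hXS => ?_⟩
          by_contra hlt
          exact hno ⟨X, hX, hX0, hXS, by omega⟩
        obtain ⟨X, hX, hX0, hXS, hr⟩ := h1
        have hd : Disjoint X (S \ X) := Finset.disjoint_sdiff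
        have hu : X ∪ S \ X = S := Finset.union_sdiff_of_subset hX
        have hY0 : (S \ X).Nonempty := by
          rw [Finset.sdiff_nonempty]
          intro h2
          exact hXS (Finset.Subset.antisymm hX h2)
        have hcard : X.card + (S \ X).card = S.card := by
          rw [← Finset.card_union_of_disjoint hd, hu]
        obtain ⟨hl1, hc1⟩ := BNC_part h hd (by rw [hu]; exact hr) (by rw [hu]; exact hl)
          (by rw [hu]; exact hc)
        have hu' : S \ X ∪ X = S := by rw [Finset.union_comm, hu]
        obtain ⟨hl2, hc2⟩ := BNC_part h hd.symm (by rw [hu']; omega) (by rw [hu']; exact hl)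
          (by rw [hu']; exact hc)
        have h2 := BNC_two h hX0 hl1 hc1
        have h3 := BNC_two h hY0 hl2 hc2
        have h4 := ih X.card (by omega) X rfl hl1 hc1
        have h5 := ih (S \ X).card (by omega) (S \ X) rfl hl2 hc2
        have h6 := hBSP α r X (S \ X) h hd (by rw [hu]; exact hr)
        rw [hu] at h6
        rw [h6, ← hcard]
        have h7 : X.card * (S \ X).card ≤ bs r X * bs r (S \ X) := Nat.mul_le_mul h4 h5
        have h8 : X.card + (S \ X).card ≤ X.card * (S \ X).card := by
          obtain ⟨a, ha⟩ := Nat.exists_eq_add_of_le h2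
          obtain ⟨b, hb⟩ := Nat.exists_eq_add_of_le h3
          rw [ha, hb]
          nlinarith [Nat.zero_le (a * b)]
        omega

theorem thm_BNC (_hBMI : St_BMI) (hBSP : St_BSP) (hBCN : St_BCN) : St_BNC := by
  intro α _ r S h hl hc
  exact BNC_main hBSP hBCN α r h S.card S rfl hl hc

end ALS
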