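import Pool.Agent.ALS.St

/-! # ALS: small numbers of bases, no coloops (helper9) -/

set_option autoImplicit false

namespace ALS

theorem BR2_loop {α : Type} [DecidableEq α] {r : Finset α → ℕ} (h : Rk r) {x : α} (hx : r {x} = 0)
    (A : Finset α) : r (insert x A) = r A := by
  refine h.clo ∅ A x (Finset.empty_subset A) ?_
  rw [insert_empty_eq, hx]
  exact Nat.zero_le _

theorem BR2_erase {α : Type} [DecidableEq α] {r : Finset α → ℕ} (h : Rk r) {x : α}
    (hx : r {x} = 0) (A : Finset α) : r (A.erase x) = r A := by
  by_cases hA : x ∈ A
  · have h1 := BR2_loop h hx (A.erase x)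
    rw [Finset.insert_erase hA] at h1
    exact h1.symm
  · rw [Finset.erase_eq_of_notMem hA]

theorem thm_BR2 (hBLC : St_BLC) (hBNC : St_BNC) : St_BR2 := by
  intro α _ r S h
  induction S using Finset.strongInduction with
  | H S ih =>
    intro hnc
    by_cases hl : NL r S
    · have h1 : S.card ≤ bs r S := hBNC α r S h hl hnc
      have h2 : 1 ≤ r S → r S + 1 ≤ S.card := by
        intro h3
        have h4 : S.Nonempty := by
          rw [Finset.nonempty_iff_ne_empty]
          intro h5
          rw [h5, h.r0] at h3
          omega
        obtain ⟨x, hx⟩ := h4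
        have h6 := hnc x hx
        have h7 := h.le_card (S.erase x)
        rw [h6, Finset.card_erase_of_mem hx] at h7
        have h8 : 0 < S.card := Finset.card_pos.2 ⟨x, hx⟩
        omega
      refine ⟨fun h3 => ?_, fun h3 => ?_⟩
      · have := h2 h3
        omega
      · have := h2 (by omega)
        omega
    · unfold NL at hl
      rw [not_forall] at hl
      obtain ⟨x, hl⟩ := hl
      rw [Classical.not_imp] at hl
      obtain ⟨hx, hx1⟩ := hl
      have hx0 : r {x} = 0 := by
        have := h.sgl x
        omega
      have hnc' : NC r (S.erase x) := by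
        intro y hy
        have hyS : y ∈ S := Finset.mem_of_mem_erase hy
        rw [Finset.erase_right_comm, BR2_erase h hx0, BR2_erase h hx0]
        exact hnc y hyS
      have h1 := ih (S.erase x) (Finset.erase_ssubset hx) hnc'
      rw [BR2_erase h hx0, ← ((hBLC α r S x h hx).1 hx0)] at h1
      exact h1

end ALS
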