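import Pool.Agent.ALS.St

/-!
# ALS [BSP]: number of bases of a direct sum
-/

set_option autoImplicit false

namespace ALS

/-- closure -/
theorem BSP_cl {α : Type} [DecidableEq α] {r : Finset α → ℕ} (h : Rk r) {B X : Finset α}
    (hB : B ⊆ X) (hr : r B = r X) (Z : Finset α) : r (B ∪ Z) = r (X ∪ Z) := by
  have h1 := h.mono (B ∪ Z) (X ∪ Z) (Finset.union_subset_union_left hB)
  have h2 := h.sub (B ∪ Z) X
  have h3 := h.mono (X ∪ Z) (B ∪ Z ∪ X) (by
    intro y hy
    rw [Finset.mem_union] at hy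
    rw [Finset.mem_union, Finset.mem_union]
    tauto)
  have h4 := h.mono B ((B ∪ Z) ∩ X) (by
    intro y hy
    rw [Finset.mem_inter, Finset.mem_union]
    exact ⟨Or.inl hy, hB hy⟩)
  omega

theorem BSP_split {α : Type} [DecidableEq α] {X Y A : Finset α} (hA : A ⊆ X ∪ Y) :
    (A ∩ X) ∪ (A ∩ Y) = A := by
  rw [← Finset.inter_union_distrib_left]
  exact Finset.inter_eq_left.2 hA

theorem BSP_card {α : Type} [DecidableEq α] {X Y A : Finset α} (hd : Disjoint X Y)
    (hA : A ⊆ X ∪ Y) : (A ∩ X).card + (A ∩ Y).card = A.card := by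
  rw [← Finset.card_union_of_disjoint, BSP_split hA]
  exact hd.mono Finset.inter_subset_right Finset.inter_subset_right

theorem thm_BSP : St_BSP := by
  intro α _ r X Y h hd hs
  have hXY : r (X ∪ Y) = r X + r Y := le_antisymm (h.un X Y) hs
  unfold bs
  rw [← Finset.card_product]
  apply Finset.card_nbij' (fun A => (A ∩ X, A ∩ Y)) (fun p => p.1 ∪ p.2)
  · intro A hA
    simp only [Finset.coe_filter, Finset.mem_powerset, Set.mem_setOf_eq] at hA
    obtain ⟨h1, h2, h3⟩ := hA
    have h4 := BSP_card hd h1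
    have h5 := h.un (A ∩ X) (A ∩ Y)
    rw [BSP_split h1] at h5
    have h6 := h.le_card (A ∩ X)
    have h7 := h.le_card (A ∩ Y)
    have h8 := h.mono (A ∩ X) X Finset.inter_subset_right
    have h9 := h.mono (A ∩ Y) Y Finset.inter_subset_right
    simp only [Finset.coe_product, Finset.coe_filter, Finset.mem_powerset, Set.mem_prod,
      Set.mem_setOf_eq]
    exact ⟨⟨Finset.inter_subset_right, by omega, by omega⟩,
      ⟨Finset.inter_subset_right, by omega, by omega⟩⟩
  · rintro ⟨B, C⟩ hBC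
    simp only [Finset.coe_product, Finset.coe_filter, Finset.mem_powerset, Set.mem_prod,
      Set.mem_setOf_eq] at hBC
    obtain ⟨⟨h1, h2, h3⟩, ⟨h4, h5, h6⟩⟩ := hBC
    simp only [Finset.coe_filter, Finset.mem_powerset, Set.mem_setOf_eq]
    refine ⟨Finset.union_subset_union h1 h4, ?_, ?_⟩
    · rw [Finset.card_union_of_disjoint (hd.mono h1 h4)]
      omega
    · rw [BSP_cl h h1 h3, Finset.union_comm X C, BSP_cl h h4 h6, Finset.union_comm Y X]
  · intro A hA
    simp only [Finset.coe_filter, Finset.mem_powerset, Set.mem_setOf_eq] at hA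
    exact BSP_split hA.1
  · rintro ⟨B, C⟩ hBC
    simp only [Finset.coe_product, Finset.coe_filter, Finset.mem_powerset, Set.mem_prod,
      Set.mem_setOf_eq] at hBC
    obtain ⟨⟨h1, h2, h3⟩, ⟨h4, h5, h6⟩⟩ := hBC
    have h7 : (B ∪ C) ∩ X = B := by
      rw [Finset.union_inter_distrib_right, Finset.inter_eq_left.2 h1,
        Finset.disjoint_iff_inter_eq_empty.1 (hd.symm.mono_left h4), Finset.union_empty]
    have h8 : (B ∪ C) ∩ Y = C := by
      rw [Finset.union_inter_distrib_right, Finset.inter_eq_left.2 h4,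
        Finset.disjoint_iff_inter_eq_empty.1 (hd.mono_left h1), Finset.empty_union]
    change ((B ∪ C) ∩ X, (B ∪ C) ∩ Y) = (B, C)
    rw [h7, h8]

end ALS
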