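import Pool.Agent.ALS.St

/-! # ALS, connected sets have no loops and no coloops (helper19) -/

set_option autoImplicit false

namespace ALS

theorem thm_CNC : St_CNC := by
  intro α _ r S hr hc h2
  have key : ∀ x ∈ S, r {x} = 1 ∧ r (S.erase x) = r S := by
    intro x hx
    have hne : ({x} : Finset α) ≠ S := by
      intro h
      rw [← h] at h2
      simp at h2
    have h := hc.2 {x} (Finset.singleton_subset_iff.2 hx) (Finset.singleton_nonempty x) hne
    rw [Finset.sdiff_singleton_eq_erase] at h
    have h3 := hr.sgl x
    have h4 := hr.er_le S x
    omega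
  exact ⟨fun x hx => (key x hx).1, fun x hx => (key x hx).2⟩

end ALS
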