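import Pool.Agent.ALS.St

/-!
# ALS: case A
-/

set_option autoImplicit false

namespace ALS

theorem CSA_arith (a b n : ℕ) (ha : 2 ≤ a) (hb : 2 ≤ b) (hn : a + b + 1 = n) :
    2 * n ≤ a * b + 6 := by
  obtain ⟨a', rfl⟩ := Nat.exists_eq_add_of_le ha
  obtain ⟨b', rfl⟩ := Nat.exists_eq_add_of_le hb
  subst hn
  nlinarith [Nat.zero_le (a' * b')]

/-- a part of a direct sum has no loops and no coloops, and at least two elements -/
theorem CSA_part {α : Type} [DecidableEq α] (r : Finset α → ℕ) (h : Rk r) (E X : Finset α)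
    (hX : X ⊆ E) (hne : X.Nonempty) (hs : r X + r (E \ X) ≤ r E) (hl : NL r E) (hc : NC r E) :
    NL r X ∧ NC r X ∧ 2 ≤ X.card := by
  have hl' : NL r X := fun x hx => hl x (hX hx)
  have hc' : NC r X := by
    intro x hx
    have h1 := hc x (hX hx)
    have h2 : E.erase x = X.erase x ∪ (E \ X) := by
      ext y
      simp only [Finset.mem_erase, Finset.mem_union, Finset.mem_sdiff]
      constructor
      · rintro ⟨h3, h4⟩
        by_cases h5 : y ∈ X
        · exact Or.inl ⟨h3, h5⟩
        · exact Or.inr ⟨h4, h5⟩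
      · rintro (⟨h3, h4⟩ | ⟨h3, h4⟩)
        · exact ⟨h3, hX h4⟩
        · refine ⟨?_, h3⟩
          rintro rfl
          exact h4 hx
    have h3 := h.un (X.erase x) (E \ X)
    rw [← h2, h1] at h3
    have h4 := h.er_le X x
    omega
  refine ⟨hl', hc', ?_⟩
  by_contra hlt
  push Not at hlt
  have h1 : X.card = 1 := by
    have := hne.card_pos
    omega
  obtain ⟨x, rfl⟩ := Finset.card_eq_one.1 h1
  have h2 := hc' x (Finset.mem_singleton_self x)
  have h3 := hl' x (Finset.mem_singleton_self x)
  rw [Finset.erase_singleton, h.r0] at h2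
  omega

theorem thm_CSA (hBDC : St_BDC) (hBSP : St_BSP) (hCNC : St_CNC) (hBCN : St_BCN)
    (hBNC : St_BNC) : St_CSA := by
  intro α _ r S f h hS hcard hNP hf hE hnc
  obtain ⟨hNL, hNC⟩ := hCNC α r S h hS hcard
  have hrf : r {f} = 1 := hNL f hf
  have hrE : r (S.erase f) = r S := hNC f hf
  have hb := hBDC α r S f h hf hrf hrE
  have hb1 := hBCN α r (S.erase f) h hE
  have hcE : (S.erase f).card + 1 = S.card := Finset.card_erase_add_one hf
  have h' : Rk (ct r {f}) := h.ctr {f}
  have k : ∀ A, ct r {f} A + 1 = r (insert f A) := by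
    intro A
    have := h.ct1 f A
    omega
  have hne : (S.erase f).Nonempty := by
    rw [← Finset.card_pos]
    omega
  -- not connected
  have hX : ∃ X, X ⊆ S.erase f ∧ X.Nonempty ∧ X ≠ S.erase f ∧
      ct r {f} X + ct r {f} (S.erase f \ X) ≤ ct r {f} (S.erase f) := by
    by_contra hcon
    push Not at hcon
    exact hnc ⟨hne, fun X h1 h2 h3 => hcon X h1 h2 h3⟩
  obtain ⟨X, hXE, hXn, hXne, hXs⟩ := hX
  have hXss : X ⊂ S.erase f := lt_of_le_of_ne hXE hXne
  have hYn : (S.erase f \ X).Nonempty := Finset.sdiff_nonempty.2 (fun h1 => hXne (le_antisymm hXE h1))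
  have hcE3 : X.card + (S.erase f \ X).card = (S.erase f).card := by
    have := Finset.card_sdiff_add_card_eq_card hXE
    omega
  have hXp := hXn.card_pos
  have hYp := hYn.card_pos
  have hNL' : NL (ct r {f}) (S.erase f) := by
    intro x hx
    have hxS := Finset.mem_of_mem_erase hx
    have hxf : x ≠ f := Finset.ne_of_mem_erase hx
    have h1 := hNP f hf x hxS hxf.symm
    have h2 := k {x}
    rw [h1] at h2
    omega
  have hNC' : NC (ct r {f}) (S.erase f) := by
    intro x hx
    have hxS := Finset.mem_of_mem_erase hx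
    have hxf : x ≠ f := Finset.ne_of_mem_erase hx
    have h1 := k ((S.erase f).erase x)
    have h2 := k (S.erase f)
    have h3 : insert f ((S.erase f).erase x) = S.erase x := by
      ext y
      simp only [Finset.mem_insert, Finset.mem_erase]
      constructor
      · rintro (rfl | ⟨h4, h5, h6⟩)
        · exact ⟨hxf.symm, hf⟩
        · exact ⟨h4, h6⟩
      · rintro ⟨h4, h5⟩
        by_cases h6 : y = f
        · exact Or.inl h6
        · exact Or.inr ⟨h4, h6, h5⟩
    rw [h3, hNC x hxS] at h1
    rw [Finset.insert_erase hf] at h2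
    omega
  obtain ⟨hXl, hXc, hX2⟩ := CSA_part (ct r {f}) h' (S.erase f) X hXE hXn hXs hNL' hNC'
  have hsd : S.erase f \ (S.erase f \ X) = X := Finset.sdiff_sdiff_eq_self hXE
  obtain ⟨hYl, hYc, hY2⟩ := CSA_part (ct r {f}) h' (S.erase f) (S.erase f \ X)
    Finset.sdiff_subset hYn (by rw [hsd]; omega) hNL' hNC'
  have hun : X ∪ (S.erase f \ X) = S.erase f := Finset.union_sdiff_of_subset hXE
  have hprod := hBSP α (ct r {f}) X (S.erase f \ X) h' Finset.disjoint_sdiff (by rw [hun]; exact hXs)
  rw [hun] at hprod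
  have hbX := hBNC α (ct r {f}) X h' hXl hXc
  have hbY := hBNC α (ct r {f}) (S.erase f \ X) h' hYl hYc
  have hmul : X.card * (S.erase f \ X).card ≤
      bs (ct r {f}) X * bs (ct r {f}) (S.erase f \ X) := Nat.mul_le_mul hbX hbY
  have har := CSA_arith X.card (S.erase f \ X).card S.card hX2 hY2 (by omega)
  omega

end ALS
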