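import Pool.Agent.ALS.St

/-!
# ALS [DLK]: the dual rank function
-/

set_option autoImplicit false

namespace ALS

section

variable {α : Type} [DecidableEq α] {r : Finset α → ℕ}

theorem DLK_add (h : Rk r) (U A : Finset α) :
    dl r U A + r U = (A ∩ U).card + r (U \ A) := by
  have h1 : U = (U \ A) ∪ (A ∩ U) := by
    ext v
    simp only [Finset.mem_union, Finset.mem_sdiff, Finset.mem_inter]
    tauto
  have h2 := h.un (U \ A) (A ∩ U)
  rw [← h1] at h2
  have h3 := h.le_card (A ∩ U)
  unfold dl
  omega

theorem DLK_rk (h : Rk r) (U : Finset α) : Rk (dl r U) where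
  r0 := by
    have h1 := DLK_add h U ∅
    rw [Finset.empty_inter, Finset.card_empty, Finset.sdiff_empty] at h1
    omega
  up := by
    intro A x
    have h1 := DLK_add h U A
    have h2 := DLK_add h U (insert x A)
    have h3 : r (U \ insert x A) ≤ r (U \ A) :=
      h.mono _ _ (Finset.sdiff_subset_sdiff (Finset.Subset.refl U) (Finset.subset_insert x A))
    have h4 : (insert x A ∩ U).card ≤ (insert x (A ∩ U)).card := by
      apply Finset.card_le_card
      intro v hv
      simp only [Finset.mem_inter, Finset.mem_insert] at hv ⊢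
      tauto
    have h5 := Finset.card_insert_le x (A ∩ U)
    omega
  mono := by
    intro A B hAB
    have h1 := DLK_add h U A
    have h2 := DLK_add h U B
    have h3 := h.mono (U \ A) ((U \ B) ∪ ((B \ A) ∩ U)) (by
      intro v hv
      simp only [Finset.mem_union, Finset.mem_inter, Finset.mem_sdiff] at hv ⊢
      tauto)
    have h4 := h.un (U \ B) ((B \ A) ∩ U)
    have h5 := h.le_card ((B \ A) ∩ U)
    have h6 : (B ∩ U).card = (A ∩ U).card + ((B \ A) ∩ U).card := by
      rw [← Finset.card_union_of_disjoint]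
      · congr 1
        ext v
        have h7 := @hAB v
        simp only [Finset.mem_union, Finset.mem_inter, Finset.mem_sdiff]
        tauto
      · rw [Finset.disjoint_left]
        intro v hv hw
        simp only [Finset.mem_inter, Finset.mem_sdiff] at hv hw
        tauto
    omega
  sub := by
    intro A B
    have h1 := DLK_add h U A
    have h2 := DLK_add h U B
    have h3 := DLK_add h U (A ∪ B)
    have h4 := DLK_add h U (A ∩ B)
    have h5 := h.sub (U \ A) (U \ B)
    have h6 : (U \ A) ∪ (U \ B) = U \ (A ∩ B) := by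
      ext v
      simp only [Finset.mem_union, Finset.mem_inter, Finset.mem_sdiff]
      tauto
    have h7 : (U \ A) ∩ (U \ B) = U \ (A ∪ B) := by
      ext v
      simp only [Finset.mem_union, Finset.mem_inter, Finset.mem_sdiff]
      tauto
    rw [h6, h7] at h5
    have h8 := Finset.card_union_add_card_inter (A ∩ U) (B ∩ U)
    have h9 : (A ∩ U) ∪ (B ∩ U) = (A ∪ B) ∩ U := by
      ext v
      simp only [Finset.mem_union, Finset.mem_inter]
      tauto
    have h10 : (A ∩ U) ∩ (B ∩ U) = (A ∩ B) ∩ U := by
      ext v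
      simp only [Finset.mem_inter]
      tauto
    rw [h9, h10] at h8
    omega

/-- the number of elements -/
theorem DLK_card (U A : Finset α) (a : α) (ha : a ∈ U) (hA : a ∉ A) :
    (insert a A ∩ U).card = (A ∩ U).card + 1 := by
  rw [Finset.insert_inter_of_mem ha, Finset.card_insert_of_notMem]
  intro h1
  exact hA (Finset.mem_inter.1 h1).1

/-- two elements -/
theorem DLK_pair (h : Rk r) (U Q R : Finset α) (a b c e : α)
    (hR : ∀ v, v ∈ R ↔ v ∈ U ∧ v ∉ Q ∧ v ≠ a ∧ v ≠ b ∧ v ≠ c ∧ v ≠ e)
    (ha : a ∈ U ∧ a ∉ Q) (hb : b ∈ U ∧ b ∉ Q) (hc : c ∈ U ∧ c ∉ Q) (he : e ∈ U ∧ e ∉ Q)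
    (hab : a ≠ b) (hac : a ≠ c) (hae : a ≠ e) (hbc : b ≠ c) (hbe : b ≠ e) :
    dl r U (insert a (insert b Q)) + r U = (Q ∩ U).card + 2 + r (insert c (insert e R)) := by
  have h1 := DLK_add h U (insert a (insert b Q))
  have h2 := DLK_card U Q b hb.1 hb.2
  have h3 := DLK_card U (insert b Q) a ha.1 (by
    intro h4
    rcases Finset.mem_insert.1 h4 with h5 | h5
    · exact hab h5
    · exact ha.2 h5)
  have h4 : U \ insert a (insert b Q) = insert c (insert e R) := by
    ext v
    simp only [Finset.mem_sdiff, Finset.mem_insert, hR]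
    constructor
    · rintro ⟨h5, h6⟩
      tauto
    · rintro (h5 | h5 | h5)
      · subst h5
        refine ⟨hc.1, ?_⟩
        rintro (h6 | h6 | h6)
        · exact hac h6.symm
        · exact hbc h6.symm
        · exact hc.2 h6
      · subst h5
        refine ⟨he.1, ?_⟩
        rintro (h6 | h6 | h6)
        · exact hae h6.symm
        · exact hbe h6.symm
        · exact he.2 h6
      · tauto
  rw [h4] at h1
  omega

/-- an element which increases the dual rank -/
theorem DLK_in (h : Rk r) (U Q : Finset α) (a : α) (ha : dl r U Q < dl r U (insert a Q)) :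
    a ∈ U ∧ a ∉ Q := by
  constructor
  · by_contra h1
    have h2 := DLK_add h U Q
    have h3 := DLK_add h U (insert a Q)
    have h4 : insert a Q ∩ U = Q ∩ U := by
      ext v
      simp only [Finset.mem_inter, Finset.mem_insert]
      constructor
      · rintro ⟨h5 | h5, h6⟩
        · subst h5
          exact absurd h6 h1
        · exact ⟨h5, h6⟩
      · rintro ⟨h5, h6⟩
        exact ⟨Or.inr h5, h6⟩
    have h5 : U \ insert a Q = U \ Q := by
      ext v
      simp only [Finset.mem_sdiff, Finset.mem_insert]
      constructor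
      · rintro ⟨h6, h7⟩
        exact ⟨h6, fun h8 => h7 (Or.inr h8)⟩
      · rintro ⟨h6, h7⟩
        refine ⟨h6, ?_⟩
        rintro (h8 | h8)
        · subst h8
          exact h1 h6
        · exact h7 h8
    rw [h4, h5] at h3
    omega
  · intro h1
    rw [Finset.insert_eq_of_mem h1] at ha
    omega

theorem DLK_bin (h : Rk r) (hb : Bin r) (U : Finset α) : Bin (dl r U) := by
  intro Q x y z w hx hy hz hw hT
  by_contra hcon
  simp only [not_or, not_le] at hcon
  obtain ⟨c1, c2, c3, c4, c5, c6⟩ := hcon
  have hd := DLK_rk h U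
  have ne : ∀ a b : α, dl r U Q + 1 < dl r U (insert a (insert b Q)) → a ≠ b := by
    intro a b h1 h2
    subst h2
    rw [Finset.insert_idem] at h1
    have h3 := hd.up Q a
    omega
  have nxy := ne _ _ c1
  have nxz := ne _ _ c2
  have nxw := ne _ _ c3
  have nyz := ne _ _ c4
  have nyw := ne _ _ c5
  have nzw := ne _ _ c6
  have ix := DLK_in h U Q x hx
  have iy := DLK_in h U Q y hy
  have iz := DLK_in h U Q z hz
  have iw := DLK_in h U Q w hw
  obtain ⟨R, hR⟩ : ∃ R : Finset α, R = U \ insert x (insert y (insert z (insert w Q))) :=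
    ⟨_, rfl⟩
  have mR : ∀ v, v ∈ R ↔ v ∈ U ∧ v ∉ Q ∧ v ≠ x ∧ v ≠ y ∧ v ≠ z ∧ v ≠ w := by
    intro v
    rw [hR]
    simp only [Finset.mem_sdiff, Finset.mem_insert]
    tauto
  -- the dual rank of `Q`
  have k0 := DLK_add h U Q
  have e0 : U \ Q = insert x (insert y (insert z (insert w R))) := by
    ext v
    simp only [Finset.mem_sdiff, Finset.mem_insert, mR]
    constructor
    · rintro ⟨h5, h6⟩
      tauto
    · rintro (h5 | h5 | h5 | h5 | h5)
      · subst h5
        exact ix
      · subst h5
        exact iy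
      · subst h5
        exact iz
      · subst h5
        exact iw
      · exact ⟨h5.1, h5.2.1⟩
  rw [e0] at k0
  -- pairs
  have k1 := DLK_pair h U Q R x y z w mR ix iy iz iw nxy nxz nxw nyz nyw
  have k2 := DLK_pair h U Q R x z y w (fun v => by rw [mR v]; tauto) ix iz iy iw nxz nxy nxw
    nyz.symm nzw
  have k3 := DLK_pair h U Q R x w y z (fun v => by rw [mR v]; tauto) ix iw iy iz nxw nxy nxz
    nyw.symm nzw.symm
  have k4 := DLK_pair h U Q R y z x w (fun v => by rw [mR v]; tauto) iy iz ix iw nyz nxy.symm nyw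
    nxz.symm nzw
  have k5 := DLK_pair h U Q R y w x z (fun v => by rw [mR v]; tauto) iy iw ix iz nyw nxy.symm nyz
    nxw.symm nzw.symm
  have k6 := DLK_pair h U Q R z w x y (fun v => by rw [mR v]; tauto) iz iw ix iy nzw nxz.symm
    nyz.symm nxw.symm nyw.symm
  -- all four
  have k7 := DLK_add h U (insert x (insert y (insert z (insert w Q))))
  rw [← hR] at k7
  have m1 := DLK_card U Q w iw.1 iw.2
  have m2 := DLK_card U (insert w Q) z iz.1 (by
    simp only [Finset.mem_insert, not_or]
    exact ⟨nzw, iz.2⟩)
  have m3 := DLK_card U (insert z (insert w Q)) y iy.1 (by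
    simp only [Finset.mem_insert, not_or]
    exact ⟨nyz, nyw, iy.2⟩)
  have m4 := DLK_card U (insert y (insert z (insert w Q))) x ix.1 (by
    simp only [Finset.mem_insert, not_or]
    exact ⟨nxy, nxz, nxw, ix.2⟩)
  -- ranks over `R`
  have u1 := h.up R x
  have u2 := h.up R y
  have u3 := h.up R z
  have u4 := h.up R w
  have v1 := h.up (insert w R) z
  have v2 := h.up (insert w R) y
  have v3 := h.up (insert z R) y
  have v4 := h.up (insert w R) x
  have v5 := h.up (insert z R) x
  have v6 := h.up (insert y R) x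
  have s1 : insert x (insert y R) = insert y (insert x R) := Finset.insert_comm x y R
  have v7 := h.up (insert x R) y
  have fin := hb R x y z w (by rw [s1] at k6; omega) (by omega) (by omega) (by omega) (by omega)
  omega

end

theorem thm_DLK : St_DLK := by
  intro α _ r U h
  exact ⟨DLK_rk h U, fun hb => DLK_bin h hb U⟩

end ALS
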