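import Pool.Agent.ALS.St

/-!
# ALS [DLL]: the dual of a leaf is a leaf
-/

set_option autoImplicit false

namespace ALS

section

variable {α : Type} [DecidableEq α] {r : Finset α → ℕ}

theorem DLL_add (h : Rk r) (U A : Finset α) : dl r U A + r U = (A ∩ U).card + r (U \ A) := by
  have h1 := h.un (A ∩ U) (U \ A)
  have h2 : A ∩ U ∪ U \ A = U := by
    ext y
    simp only [Finset.mem_union, Finset.mem_inter, Finset.mem_sdiff]
    tauto
  have h3 := h.le_card (A ∩ U)
  rw [h2] at h1
  unfold dl
  omega

/-- value on a subset of `S` -/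
theorem DLL_s (h : Rk r) {o : α} {S X : Finset α} (ho : o ∉ S) (hX : X ⊆ S) :
    dl r (insert o S) X + r (insert o S) = X.card + r (insert o (S \ X)) := by
  have h1 := DLL_add h (insert o S) X
  have h2 : X ∩ insert o S = X :=
    Finset.inter_eq_left.2 (hX.trans (Finset.subset_insert _ _))
  have h3 : insert o S \ X = insert o (S \ X) :=
    Finset.insert_sdiff_of_notMem _ fun h => ho (hX h)
  rw [h2, h3] at h1
  exact h1

/-- value on `insert o X` -/
theorem DLL_i (h : Rk r) {o : α} {S X : Finset α} (ho : o ∉ S) (hX : X ⊆ S) :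
    dl r (insert o S) (insert o X) + r (insert o S) = X.card + 1 + r (S \ X) := by
  have h1 := DLL_add h (insert o S) (insert o X)
  have h2 : insert o X ∩ insert o S = insert o X :=
    Finset.inter_eq_left.2 (Finset.insert_subset_insert _ hX)
  have h3 : insert o S \ insert o X = S \ X := by
    ext y
    simp only [Finset.mem_sdiff, Finset.mem_insert]
    constructor
    · rintro ⟨h4 | h4, h5⟩
      · exact absurd (Or.inl h4) h5
      · exact ⟨h4, fun h6 => h5 (Or.inr h6)⟩
    · rintro ⟨h4, h5⟩
      refine ⟨Or.inr h4, ?_⟩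
      rintro (h6 | h6)
      · subst h6
        exact ho h4
      · exact h5 h6
  rw [h2, h3, Finset.card_insert_of_notMem fun h => ho (hX h)] at h1
  exact h1

end

theorem thm_DLL (hDLK : St_DLK) : St_DLL := by
  intro α _ r o S h hL
  have hd : Rk (dl r (insert o S)) := (hDLK α r (insert o S) h).1
  have ho := hL.nm
  have hcl := hL.cl
  have hro := hL.ro
  -- values
  have e1 : dl r (insert o S) {o} = 1 := by
    have h1 := DLL_i h ho (Finset.empty_subset S)
    have h2 : insert o (∅ : Finset α) = {o} := rfl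
    rw [h2, Finset.sdiff_empty, Finset.card_empty] at h1
    omega
  have e2 : dl r (insert o S) S + r S = S.card + 1 := by
    have h1 := DLL_s h ho (Finset.Subset.refl S)
    have h2 : insert o (∅ : Finset α) = {o} := rfl
    rw [Finset.sdiff_self, h2] at h1
    omega
  have e3 : dl r (insert o S) (insert o S) + r S = S.card + 1 := by
    have h1 := DLL_i h ho (Finset.Subset.refl S)
    rw [Finset.sdiff_self, h.r0] at h1
    omega
  have hcomp : ∀ X, X ⊆ S → S \ (S \ X) = X ∧ X.card + (S \ X).card = S.card := by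
    intro X hX
    refine ⟨?_, ?_⟩
    · rw [Finset.sdiff_sdiff_eq_self hX]
    · rw [add_comm]
      exact Finset.card_sdiff_add_card_eq_card hX
  refine ⟨⟨ho, hL.two, e1, by omega, ⟨hL.c1.1, ?_⟩, ⟨hL.c1.1, ?_⟩⟩, e2⟩
  · intro X hX hne hneq
    have h1 := DLL_s h ho hX
    have h2 := DLL_s h ho (Finset.sdiff_subset : S \ X ⊆ S)
    obtain ⟨h3, h4⟩ := hcomp X hX
    rw [h3] at h2
    have h5 := hL.c2.2 X hX hne hneq
    have h6 := h.ct1 o S
    have h7 := h.ct1 o X
    have h8 := h.ct1 o (S \ X)
    omega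
  · intro X hX hne hneq
    have h1 := DLL_i h ho hX
    have h2 := DLL_i h ho (Finset.sdiff_subset : S \ X ⊆ S)
    obtain ⟨h3, h4⟩ := hcomp X hX
    rw [h3] at h2
    have h5 := hL.c1.2 X hX hne hneq
    have h6 := hd.ct1 o S
    have h7 := hd.ct1 o X
    have h8 := hd.ct1 o (S \ X)
    omega

end ALS
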