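import Pool.Agent.ALS.St

/-!
# ALS: [DLM] deletion of an element of `F`
-/

set_option autoImplicit false

namespace ALS

section

variable {α : Type} [DecidableEq α]

theorem DLM_congr (r1 r2 : Finset α → ℕ) (S : Finset α) (h : ∀ A, A ⊆ S → r1 A = r2 A) :
    bs r1 S = bs r2 S := by
  unfold bs
  congr 1
  apply Finset.filter_congr
  intro A hA
  rw [Finset.mem_powerset] at hA
  rw [h A hA, h S (Finset.Subset.refl S)]

theorem DLM_half (hB : St_BMI) {r : Finset α → ℕ} (h : Rk r) {F X Y : Finset α} {f : α}
    (hf : f ∈ F) (dXY : Disjoint X Y) (dFY : Disjoint F Y)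
    (sm : r (X ∪ F) + r (Y ∪ F) ≤ r (F ∪ X ∪ Y) + r F)
    (he : r (X ∪ F) ≤ r (X ∪ F.erase f)) :
    bs (ct r F) Y ≤ bs r ((X ∪ F.erase f) ∪ Y) := by
  have hins : ∀ A : Finset α, insert f (A ∪ (X ∪ F.erase f)) = A ∪ (X ∪ F) := by
    intro A
    ext y
    simp only [Finset.mem_union, Finset.mem_insert, Finset.mem_erase]
    by_cases hy : y = f
    · subst hy
      simp [hf]
    · simp [hy]
  have hins0 : insert f (X ∪ F.erase f) = X ∪ F := by
    have := hins ∅
    simpa using this
  have hd : Disjoint (X ∪ F.erase f) Y := by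
    rw [Finset.disjoint_union_left]
    exact ⟨dXY, Finset.disjoint_of_subset_left (Finset.erase_subset f F) dFY⟩
  have h1 := (hB α r h).2 (X ∪ F.erase f) Y hd
  have h2 : bs (ct r F) Y = bs (ct r (X ∪ F.erase f)) Y := by
    apply DLM_congr
    intro A hA
    have e1 : r (A ∪ (X ∪ F)) = r (A ∪ (X ∪ F.erase f)) := by
      have := h.clo (X ∪ F.erase f) (A ∪ (X ∪ F.erase f)) f Finset.subset_union_right
        (by rw [hins0]; exact he)
      rw [hins] at this
      exact this
    have e2 : r (A ∪ (X ∪ F)) + r F ≤ r (A ∪ F) + r (X ∪ F) := by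
      have s1 := h.sub (A ∪ F) (X ∪ F)
      have s2 := h.mono F ((A ∪ F) ∩ (X ∪ F))
        (Finset.subset_inter Finset.subset_union_right Finset.subset_union_right)
      have s3 : A ∪ F ∪ (X ∪ F) = A ∪ (X ∪ F) := by
        ext y
        simp only [Finset.mem_union]
        tauto
      rw [s3] at s1
      omega
    have e3 : r (A ∪ F) + r (X ∪ F) ≤ r (A ∪ (X ∪ F)) + r F := by
      have s1 := h.sub (A ∪ (X ∪ F)) (Y ∪ F)
      have s2 := h.mono (A ∪ F) ((A ∪ (X ∪ F)) ∩ (Y ∪ F)) (by
        intro y hy
        rw [Finset.mem_union] at hy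
        simp only [Finset.mem_inter, Finset.mem_union]
        rcases hy with hy | hy
        · exact ⟨Or.inl hy, Or.inl (hA hy)⟩
        · exact ⟨Or.inr (Or.inr hy), Or.inr hy⟩)
      have s3 : A ∪ (X ∪ F) ∪ (Y ∪ F) = F ∪ X ∪ Y := by
        ext y
        simp only [Finset.mem_union]
        constructor
        · rintro ((h | h | h) | h | h)
          · exact Or.inr (hA h)
          · exact Or.inl (Or.inr h)
          · exact Or.inl (Or.inl h)
          · exact Or.inr h
          · exact Or.inl (Or.inl h)
        · tauto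
      rw [s3] at s1
      omega
    have e4 : r (X ∪ F.erase f) ≤ r (X ∪ F) :=
      h.mono _ _ (Finset.union_subset_union_right (Finset.erase_subset f F))
    have e5 := h.mono F (A ∪ F) Finset.subset_union_right
    have e6 := h.mono (X ∪ F) (A ∪ (X ∪ F)) Finset.subset_union_right
    unfold ct
    omega
  rw [h2]
  exact h1

theorem thm_DLM (hBMI : St_BMI) (hFXY : St_FXY) : St_DLM := by
  intro α _ r F X Y f m h hb hf hmX hmY
  obtain ⟨bX, bY, bXY, cX, cY⟩ := hFXY α r F X Y h hb
  have hfX : f ∉ X := fun h1 => (Finset.disjoint_left.1 hb.fx) hf h1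
  have hfY : f ∉ Y := fun h1 => (Finset.disjoint_left.1 hb.fy) hf h1
  have hS : (F ∪ X ∪ Y).erase f = F.erase f ∪ (X ∪ Y) := by
    ext y
    simp only [Finset.mem_union, Finset.mem_erase]
    constructor
    · tauto
    · rintro (⟨h1, h2⟩ | h1 | h1)
      · exact ⟨h1, Or.inl (Or.inl h2)⟩
      · exact ⟨fun h2 => hfX (h2 ▸ h1), Or.inl (Or.inr h1)⟩
      · exact ⟨fun h2 => hfY (h2 ▸ h1), Or.inr h1⟩
  by_cases hG : r F ≤ r (F.erase f)
  · -- the contraction is the same
    have hd : Disjoint (F.erase f) (X ∪ Y) := by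
      rw [Finset.disjoint_union_right]
      exact ⟨Finset.disjoint_of_subset_left (Finset.erase_subset f F) hb.fx,
        Finset.disjoint_of_subset_left (Finset.erase_subset f F) hb.fy⟩
    have h1 := (hBMI α r h).2 (F.erase f) (X ∪ Y) hd
    have h2 : ct r (F.erase f) = ct r F := by
      funext A
      have e1 := h.clo (F.erase f) (A ∪ F.erase f) f Finset.subset_union_right
        (by rw [Finset.insert_erase hf]; exact hG)
      have e2 : insert f (A ∪ F.erase f) = A ∪ F := by
        rw [← Finset.union_insert, Finset.insert_erase hf]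
      rw [e2] at e1
      have e3 := h.er_le F f
      unfold ct
      omega
    rw [h2] at h1
    rw [hS]
    have h3 : m ≤ X.card * Y.card := hmX.trans (Nat.le_mul_of_pos_right _ (by omega))
    omega
  · have hG1 := h.er F f
    have hnc := hb.nc f (Finset.mem_union_left _ (Finset.mem_union_left _ hf))
    have key : r (X ∪ F) ≤ r (X ∪ F.erase f) ∨ r (Y ∪ F) ≤ r (Y ∪ F.erase f) := by
      by_contra hcon
      push Not at hcon
      obtain ⟨c1, c2⟩ := hcon
      have s1 := h.sub (X ∪ F.erase f) (Y ∪ F.erase f)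
      have s2 : X ∪ F.erase f ∪ (Y ∪ F.erase f) = (F ∪ X ∪ Y).erase f := by
        rw [hS]
        ext y
        simp only [Finset.mem_union]
        tauto
      have s3 := h.mono (F.erase f) ((X ∪ F.erase f) ∩ (Y ∪ F.erase f))
        (Finset.subset_inter Finset.subset_union_right Finset.subset_union_right)
      rw [s2, hnc] at s1
      have s4 := hb.sm
      omega
    rcases key with he | he
    · have h1 := DLM_half hBMI h hf hb.xy hb.fy hb.sm he
      have h2 : X ∪ F.erase f ∪ Y = (F ∪ X ∪ Y).erase f := by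
        rw [hS]
        ext y
        simp only [Finset.mem_union]
        tauto
      rw [h2] at h1
      omega
    · have h0 : F ∪ Y ∪ X = F ∪ X ∪ Y := by
        ext y
        simp only [Finset.mem_union]
        tauto
      have h1 := DLM_half hBMI h hf hb.xy.symm hb.fx
        (by rw [h0, Nat.add_comm]; exact hb.sm) he
      have h2 : Y ∪ F.erase f ∪ X = (F ∪ X ∪ Y).erase f := by
        rw [hS]
        ext y
        simp only [Finset.mem_union]
        tauto
      rw [h2] at h1
      omega

end

end ALS
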