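import Pool.Agent.ALS.StG

/-!
# ALS [DUG]: the dual of a leaf is a leaf
-/

set_option autoImplicit false

namespace ALS

open Pool.ALT

section
variable {V W E : Type} [Fintype V] [Fintype W] [Fintype E] [DecidableEq E] {g : Gr V E}
  {h : Gr W E}

theorem DUG_nc (hD : Du g h) (A : Finset E) :
    nc (h.sp ⊥ (Finset.univ \ A)) + Fintype.card V = nc (g.sp ⊥ A ⊔ g.ab) + A.card + 2 := by
  have h1 := hD.du A
  by_cases h2 : g.sp ⊥ A g.a g.b
  · have h3 := (hD.sep A).1 h2
    have h4 : nc (h.sp ⊥ (Finset.univ \ A) ⊔ h.ab) + 1 = nc (h.sp ⊥ (Finset.univ \ A)) :=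
      nc_sup_pr h3
    have h5 : g.sp ⊥ A ⊔ g.ab = g.sp ⊥ A := sup_pr_of _ h2
    rw [h5]
    omega
  · have h3 : h.sp ⊥ (Finset.univ \ A) h.a h.b := by
      by_contra h4
      exact h2 ((hD.sep A).2 h4)
    have h4 : nc (g.sp ⊥ A ⊔ g.ab) + 1 = nc (g.sp ⊥ A) := nc_sup_pr h2
    have h5 : h.sp ⊥ (Finset.univ \ A) ⊔ h.ab = h.sp ⊥ (Finset.univ \ A) := sup_pr_of _ h3
    rw [h5] at h1
    omega

theorem DUG_eu (hD : Du g h) : Fintype.card V + Fintype.card W = Fintype.card E + 3 := by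
  have h1 := hD.du Finset.univ
  rw [hD.con, Finset.card_univ, Finset.sdiff_self, Gr.sp_empty] at h1
  have h2 : nc ((⊥ : Setoid W) ⊔ h.ab) + 1 = nc (⊥ : Setoid W) := nc_sup_pr hD.cd
  rw [nc_bot, Nat.card_eq_fintype_card] at h2
  omega

theorem DUG_card (A : Finset E) : A.card + (Finset.univ \ A).card = Fintype.card E := by
  have h1 := Finset.card_sdiff_add_card_eq_card (Finset.subset_univ A)
  rw [Finset.card_univ] at h1
  omega

theorem DUG_cc (A : Finset E) : Finset.univ \ (Finset.univ \ A) = A := by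
  rw [Finset.sdiff_sdiff_eq_self (Finset.subset_univ A)]

end

theorem thm_DUG : St_DUG := by
  intro V W E _ _ _ _ g h hD hL
  have hE := DUG_eu hD
  refine ⟨hD.cd, hL.two, hD.con', ?_, ?_⟩
  · intro A h0 h1
    have h2 := hL.c2 A h0 h1
    have h3 := DUG_nc hD A
    have h4 := DUG_nc hD (Finset.univ \ A)
    have h5 := DUG_card A
    rw [DUG_cc] at h4
    omega
  · intro A h0 h1
    have h2 := hL.c1 A h0 h1
    have h3 := hD.du A
    have h4 := hD.du (Finset.univ \ A)
    have h5 := DUG_card A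
    rw [DUG_cc] at h4
    omega

end ALS
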