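import Pool.Agent.ALS.St

/-!
# ALS: module FIB, the fibre lemma
-/

set_option autoImplicit false

namespace ALS

private theorem FIB_ct0 {α : Type} [DecidableEq α] (r : Finset α → ℕ) (hr : Rk r) :
    ct r ∅ = r := by
  funext A
  unfold ct
  rw [Finset.union_empty, hr.r0]
  omega

private theorem FIB_step {α : Type} [DecidableEq α]
    (hBDC : St_BDC) (hBSP : St_BSP) (hBMI : St_BMI) (hFXY : St_FXY) (hDLM : St_DLM)
    (n : ℕ) (ih : ∀ k, k < n → ∀ (r : Finset α → ℕ) (F X Y : Finset α) (m : ℕ), F.card = k →
      Rk r → Fb r F X Y → m ≤ X.card → m ≤ Y.card →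
      X.card * Y.card + m * F.card ≤ bs r (F ∪ X ∪ Y))
    (r : Finset α → ℕ) (F X Y : Finset α) (m : ℕ) (hn : F.card = n) (hr : Rk r)
    (hF : Fb r F X Y) (hmX : m ≤ X.card) (hmY : m ≤ Y.card) (f : α) (hf : f ∈ F) :
    X.card * Y.card + m * F.card ≤ bs r (F ∪ X ∪ Y) := by
  classical
  obtain ⟨hX1, hY1, hXY1, hX2, hY2⟩ := hFXY α r F X Y hr hF
  have hfX : f ∉ X := fun h => (Finset.disjoint_left.1 hF.fx) hf h
  have hfY : f ∉ Y := fun h => (Finset.disjoint_left.1 hF.fy) hf h
  have hfS : f ∈ F ∪ X ∪ Y := by
    simp only [Finset.mem_union]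
    exact Or.inl (Or.inl hf)
  have hf1 : r {f} = 1 := hF.nl f hfS
  have hfc : r ((F ∪ X ∪ Y).erase f) = r (F ∪ X ∪ Y) := hF.nc f hfS
  have hE : (F ∪ X ∪ Y).erase f = F.erase f ∪ X ∪ Y := by
    ext y
    simp only [Finset.mem_erase, Finset.mem_union]
    constructor
    · rintro ⟨h1, (h2 | h2) | h2⟩
      · exact Or.inl (Or.inl ⟨h1, h2⟩)
      · exact Or.inl (Or.inr h2)
      · exact Or.inr h2
    · rintro ((⟨h1, h2⟩ | h2) | h2)
      · exact ⟨h1, Or.inl (Or.inl h2)⟩
      · refine ⟨?_, Or.inl (Or.inr h2)⟩
        rintro rfl
        exact hfX h2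
      · refine ⟨?_, Or.inr h2⟩
        rintro rfl
        exact hfY h2
  have hbdc := hBDC α r (F ∪ X ∪ Y) f hr hfS hf1 hfc
  rw [hE] at hbdc hfc
  have hFi : insert f (F.erase f) = F := Finset.insert_erase hf
  have hcard : (F.erase f).card + 1 = F.card := Finset.card_erase_add_one hf
  have hmXY : m ≤ X.card * Y.card := by
    calc m ≤ X.card := hmX
      _ = X.card * 1 := (mul_one _).symm
      _ ≤ X.card * Y.card := Nat.mul_le_mul_left _ (by omega)
  have h2mXY : 2 * m ≤ X.card * Y.card := Nat.mul_le_mul hX2 hmY
  -- Lemma A
  have hA : X.card * Y.card ≤ bs (ct r {f}) (F.erase f ∪ X ∪ Y) := by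
    have hd : Disjoint (F.erase f) (X ∪ Y) := by
      rw [Finset.disjoint_union_right]
      exact ⟨hF.fx.mono_left (Finset.erase_subset _ _), hF.fy.mono_left (Finset.erase_subset _ _)⟩
    have h1 := (hBMI α (ct r {f}) (hr.ctr {f})).2 (F.erase f) (X ∪ Y) hd
    rw [hr.ctct {f} (F.erase f)] at h1
    have h2 : ({f} : Finset α) ∪ F.erase f = F := by
      rw [← Finset.insert_eq]
      exact hFi
    rw [h2, ← Finset.union_assoc] at h1
    exact hXY1.trans h1
  by_cases hi : ∃ f' ∈ F ∪ X ∪ Y, f' ≠ f ∧ r {f, f'} ≤ 1
  · obtain ⟨f', hf'S, hne, hff⟩ := hi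
    have hff' : r (insert f {f'}) ≤ 1 := hff
    have hf'1 : r {f'} = 1 := hF.nl f' hf'S
    have hpc : ({f', f} : Finset α) = {f, f'} := Finset.pair_comm f' f
    have hf'F : f' ∈ F := by
      by_contra hno
      have hxy : f' ∈ X ∪ Y := by
        simp only [Finset.mem_union] at hf'S ⊢
        rcases hf'S with (h | h) | h
        · exact absurd h hno
        · exact Or.inl h
        · exact Or.inr h
      have h1 := hF.lp f' hxy
      have h2 : r (insert f' F) = r F := by
        refine hr.clo {f} F f' (Finset.singleton_subset_iff.2 hf) ?_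
        have : (insert f' {f} : Finset α) = {f, f'} := hpc
        rw [this, hf1]
        exact hff
      omega
    have hf'G : f' ∈ F.erase f := Finset.mem_erase.2 ⟨hne, hf'F⟩
    -- f is in the closure of every set containing f'
    have hclo : ∀ A : Finset α, f' ∈ A → r (insert f A) = r A := by
      intro A hA'
      refine hr.clo {f'} A f (Finset.singleton_subset_iff.2 hA') ?_
      rw [hf'1]
      exact hff
    have hrG : r (F.erase f) = r F := by
      have := hclo _ hf'G
      rw [hFi] at this
      exact this.symm
    by_cases hnc : NC r (F.erase f ∪ X ∪ Y)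
    · -- (i-a)
      have hFb : Fb r (F.erase f) X Y := by
        refine ⟨hF.fx.mono_left (Finset.erase_subset _ _), hF.fy.mono_left (Finset.erase_subset _ _),
          hF.xy, hF.nx, hF.ny, ?_, hnc, ?_, ?_⟩
        · intro x hx
          refine hF.nl x ?_
          rw [← hE] at hx
          exact Finset.mem_of_mem_erase hx
        · have h1 := hF.sm
          have h2 := hr.mono (X ∪ F.erase f) (X ∪ F)
            (Finset.union_subset_union_right (Finset.erase_subset _ _))
          have h3 := hr.mono (Y ∪ F.erase f) (Y ∪ F)
            (Finset.union_subset_union_right (Finset.erase_subset _ _))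
          rw [hfc, hrG]
          omega
        · intro x hx
          have h1 := hF.lp x hx
          have h2 := hclo (insert x (F.erase f)) (Finset.mem_insert_of_mem hf'G)
          rw [Finset.insert_comm, hFi] at h2
          omega
      have h1 := ih (F.erase f).card (by omega) r (F.erase f) X Y m rfl hr hFb hmX hmY
      rw [hbdc, ← hcard, Nat.mul_add, mul_one]
      omega
    · -- (i-b)
      have hg : ∃ g ∈ F.erase f ∪ X ∪ Y,
          r ((F.erase f ∪ X ∪ Y).erase g) ≠ r (F.erase f ∪ X ∪ Y) := by
        by_contra hno
        refine hnc ?_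
        intro x hx
        by_contra hx2
        exact hno ⟨x, hx, hx2⟩
      obtain ⟨g, hgE, hgne⟩ := hg
      have hgf : g ≠ f := by
        rw [← hE] at hgE
        exact (Finset.mem_erase.1 hgE).1
      have hgS : g ∈ F ∪ X ∪ Y := by
        rw [← hE] at hgE
        exact Finset.mem_of_mem_erase hgE
      have hf'E : f' ∈ F.erase f ∪ X ∪ Y := by
        simp only [Finset.mem_union]
        exact Or.inl (Or.inl hf'G)
      have hfE : insert f (F.erase f ∪ X ∪ Y) = F ∪ X ∪ Y := by
        rw [← hE]
        exact Finset.insert_erase hfS
      have hgf' : g = f' := by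
        by_contra hne2
        have h1 : f' ∈ (F.erase f ∪ X ∪ Y).erase g :=
          Finset.mem_erase.2 ⟨fun h => hne2 h.symm, hf'E⟩
        have h2 := hclo _ h1
        have h3 : insert f ((F.erase f ∪ X ∪ Y).erase g) = (F ∪ X ∪ Y).erase g := by
          rw [← hfE, Finset.erase_insert_of_ne hgf.symm]
        rw [h3, hF.nc g hgS] at h2
        exact hgne (by rw [← h2, hfc])
      subst hgf'
      -- now `g` is the second element
      have hlt : r ((F.erase f ∪ X ∪ Y).erase g) < r (F.erase f ∪ X ∪ Y) :=
        lt_of_le_of_ne (hr.er_le _ _) hgne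
      have hgX : g ∉ X := fun h => (Finset.disjoint_left.1 hF.fx) hf'F h
      have hgY : g ∉ Y := fun h => (Finset.disjoint_left.1 hF.fy) hf'F h
      have hE2 : (F.erase f ∪ X ∪ Y).erase g = (F.erase f).erase g ∪ X ∪ Y := by
        ext y
        simp only [Finset.mem_erase, Finset.mem_union]
        constructor
        · rintro ⟨h1, (h2 | h2) | h2⟩
          · exact Or.inl (Or.inl ⟨h1, h2⟩)
          · exact Or.inl (Or.inr h2)
          · exact Or.inr h2
        · rintro ((⟨h1, h2⟩ | h2) | h2)
          · exact ⟨h1, Or.inl (Or.inl h2)⟩
          · refine ⟨?_, Or.inl (Or.inr h2)⟩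
            rintro rfl
            exact hgX h2
          · refine ⟨?_, Or.inr h2⟩
            rintro rfl
            exact hgY h2
      rw [hE2] at hlt
      have hinsg : insert g ((F.erase f).erase g ∪ X ∪ Y) = F.erase f ∪ X ∪ Y := by
        rw [← hE2]
        exact Finset.insert_erase hf'E
      have hinsG : insert g ((F.erase f).erase g) = F.erase f := Finset.insert_erase hf'G
      -- adding the two elements increases the rank by one
      have hadd : ∀ A : Finset α, A ⊆ (F.erase f).erase g ∪ X ∪ Y →
          r (insert f (insert g A)) = r A + 1 := by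
        intro A hAS
        have h1 := hclo (insert g A) (Finset.mem_insert_self g A)
        have h2 := hr.dim A _ g hAS
        rw [hinsg] at h2
        have h3 := hr.up A g
        omega
      have hHS : (F.erase f).erase g ⊆ (F.erase f).erase g ∪ X ∪ Y := by
        rw [Finset.union_assoc]
        exact Finset.subset_union_left
      have hFb : Fb r ((F.erase f).erase g) X Y := by
        have hsub : (F.erase f).erase g ⊆ F :=
          (Finset.erase_subset _ _).trans (Finset.erase_subset _ _)
        have hSS : (F.erase f).erase g ∪ X ∪ Y ⊆ F ∪ X ∪ Y :=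
          Finset.union_subset_union_left (Finset.union_subset_union_left hsub)
        refine ⟨hF.fx.mono_left hsub, hF.fy.mono_left hsub,
          hF.xy, hF.nx, hF.ny, ?_, ?_, ?_, ?_⟩
        · intro x hx
          exact hF.nl x (hSS hx)
        · intro x hx
          have h1 := hadd (((F.erase f).erase g ∪ X ∪ Y).erase x) (Finset.erase_subset _ _)
          have h2 := hadd _ (Finset.Subset.refl ((F.erase f).erase g ∪ X ∪ Y))
          have hxg : x ≠ g := by
            rw [← hE2] at hx
            exact (Finset.mem_erase.1 hx).1
          have hxf : x ≠ f := by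
            rw [← hE2] at hx
            have := Finset.mem_of_mem_erase hx
            rw [← hE] at this
            exact (Finset.mem_erase.1 this).1
          have h3 := hF.nc x (hSS hx)
          have h4 : insert f (insert g (((F.erase f).erase g ∪ X ∪ Y).erase x)) =
              (F ∪ X ∪ Y).erase x := by
            rw [← Finset.erase_insert_of_ne hxg.symm, ← Finset.erase_insert_of_ne hxf.symm,
              hinsg, hfE]
          rw [h4, h3] at h1
          rw [hinsg, hfE] at h2
          omega
        · have h1 := hadd (X ∪ (F.erase f).erase g) (by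
            intro y hy
            simp only [Finset.mem_union] at hy ⊢
            rcases hy with h | h
            · exact Or.inl (Or.inr h)
            · exact Or.inl (Or.inl h))
          have h2 := hadd (Y ∪ (F.erase f).erase g) (by
            intro y hy
            simp only [Finset.mem_union] at hy ⊢
            rcases hy with h | h
            · exact Or.inr h
            · exact Or.inl (Or.inl h))
          have h3 := hadd _ (Finset.Subset.refl ((F.erase f).erase g ∪ X ∪ Y))
          have h4 := hadd _ hHS
          have e1 : insert f (insert g (X ∪ (F.erase f).erase g)) = X ∪ F := by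
            rw [← Finset.union_insert, hinsG, ← Finset.union_insert, hFi]
          have e2 : insert f (insert g (Y ∪ (F.erase f).erase g)) = Y ∪ F := by
            rw [← Finset.union_insert, hinsG, ← Finset.union_insert, hFi]
          rw [e1] at h1
          rw [e2] at h2
          rw [hinsg, hfE] at h3
          rw [hinsG, hFi] at h4
          have h5 := hF.sm
          omega
        · intro x hx
          have h1 := hF.lp x hx
          have h2 := hadd _ hHS
          rw [hinsG, hFi] at h2
          have h3 := hadd (insert x ((F.erase f).erase g)) (by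
            intro y hy
            simp only [Finset.mem_insert, Finset.mem_union] at hy hx ⊢
            rcases hy with h | h
            · subst h
              rcases hx with h | h
              · exact Or.inl (Or.inr h)
              · exact Or.inr h
            · exact Or.inl (Or.inl h))
          rw [Finset.insert_comm g x, hinsG, Finset.insert_comm f x, hFi] at h3
          omega
      have hcard2 : ((F.erase f).erase g).card + 1 = (F.erase f).card :=
        Finset.card_erase_add_one hf'G
      have h1 := ih ((F.erase f).erase g).card (by omega) r ((F.erase f).erase g) X Y m rfl hr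
        hFb hmX hmY
      -- the direct sum
      have hdis : Disjoint ({f, g} : Finset α) ((F.erase f).erase g ∪ X ∪ Y) := by
        rw [← hE2, ← hE, Finset.disjoint_left]
        intro a ha hb
        simp only [Finset.mem_insert, Finset.mem_singleton] at ha
        simp only [Finset.mem_erase] at hb
        rcases ha with h | h
        · exact hb.2.1 h
        · exact hb.1 h
      have hun : ({f, g} : Finset α) ∪ ((F.erase f).erase g ∪ X ∪ Y) = F ∪ X ∪ Y := by
        have : ({f, g} : Finset α) ∪ ((F.erase f).erase g ∪ X ∪ Y) =
            insert f (insert g ((F.erase f).erase g ∪ X ∪ Y)) := by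
          ext y
          simp only [Finset.mem_union, Finset.mem_insert, Finset.mem_singleton]
          tauto
        rw [this, hinsg, hfE]
      have hbsp := hBSP α r {f, g} ((F.erase f).erase g ∪ X ∪ Y) hr hdis (by
        rw [hun]
        omega)
      rw [hun] at hbsp
      have hb2 : 2 ≤ bs r {f, g} := by
        have hge : 1 ≤ r {f, g} := by
          have := hr.mono {f} {f, g} (by
            intro y hy
            simp only [Finset.mem_singleton] at hy
            simp only [Finset.mem_insert]
            exact Or.inl hy)
          omega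
        have her : ({f, g} : Finset α).erase f = {g} := by
          refine Finset.erase_insert ?_
          simp only [Finset.mem_singleton]
          exact hne.symm
        have h5 := hBDC α r {f, g} f hr (Finset.mem_insert_self _ _) hf1 (by
          rw [her]
          omega)
        have h6 := (hBMI α r hr).1 (({f, g} : Finset α).erase f)
        have h7 := (hBMI α (ct r {f}) (hr.ctr {f})).1 (({f, g} : Finset α).erase f)
        omega
      have hbig : 2 * bs r ((F.erase f).erase g ∪ X ∪ Y) ≤ bs r (F ∪ X ∪ Y) := by
        rw [hbsp]
        exact Nat.mul_le_mul_right _ hb2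
      have hFc : F.card = ((F.erase f).erase g).card + 2 := by omega
      rw [hFc, Nat.mul_add]
      have h8 : X.card * Y.card ≤ bs r ((F.erase f).erase g ∪ X ∪ Y) := by
        have : X.card * Y.card ≤ X.card * Y.card + m * ((F.erase f).erase g).card :=
          Nat.le_add_right _ _
        exact this.trans h1
      have h9 : m * 2 = 2 * m := Nat.mul_comm _ _
      omega
  · -- (ii)
    have hno : ∀ x ∈ F ∪ X ∪ Y, x ≠ f → 1 < r {f, x} := by
      intro x hx hxf
      by_contra hle
      exact hi ⟨x, hx, hxf, not_lt.1 hle⟩
    have hk : ∀ A : Finset α, ct r {f} A + 1 = r (insert f A) := by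
      intro A
      have := hr.ct1 f A
      rw [hf1] at this
      exact this
    have hfE : insert f (F.erase f ∪ X ∪ Y) = F ∪ X ∪ Y := by
      rw [← hE]
      exact Finset.insert_erase hfS
    have hFb : Fb (ct r {f}) (F.erase f) X Y := by
      refine ⟨hF.fx.mono_left (Finset.erase_subset _ _), hF.fy.mono_left (Finset.erase_subset _ _),
        hF.xy, hF.nx, hF.ny, ?_, ?_, ?_, ?_⟩
      · intro x hx
        rw [← hE] at hx
        obtain ⟨hxf, hxS⟩ := Finset.mem_erase.1 hx
        have h1 := hno x hxS hxf
        have h2 := hk {x}
        have h3 : r (insert f {x}) ≤ r {x} + 1 := hr.up {x} f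
        have h4 := hr.sgl x
        have h5 : r (insert f {x}) = r {f, x} := rfl
        omega
      · intro x hx
        have hx2 := hx
        rw [← hE] at hx2
        obtain ⟨hxf, hxS⟩ := Finset.mem_erase.1 hx2
        have h1 := hk ((F.erase f ∪ X ∪ Y).erase x)
        have h2 := hk (F.erase f ∪ X ∪ Y)
        have h3 : insert f ((F.erase f ∪ X ∪ Y).erase x) = (F ∪ X ∪ Y).erase x := by
          rw [← hfE, Finset.erase_insert_of_ne hxf.symm]
        rw [h3, hF.nc x hxS] at h1
        rw [hfE] at h2
        omega
      · have h1 := hk (X ∪ F.erase f)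
        have h2 := hk (Y ∪ F.erase f)
        have h3 := hk (F.erase f ∪ X ∪ Y)
        have h4 := hk (F.erase f)
        rw [← Finset.union_insert, hFi] at h1 h2
        rw [hfE] at h3
        rw [hFi] at h4
        have h5 := hF.sm
        omega
      · intro x hx
        have h1 := hF.lp x hx
        have h2 := hk (F.erase f)
        have h3 := hk (insert x (F.erase f))
        rw [Finset.insert_comm, hFi] at h3
        rw [hFi] at h2
        omega
    have h1 := ih (F.erase f).card (by omega) (ct r {f}) (F.erase f) X Y m rfl (hr.ctr {f}) hFb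
      hmX hmY
    have h2 := hDLM α r F X Y f m hr hF hf hmX hmY
    rw [hE] at h2
    rw [hbdc, ← hcard, Nat.mul_add, mul_one]
    omega

theorem thm_FIB (hBDC : St_BDC) (hBSP : St_BSP) (hBMI : St_BMI) (hFXY : St_FXY)
    (hDLM : St_DLM) : St_FIB := by
  intro α inst r F X Y m hr hF hmX hmY
  have main : ∀ n : ℕ, ∀ (r : Finset α → ℕ) (F X Y : Finset α) (m : ℕ), F.card = n →
      Rk r → Fb r F X Y → m ≤ X.card → m ≤ Y.card →
      X.card * Y.card + m * F.card ≤ bs r (F ∪ X ∪ Y) := by
    intro n
    induction n using Nat.strong_induction_on with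
    | _ n ih =>
      intro r F X Y m hn hr hF hmX hmY
      rcases F.eq_empty_or_nonempty with h0 | ⟨f, hf⟩
      · subst h0
        obtain ⟨-, -, h1, -, -⟩ := hFXY α r ∅ X Y hr hF
        rw [FIB_ct0 r hr] at h1
        rw [Finset.card_empty, mul_zero, add_zero, Finset.empty_union]
        exact h1
      · exact FIB_step hBDC hBSP hBMI hFXY hDLM n ih r F X Y m hn hr hF hmX hmY f hf
  exact main F.card r F X Y m rfl hr hF hmX hmY

end ALS
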