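import Pool.Agent.ALS.St

/-!
# ALS, module FXY (helper34): the contraction of `F`
-/

set_option autoImplicit false

namespace ALS

theorem FXY_swap {α : Type} [DecidableEq α] {r : Finset α → ℕ} {F X Y : Finset α}
    (h : Fb r F X Y) : Fb r F Y X where
  fx := h.fy
  fy := h.fx
  xy := h.xy.symm
  nx := h.ny
  ny := h.nx
  nl := by
    rw [Finset.union_right_comm]
    exact h.nl
  nc := by
    rw [Finset.union_right_comm]
    exact h.nc
  sm := by
    rw [Finset.union_right_comm, add_comm]
    exact h.sm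
  lp := by
    rw [Finset.union_comm]
    exact h.lp

theorem FXY_half {α : Type} [DecidableEq α] {r : Finset α → ℕ} {F X Y : Finset α} (hR : Rk r)
    (h : Fb r F X Y) : NL (ct r F) X ∧ NC (ct r F) X ∧ 2 ≤ X.card := by
  have hnl : NL (ct r F) X := by
    intro x hx
    have h1 := hR.ct_add F {x}
    rw [← Finset.insert_eq] at h1
    have h2 := h.lp x (Finset.mem_union_left _ hx)
    have h3 := hR.up F x
    omega
  have hnc : NC (ct r F) X := by
    intro x hx
    have h1 := hR.ct_add F (X.erase x)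
    have h2 := hR.ct_add F X
    have h3 := hR.mono (X.erase x ∪ F) (X ∪ F)
      (Finset.union_subset_union_left (Finset.erase_subset x X))
    have h4 := hR.sub (X.erase x ∪ F) (Y ∪ F)
    have h5 : r F ≤ r ((X.erase x ∪ F) ∩ (Y ∪ F)) := by
      refine hR.mono _ _ fun y hy => ?_
      rw [Finset.mem_inter]
      exact ⟨Finset.mem_union_right _ hy, Finset.mem_union_right _ hy⟩
    have h6 : r ((F ∪ X ∪ Y).erase x) ≤ r (X.erase x ∪ F ∪ (Y ∪ F)) := by
      refine hR.mono _ _ fun y hy => ?_
      simp only [Finset.mem_erase, Finset.mem_union] at hy ⊢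
      tauto
    have h7 := h.nc x (by
      simp only [Finset.mem_union]
      exact Or.inl (Or.inr hx))
    have h8 := h.sm
    omega
  refine ⟨hnl, hnc, ?_⟩
  obtain ⟨x, hx⟩ := h.nx
  by_contra hcon
  have h1 : X.card = 1 := by
    have h2 : 0 < X.card := Finset.card_pos.2 ⟨x, hx⟩
    omega
  obtain ⟨z, hz⟩ := Finset.card_eq_one.1 h1
  have h3 := hnc z (by rw [hz]; exact Finset.mem_singleton_self z)
  have h4 := hnl z (by rw [hz]; exact Finset.mem_singleton_self z)
  rw [hz, Finset.erase_singleton, (hR.ctr F).r0] at h3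
  omega

theorem thm_FXY (hBSP : St_BSP) (hBNC : St_BNC) : St_FXY := by
  intro α _ r F X Y hR h
  obtain ⟨x1, x2, x3⟩ := FXY_half hR h
  obtain ⟨y1, y2, y3⟩ := FXY_half hR (FXY_swap h)
  have hX := hBNC α (ct r F) X (hR.ctr F) x1 x2
  have hY := hBNC α (ct r F) Y (hR.ctr F) y1 y2
  refine ⟨hX, hY, ?_, x3, y3⟩
  rw [hBSP α (ct r F) X Y (hR.ctr F) h.xy ?_]
  · exact Nat.mul_le_mul hX hY
  · have h1 := hR.ct_add F X
    have h2 := hR.ct_add F Y
    have h3 := hR.ct_add F (X ∪ Y)
    have h4 : X ∪ Y ∪ F = F ∪ X ∪ Y := by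
      rw [Finset.union_comm, Finset.union_assoc]
    rw [h4] at h3
    have h5 := h.sm
    omega

end ALS
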