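import Pool.Agent.ALS.StG

/-! # ALS, [GBI]: at most three parallel classes in rank two (graphs)

Proof over the field with two elements: `e p` is the indicator function of the class of `p`; if the
ends of `z` are joined in `σ ⊔ pr x1 x2 ⊔ pr y1 y2` then `e z1 + e z2` is in the span of
`e x1 + e x2` and `e y1 + e y2`. -/

set_option autoImplicit false

namespace ALS

open Pool.ALT

section

variable {V : Type}

open Classical in
/-- indicator function of the class of `p` -/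
noncomputable def GBI_e (σ : Setoid V) (p : V) : V → ZMod 2 := fun q => if σ p q then 1 else 0

theorem GBI_eq (σ : Setoid V) {p q : V} (h : σ p q) : GBI_e σ p = GBI_e σ q := by
  funext r
  have h1 : σ p r ↔ σ q r := ⟨fun h' => σ.trans' (σ.symm' h) h', fun h' => σ.trans' h h'⟩
  unfold GBI_e
  by_cases h2 : σ q r
  · rw [if_pos (h1.2 h2), if_pos h2]
  · rw [if_neg (fun h3 => h2 (h1.1 h3)), if_neg h2]

theorem GBI_two : (2 : V → ZMod 2) = 0 := by
  funext r
  show (2 : ZMod 2) = 0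
  decide

theorem GBI_s1 (σ : Setoid V) (x1 x2 p q : V) (h : (σ ⊔ pr x1 x2) p q) :
    GBI_e σ p + GBI_e σ q = 0 ∨ GBI_e σ p + GBI_e σ q = GBI_e σ x1 + GBI_e σ x2 := by
  rw [sup_pr_iff] at h
  rcases h with h | ⟨h, h'⟩ | ⟨h, h'⟩
  · left
    rw [GBI_eq σ h]
    linear_combination GBI_e σ q * GBI_two (V := V)
  · right
    rw [GBI_eq σ h, ← GBI_eq σ h']
  · right
    rw [GBI_eq σ h, ← GBI_eq σ h']
    ring

theorem GBI_s2 (σ : Setoid V) (x1 x2 y1 y2 p q : V) (h : (σ ⊔ pr x1 x2 ⊔ pr y1 y2) p q) :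
    GBI_e σ p + GBI_e σ q = 0 ∨ GBI_e σ p + GBI_e σ q = GBI_e σ x1 + GBI_e σ x2 ∨
    GBI_e σ p + GBI_e σ q = GBI_e σ y1 + GBI_e σ y2 ∨
    GBI_e σ p + GBI_e σ q = GBI_e σ x1 + GBI_e σ x2 + (GBI_e σ y1 + GBI_e σ y2) := by
  have t := GBI_two (V := V)
  rcases (sup_pr_iff (σ ⊔ pr x1 x2) y1 y2 p q).1 h with h | ⟨h, h'⟩ | ⟨h, h'⟩
  · rcases GBI_s1 σ x1 x2 p q h with h1 | h1
    · exact Or.inl h1
    · exact Or.inr (Or.inl h1)
  · rcases GBI_s1 σ x1 x2 p y1 h with h1 | h1 <;> rcases GBI_s1 σ x1 x2 y2 q h' with h2 | h2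
    · right; right; left
      linear_combination h1 + h2 - (GBI_e σ y1 + GBI_e σ y2) * t
    · right; right; right
      linear_combination h1 + h2 - (GBI_e σ y1 + GBI_e σ y2) * t
    · right; right; right
      linear_combination h1 + h2 - (GBI_e σ y1 + GBI_e σ y2) * t
    · right; right; left
      linear_combination h1 + h2 + (GBI_e σ x1 + GBI_e σ x2 - GBI_e σ y1 - GBI_e σ y2) * t
  · rcases GBI_s1 σ x1 x2 p y2 h with h1 | h1 <;> rcases GBI_s1 σ x1 x2 y1 q h' with h2 | h2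
    · right; right; left
      linear_combination h1 + h2 - (GBI_e σ y1 + GBI_e σ y2) * t
    · right; right; right
      linear_combination h1 + h2 - (GBI_e σ y1 + GBI_e σ y2) * t
    · right; right; right
      linear_combination h1 + h2 - (GBI_e σ y1 + GBI_e σ y2) * t
    · right; right; left
      linear_combination h1 + h2 + (GBI_e σ x1 + GBI_e σ x2 - GBI_e σ y1 - GBI_e σ y2) * t

/-- two equal nonzero vectors: the edges are parallel -/
theorem GBI_par (σ : Setoid V) (x1 x2 z1 z2 : V) (hz : ¬ σ z1 z2)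
    (h : GBI_e σ z1 + GBI_e σ z2 = GBI_e σ x1 + GBI_e σ x2) : (σ ⊔ pr x1 x2) z1 z2 := by
  classical
  have hz' : ¬ σ z2 z1 := fun h' => hz (σ.symm' h')
  have a1 : (1 : ZMod 2) = (if σ x1 z1 then 1 else 0) + (if σ x2 z1 then 1 else 0) := by
    have h1 := congrFun h z1
    unfold GBI_e at h1
    simp only [Pi.add_apply, if_pos (σ.refl' z1), if_neg hz', add_zero] at h1
    exact h1
  have a2 : (1 : ZMod 2) = (if σ x1 z2 then 1 else 0) + (if σ x2 z2 then 1 else 0) := by
    have h1 := congrFun h z2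
    unfold GBI_e at h1
    simp only [Pi.add_apply, if_pos (σ.refl' z2), if_neg hz, zero_add] at h1
    exact h1
  rw [sup_pr_iff]
  by_cases b1 : σ x1 z1
  · by_cases b2 : σ x2 z2
    · exact Or.inr (Or.inl ⟨σ.symm' b1, b2⟩)
    · rw [if_neg b2, add_zero] at a2
      by_cases b3 : σ x1 z2
      · exact absurd (σ.trans' (σ.symm' b1) b3) hz
      · rw [if_neg b3] at a2
        exact absurd a2 (by decide)
  · rw [if_neg b1, zero_add] at a1
    by_cases b2 : σ x2 z1
    · by_cases b3 : σ x1 z2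
      · exact Or.inr (Or.inr ⟨σ.symm' b2, b3⟩)
      · rw [if_neg b3, zero_add] at a2
        by_cases b4 : σ x2 z2
        · exact absurd (σ.trans' (σ.symm' b2) b4) hz
        · rw [if_neg b4] at a2
          exact absurd a2 (by decide)
    · rw [if_neg b2] at a1
      exact absurd a1 (by decide)

theorem GBI_ne (σ : Setoid V) (z1 z2 : V) (hz : ¬ σ z1 z2) : GBI_e σ z1 + GBI_e σ z2 ≠ 0 := by
  classical
  intro h
  have hz' : ¬ σ z2 z1 := fun h' => hz (σ.symm' h')
  have h1 := congrFun h z1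
  unfold GBI_e at h1
  simp only [Pi.add_apply, if_pos (σ.refl' z1), if_neg hz', add_zero, Pi.zero_apply] at h1
  exact absurd h1 (by decide)

/-- the third edge of the triangle -/
theorem GBI_third (σ : Setoid V) (x1 x2 y1 y2 z1 z2 : V) (hz : ¬ σ z1 z2)
    (h : (σ ⊔ pr x1 x2 ⊔ pr y1 y2) z1 z2) (hx : ¬ (σ ⊔ pr x1 x2) z1 z2)
    (hy : ¬ (σ ⊔ pr y1 y2) z1 z2) :
    GBI_e σ z1 + GBI_e σ z2 = GBI_e σ x1 + GBI_e σ x2 + (GBI_e σ y1 + GBI_e σ y2) := by
  rcases GBI_s2 σ x1 x2 y1 y2 z1 z2 h with h1 | h1 | h1 | h1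
  · exact absurd h1 (GBI_ne σ z1 z2 hz)
  · exact absurd (GBI_par σ x1 x2 z1 z2 hz h1) hx
  · exact absurd (GBI_par σ y1 y2 z1 z2 hz h1) hy
  · exact h1

end

theorem thm_GBI (hGRK : St_GRK) : St_GBI := by
  intro V α _ _ g Q x y z w hx hy hz hw h4
  obtain ⟨hRk, hrg⟩ := hGRK V α g
  by_contra hno
  rw [not_or, not_or, not_or, not_or, not_or] at hno
  obtain ⟨n1, n2, n3, n4, n5, n6⟩ := hno
  -- no loops
  have nl : ∀ e, rg g Q < rg g (insert e Q) → ¬ g.sp ⊥ Q (g.u e) (g.v e) := by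
    intro e he hj
    rw [show rg g (insert e Q) = rg g Q by unfold rg; rw [g.sp_insert_of hj]] at he
    omega
  -- no parallel pairs
  have np : ∀ e f, ¬ rg g (insert e (insert f Q)) ≤ rg g Q + 1 →
      ¬ (g.sp ⊥ Q ⊔ pr (g.u f) (g.v f)) (g.u e) (g.v e) := by
    intro e f hef hj
    have hj' : g.sp ⊥ (insert f Q) (g.u e) (g.v e) := by
      rw [g.sp_insert]
      exact hj
    apply hef
    rw [show rg g (insert e (insert f Q)) = rg g (insert f Q) by
      unfold rg; rw [g.sp_insert_of hj']]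
    exact hRk.up Q f
  have lx := nl x hx
  have ly := nl y hy
  have lz := nl z hz
  have lw := nl w hw
  have swap : ∀ e f, ¬ rg g (insert e (insert f Q)) ≤ rg g Q + 1 →
      ¬ rg g (insert f (insert e Q)) ≤ rg g Q + 1 := by
    intro e f h
    rw [Finset.insert_comm]
    exact h
  -- the span of x and y contains z and w
  have hall : g.sp ⊥ (insert y (insert x Q)) =
      g.sp ⊥ (insert x (insert y (insert z (insert w Q)))) := by
    apply eq_of_le_of_nc
    · apply g.sp_mono le_rfl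
      intro e he
      simp only [Finset.mem_insert] at he ⊢
      tauto
    · have q1 := hrg (insert y (insert x Q))
      have q2 := hrg (insert x (insert y (insert z (insert w Q))))
      have q3 := swap x y n1
      omega
  have hsp : g.sp ⊥ (insert y (insert x Q)) =
      g.sp ⊥ Q ⊔ pr (g.u x) (g.v x) ⊔ pr (g.u y) (g.v y) := by
    rw [g.sp_insert, g.sp_insert]
    rfl
  have jz : (g.sp ⊥ Q ⊔ pr (g.u x) (g.v x) ⊔ pr (g.u y) (g.v y)) (g.u z) (g.v z) := by
    rw [← hsp, hall]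
    apply g.pe_le_sp ⊥ (e := z) _ (pr_rel _ _)
    simp
  have jw : (g.sp ⊥ Q ⊔ pr (g.u x) (g.v x) ⊔ pr (g.u y) (g.v y)) (g.u w) (g.v w) := by
    rw [← hsp, hall]
    apply g.pe_le_sp ⊥ (e := w) _ (pr_rel _ _)
    simp
  have vz := GBI_third (g.sp ⊥ Q) _ _ _ _ _ _ lz jz (np z x (swap x z n2)) (np z y (swap y z n4))
  have vw := GBI_third (g.sp ⊥ Q) _ _ _ _ _ _ lw jw (np w x (swap x w n3)) (np w y (swap y w n5))
  rw [← vw] at vz
  exact np z w n6 (GBI_par (g.sp ⊥ Q) _ _ _ _ lz vz)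

end ALS
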