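import Pool.Agent.ALS.StG

/-!
# ALS [GLF]: the rank function of a leaf
-/

set_option autoImplicit false

namespace ALS

open Pool.ALT

/-- [GLF] the rank function of a leaf -/
theorem thm_GLF (hGRK : St_GRK) (hGXT : St_GXT) : St_GLF := by
  intro V E _ _ _ g
  obtain ⟨hR, hRn⟩ := hGRK V E g
  obtain ⟨hR', hRn'⟩ := hGRK V (Option E) (ext g)
  -- subsets of the edges of `g`
  have h1 : ∀ A : Finset E, rg (ext g) (A.map Function.Embedding.some) = rg g A := by
    intro A
    unfold rg
    rw [(hGXT V E g A).1]
  have h2 : ∀ A : Finset E, rg (ext g) (insert none (A.map Function.Embedding.some)) +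
      nc (g.sp ⊥ A ⊔ g.ab) = Fintype.card V := by
    intro A
    have := hRn' (insert none (A.map Function.Embedding.some))
    rwa [(hGXT V E g A).2] at this
  have h3 : ∀ X : Finset (Option E), X ⊆ al' E → ∃ A : Finset E,
      X = A.map Function.Embedding.some := by
    intro X hX
    obtain ⟨A, -, hA⟩ := Finset.subset_map_iff.1 hX
    exact ⟨A, hA⟩
  have h4 : ∀ A : Finset E, al' E \ A.map Function.Embedding.some =
      (Finset.univ \ A).map Function.Embedding.some := by
    intro A
    unfold al'
    rw [Finset.map_sdiff]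
  have hal : rg (ext g) (al' E) = rg g Finset.univ := h1 Finset.univ
  refine ⟨fun hL => ?_, ?_⟩
  · have hu := hRn Finset.univ
    rw [hL.con] at hu
    have hins : rg (ext g) (insert none (al' E)) + nc (g.sp ⊥ Finset.univ ⊔ g.ab) =
      Fintype.card V := h2 Finset.univ
    have hne : Nonempty V := ⟨g.a⟩
    have hone : nc (g.sp ⊥ Finset.univ ⊔ g.ab) = 1 := by
      have e1 : nc (g.sp ⊥ Finset.univ ⊔ g.ab) ≤ nc (g.sp ⊥ Finset.univ) := nc_anti le_sup_left
      have e2 := nc_pos (g.sp ⊥ Finset.univ ⊔ g.ab)
      rw [hL.con] at e1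
      omega
    have hro : rg (ext g) {none} = 1 := by
      have e1 := h2 ∅
      rw [Finset.map_empty, insert_empty_eq, Gr.sp_empty] at e1
      have e2 : ¬ (⊥ : Setoid V) g.a g.b := fun h => hL.ab h
      have e3 := nc_sup_pr e2
      rw [nc_bot, Nat.card_eq_fintype_card] at e3
      have e4 : nc (⊥ ⊔ g.ab) + 1 = Fintype.card V := e3
      omega
    have hct : ∀ X : Finset (Option E), ct (rg (ext g)) {none} X + 1 =
        rg (ext g) (insert none X) := by
      intro X
      have := hR'.ct1 none X
      rwa [hro] at this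
    have hcard : (al' E).card = Fintype.card E := by
      unfold al'
      rw [Finset.card_map, Finset.card_univ]
    have hnon : (al' E).Nonempty := by
      rw [← Finset.card_pos, hcard]
      have := hL.two
      omega
    have hprop : ∀ A : Finset E, (A.map Function.Embedding.some).Nonempty →
        A.map Function.Embedding.some ≠ al' E → A.Nonempty ∧ A ≠ Finset.univ := by
      intro A hA hA'
      refine ⟨Finset.map_nonempty.1 hA, fun h => hA' ?_⟩
      rw [h]
      rfl
    refine ⟨?_, ?_, hro, ?_, ⟨hnon, ?_⟩, ⟨hnon, ?_⟩⟩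
    · unfold al'
      simp
    · rw [hcard]
      exact hL.two
    · rw [hal]
      omega
    · intro X hX hX1 hX2
      obtain ⟨A, rfl⟩ := h3 X hX
      obtain ⟨hA1, hA2⟩ := hprop A hX1 hX2
      rw [h4, h1, h1, hal]
      have e1 := hRn A
      have e2 := hRn (Finset.univ \ A)
      have e3 := hL.c1 A hA1 hA2
      omega
    · intro X hX hX1 hX2
      obtain ⟨A, rfl⟩ := h3 X hX
      obtain ⟨hA1, hA2⟩ := hprop A hX1 hX2
      rw [h4]
      have e1 := h2 A
      have e2 := h2 (Finset.univ \ A)
      have e3 := hL.c2 A hA1 hA2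
      have e4 := hct (A.map Function.Embedding.some)
      have e5 := hct ((Finset.univ \ A).map Function.Embedding.some)
      have e6 := hct (al' E)
      omega
  · unfold bs
    symm
    refine Finset.card_bij (fun A _ => A.map Function.Embedding.some) ?_ ?_ ?_
    · intro A hA
      obtain ⟨-, hA2⟩ := Finset.mem_filter.1 hA
      refine Finset.mem_filter.2 ⟨Finset.mem_powerset.2 ?_, ?_⟩
      · unfold al'
        exact Finset.map_subset_map.2 (Finset.subset_univ A)
      · rw [Finset.card_map, h1, hal]
        exact hA2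
    · intro A _ B _ hAB
      exact Finset.map_injective _ hAB
    · intro X hX
      obtain ⟨hX1, hX2⟩ := Finset.mem_filter.1 hX
      obtain ⟨A, rfl⟩ := h3 X (Finset.mem_powerset.1 hX1)
      refine ⟨A, Finset.mem_filter.2 ⟨Finset.mem_powerset.2 (Finset.subset_univ A), ?_⟩, rfl⟩
      rw [Finset.card_map, h1, hal] at hX2
      exact hX2

end ALS
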