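import Pool.Agent.ALS.StG

/-!
# ALS: [GNC] no loops, no coloops
-/

set_option autoImplicit false

namespace ALS

open Pool.ALT

theorem thm_GNC (hGRK : St_GRK) (hCNC : St_CNC) : St_GNC := by
  intro V E _ _ _ g hL
  obtain ⟨hR, hK⟩ := hGRK V E g
  refine hCNC E (rg g) Finset.univ hR ⟨?_, ?_⟩ ?_
  · rw [← Finset.card_pos, Finset.card_univ]
    have := hL.two
    omega
  · intro X _ hX hne
    have h1 := hL.c1 X hX hne
    have h2 := hK X
    have h3 := hK (Finset.univ \ X)
    have h4 := hK Finset.univ
    rw [hL.con] at h4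
    omega
  · rw [Finset.card_univ]
    exact hL.two

end ALS
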