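import Pool.Agent.ALS.StG

/-!
# ALS: [GPB] spanning trees are bases
-/

set_option autoImplicit false

namespace ALS

open Pool.ALT

theorem thm_GPB (hG : St_GRK) : St_GPB := by
  intro V E _ _ _ g h1
  obtain ⟨-, hr⟩ := hG V E g
  have hne : Nonempty V := ⟨g.a⟩
  have hK : g.K ⊥ Finset.univ = 1 := by
    have h2 : nc (g.sp ⊥ Finset.univ ⊔ g.ab) ≤ nc (g.sp ⊥ Finset.univ) := nc_anti le_sup_left
    have h3 : 0 < nc (g.sp ⊥ Finset.univ ⊔ g.ab) := nc_pos _
    unfold Gr.K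
    omega
  have hb : nc (⊥ : Setoid V) = Fintype.card V := by
    rw [nc_bot, Nat.card_eq_fintype_card]
  have hu := hr Finset.univ
  unfold Gr.p bs
  congr 1
  ext A
  simp only [Finset.mem_filter]
  have hA := hr A
  have hp : 0 < nc (g.sp ⊥ A) := nc_pos _
  rw [hK, hb]
  constructor
  · rintro ⟨h2, h3, h4⟩
    refine ⟨h2, ?_, ?_⟩ <;> omega
  · rintro ⟨h2, h3, h4⟩
    refine ⟨h2, ?_, ?_⟩ <;> omega

end ALS
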