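import Pool.Agent.ALS.StG
import Pool.Agent.ALT.Glue.LL

/-!
# ALS: frozen statements, connection with the glue (`Lg`, `St_FN`, `St_PQ`)
-/

set_option autoImplicit false

namespace ALS

open Pool.ALT

/-- [SIX] (0.8 h) leaves with five elements. Hypotheses: `St_CNC`, `St_RK3`, `St_NU2`.
Proof. `ρ = r S = 3` ([RK3], [NU2]), so `r' = r/o` has rank `2` on `S` and no loops ([CNC]); the bases for `r'` are the pairs
`{x, y}`, `x ≠ y`, with `r' {x, y} = 2`; there are `10` pairs, and we show that at least two pairs `{x, y}` have `r' {x, y} ≤ 1`. By `Bin r'` (`Q = ∅`; `Bin.ctr`)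
among any four elements there is such a pair. So there is a pair `{x, y} ⊆ S`, and another one in the four elements of `S.erase x`. (Count: the
bases are contained in `(S.powersetCard 2)` minus two elements.) -/
def St_SIX : Prop := ∀ (α : Type) [DecidableEq α] (r : Finset α → ℕ) (o : α) (S : Finset α),
  Rk r → Bin r → Lf r o S → S.card = 5 → bs (ct r {o}) S ≤ 8

/-- [GQB] (0.8 h) spanning trees with the extra edge. Hypotheses: `St_GRK`, `St_GXT`.
Proof. `g.K ⊥ univ = 1`. Both sides count the `A : Finset E` with `A.card + 2 = card V` and `nc (g.sp ⊥ A ⊔ g.ab) = 1`: left: `nc (g.sp ⊥ A) = 2`,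
not `a ~ b`, `A.card + 2 = card V` (`nc_sup_pr`; conversely `nc (g.sp ⊥ A ⊔ g.ab) = 1` and `A.card + 2 = card V` give
`nc (g.sp ⊥ A) ≥ card V - A.card = 2` (`Gr.nc_le_add_card`), so `a`, `b` are not joined). Right: the bases of `al' E` for `(rg (ext g))/none` are
`A.map some` with `A.card = card V - 2` and `nc (g.sp ⊥ A ⊔ g.ab) = 1`: `(r/none) (A.map some) + 1 = card V - nc (g.sp ⊥ A ⊔ g.ab)` ([GXT], [Rk.ct1],
`r {none} = 1` as `a ≠ b`). -/
def St_GQB : Prop := ∀ (V E : Type) [Fintype V] [Fintype E] [DecidableEq E] (g : Gr V E),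
  g.a ≠ g.b → nc (g.sp ⊥ Finset.univ) = 1 →
  g.q ⊥ Finset.univ = bs (ct (rg (ext g)) {none}) (al' E)

/-- [SZN] (0.4 h) Hypotheses: `St_GRK`, `St_GBI`, `St_GLF`, `St_GQB`, `St_SZ1`, `St_RK3`, `St_NU2`, `St_SIX`.
Proof. [RK3] and [NU2] for `rg (ext g)`: `n ≥ 5`. If `n = 5`: `p ≥ 8` ([SZ1]) and `q ≤ 8` ([SIX], [GQB]), contradiction to `p < q`. -/
def St_SZN : Prop := ∀ (V E : Type) [Fintype V] [Fintype E] [DecidableEq E] (g : Gr V E),
  LfG g → g.p ⊥ Finset.univ < g.q ⊥ Finset.univ → 6 ≤ Fintype.card E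

/-- [NET] (0.5 h) the network of `Lg g h`. Hypotheses: `Pool.ALT.St_FN`, `Pool.ALT.St_PQ`.
Proof. `LfG g`: `Lg.du` (`ab`, `con`), `two`, `pr`, `pr'`. [FN] (classical decidability of `V`, `W`) with `Gr.Pm.dist`, `Gr.Pm.cut` (file
`Pool/Agent/ALT/Glue/Defs.lean`, `Lg.pm`), [PQ] (`K_univ` in `Glue/LL.lean`) as in the proof of `thm_LL` there. -/
def St_NET : Prop := ∀ (V W E : Type) [Fintype V] [Fintype W] [Fintype E] [DecidableEq E]
  (g : Gr V E) (h : Gr W E), Lg g h → LfG g ∧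
  (g.p ⊥ Finset.univ ≤ g.q ⊥ Finset.univ →
  ∃ (N : ALZ.Nt V E) (N' : ALZ.Nt W E) (ph : V → ℝ) (x : W → ℝ) (G : V → V → ℝ) (G' : W → W → ℝ),
    Sm g N ∧
    ALZ.Good V W E N N' ph x ((g.q ⊥ Finset.univ : ℝ) / g.p ⊥ Finset.univ) G G' ∧
    ((((jetOf (g.be ⊥ Finset.univ) (g.al ⊥ Finset.univ)).Om + 1) / 2 : ℚ) : ℝ) =
      (g.p ⊥ Finset.univ : ℝ) * g.q ⊥ Finset.univ *
      ALZ.zh N N' ph ((g.q ⊥ Finset.univ : ℝ) / g.p ⊥ Finset.univ) G G' + 1 / 2)

/-- [SZL] (0.4 h) the size fields. Hypotheses: `St_SZN`, `St_SZ1`, `St_SZF`, `St_NET`.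
Proof. `p > 0` by [SZ1] (`n ≥ 6`). The network of [NET], [SZF]. -/
def St_SZL : Prop := ∀ {V W E : Type} [Fintype V] [Fintype W] [Fintype E] [DecidableEq E]
  (g : Gr V E) (h : Gr W E), Lg g h → g.p ⊥ Finset.univ < g.q ⊥ Finset.univ →
  6 ≤ Fintype.card E ∧ 3 * Fintype.card E ≤ g.p ⊥ Finset.univ + 7 ∧
    4 * g.q ⊥ Finset.univ ≤ Fintype.card E * g.p ⊥ Finset.univ

/-- [Z3A] (0.5 h) the field z3. Hypotheses: `St_RK3`, `St_NU2`, `St_GRK`, `St_GBI`, `St_GLF`, `St_SZ1`, `St_SZF`, `St_NET`.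
Proof. `p > 0`: [RK3], [NU2] for `rg (ext g)` ([GLF]) give `n ≥ 5`, [SZ1]. The network of [NET] (`p ≤ q`), [SZF] (third part); the inequality with `w~` in `ℝ`, then
cast to `ℚ` (as in `thm_LL`). -/
def St_Z3A : Prop := Pool.ALT.St_Z3

end ALS
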