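import Mathlib
import Pool.Agent.ALS.StH

/-! # ALS: [GQB] spanning trees with the extra edge are bases (helper25) -/

set_option autoImplicit false

namespace ALS

open Pool.ALT

theorem GQB_iff {V E : Type} [Fintype V] [DecidableEq E] (g : Gr V E) (A : Finset E) :
    (nc (g.sp ⊥ A) = 1 + 1 ∧ ¬ g.sp ⊥ A g.a g.b ∧ A.card + nc (g.sp ⊥ A) = nc (⊥ : Setoid V)) ↔
      (A.card + 2 = Fintype.card V ∧ nc (g.sp ⊥ A ⊔ g.ab) = 1) := by
  have hb : nc (⊥ : Setoid V) = Fintype.card V := by rw [nc_bot, Nat.card_eq_fintype_card]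
  have h0 := Gr.nc_le_add_card g ⊥ A
  rw [hb] at h0 ⊢
  by_cases h : g.sp ⊥ A g.a g.b
  · have h1 : g.sp ⊥ A ⊔ g.ab = g.sp ⊥ A := sup_pr_of _ h
    rw [h1]
    constructor
    · rintro ⟨-, h2, -⟩
      exact absurd h h2
    · rintro ⟨h2, h3⟩
      omega
  · have h1 : nc (g.sp ⊥ A ⊔ g.ab) + 1 = nc (g.sp ⊥ A) := nc_sup_pr h
    constructor
    · rintro ⟨h2, -, h3⟩
      omega
    · rintro ⟨h2, h3⟩
      exact ⟨by omega, h, by omega⟩

/-- [GQB] -/
theorem thm_GQB (hGRK : St_GRK) (hGXT : St_GXT) : St_GQB := by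
  intro V E _ _ _ g hab hc
  classical
  obtain ⟨hR, hR2⟩ := hGRK V (Option E) (ext g)
  have hb : nc (⊥ : Setoid V) = Fintype.card V := by rw [nc_bot, Nat.card_eq_fintype_card]
  have hV : Nonempty V := ⟨g.a⟩
  have hK : g.K ⊥ Finset.univ = 1 := by
    have h1 : g.K ⊥ Finset.univ ≤ nc (g.sp ⊥ Finset.univ) := nc_anti le_sup_left
    have h2 : 0 < g.K ⊥ Finset.univ := nc_pos _
    omega
  -- ranks
  have r1 : rg (ext g) {none} = 1 := by
    have h1 := hR2 {none}
    have h2 : ({none} : Finset (Option E)) = insert none ((∅ : Finset E).map Function.Embedding.some) := by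
      simp
    have h3 : (ext g).sp ⊥ {none} = ⊥ ⊔ g.ab := by
      rw [h2, (hGXT V E g ∅).2, g.sp_empty]
    have h4 : nc (⊥ ⊔ g.ab : Setoid V) + 1 = nc (⊥ : Setoid V) := nc_sup_pr hab
    rw [h3] at h1
    omega
  have r2 : ∀ A : Finset E, ct (rg (ext g)) {none} (A.map Function.Embedding.some) + 1 +
      nc (g.sp ⊥ A ⊔ g.ab) = Fintype.card V := by
    intro A
    have h1 := hR.ct1 none (A.map Function.Embedding.some)
    have h2 := hR2 (insert none (A.map Function.Embedding.some))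
    rw [(hGXT V E g A).2] at h2
    omega
  have r3 : nc (g.sp ⊥ Finset.univ ⊔ g.ab) = 1 := hK
  have r4 := r2 Finset.univ
  rw [r3] at r4
  unfold Gr.q bs
  rw [hK]
  refine Finset.card_bij (fun A _ => A.map Function.Embedding.some) ?_ ?_ ?_
  · intro A hA
    rw [Finset.mem_filter] at hA
    obtain ⟨h1, h2⟩ := (GQB_iff g A).1 hA.2
    have h3 := r2 A
    rw [h2] at h3
    rw [Finset.mem_filter, Finset.mem_powerset]
    refine ⟨Finset.map_subset_map.2 (Finset.subset_univ A), ?_, ?_⟩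
    · rw [Finset.card_map]
      unfold al'
      omega
    · unfold al'
      omega
  · intro A _ B _ h
    exact Finset.map_injective _ h
  · intro B hB
    rw [Finset.mem_filter, Finset.mem_powerset] at hB
    obtain ⟨h1, h2, h3⟩ := hB
    obtain ⟨A, -, rfl⟩ := Finset.subset_map_iff.1 h1
    refine ⟨A, ?_, rfl⟩
    rw [Finset.mem_filter, Finset.mem_powerset]
    refine ⟨Finset.subset_univ A, (GQB_iff g A).2 ?_⟩
    rw [Finset.card_map] at h2
    unfold al' at h2 h3
    have h4 := r2 A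
    have h5 : 0 < nc (g.sp ⊥ A ⊔ g.ab) := nc_pos _
    constructor <;> omega

end ALS
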