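import Pool.Agent.ALS.StG

/-!
# ALS, module GRK: the rank function of a graph
-/

set_option autoImplicit false

namespace ALS

open Pool.ALT

theorem GRK_add {V α : Type} [Fintype V] (g : Gr V α) (A : Finset α) :
    rg g A + nc (g.sp ⊥ A) = Fintype.card V := by
  have h1 := g.nc_sp_le ⊥ A
  rw [nc_bot, Nat.card_eq_fintype_card] at h1
  unfold rg
  omega

theorem GRK_dim {V α : Type} [Fintype V] [DecidableEq α] (g : Gr V α) (A B : Finset α) (x : α)
    (hAB : A ⊆ B) : rg g (insert x B) + rg g A ≤ rg g B + rg g (insert x A) := by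
  have h1 := GRK_add g A
  have h2 := GRK_add g B
  have h3 := GRK_add g (insert x A)
  have h4 := GRK_add g (insert x B)
  by_cases hA : g.sp ⊥ A (g.u x) (g.v x)
  · have hB : g.sp ⊥ B (g.u x) (g.v x) := g.sp_mono le_rfl hAB hA
    rw [g.sp_insert_of hA] at h3
    rw [g.sp_insert_of hB] at h4
    omega
  · have h5 := g.nc_sp_insert hA
    by_cases hB : g.sp ⊥ B (g.u x) (g.v x)
    · rw [g.sp_insert_of hB] at h4
      omega
    · have h6 := g.nc_sp_insert hB
      omega

theorem GRK_step {V α : Type} [Fintype V] [DecidableEq α] (g : Gr V α) (I B : Finset α)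
    (hI : I ⊆ B) (D : Finset α) : rg g (B ∪ D) + rg g I ≤ rg g B + rg g (I ∪ D) := by
  induction D using Finset.induction_on with
  | empty =>
    rw [Finset.union_empty, Finset.union_empty]
  | insert x D _ ih =>
    have h1 := GRK_dim g (I ∪ D) (B ∪ D) x (Finset.union_subset_union_left hI)
    rw [Finset.union_insert, Finset.union_insert]
    omega

theorem thm_GRK : St_GRK := by
  intro V α _ _ g
  refine ⟨⟨?_, ?_, ?_, ?_⟩, GRK_add g⟩
  · unfold rg
    rw [g.sp_empty, nc_bot, Nat.card_eq_fintype_card, Nat.sub_self]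
  · intro A x
    have h1 := GRK_add g A
    have h2 := GRK_add g (insert x A)
    have h3 := nc_sup_pr_le (g.sp ⊥ A) (g.u x) (g.v x)
    rw [g.sp_insert] at h2
    have h4 : g.pe x = pr (g.u x) (g.v x) := rfl
    rw [h4] at h2
    unfold rg at h1 h2 ⊢
    rw [g.sp_insert, h4]
    omega
  · intro A B hAB
    have h1 := nc_anti (g.sp_mono (le_refl (⊥ : Setoid V)) hAB)
    unfold rg
    omega
  · intro A B
    have h1 := GRK_step g (A ∩ B) B Finset.inter_subset_right (A \ B)
    have h2 : B ∪ A \ B = A ∪ B := by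
      rw [Finset.union_sdiff_self_eq_union, Finset.union_comm]
    have h3 : A ∩ B ∪ A \ B = A := by
      rw [Finset.union_comm, Finset.sdiff_union_inter]
    rw [h2, h3] at h1
    omega

end ALS
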