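import Pool.Agent.ALS.StG

/-!
# ALS: a separating class of vertices ([GS3])
-/

set_option autoImplicit false

namespace ALS

open Pool.ALT

/-- the partition with the one class `{lv = 0}` and singletons otherwise -/
def GS3_zero {V : Type} (lv : V → ℤ) : Setoid V where
  r x y := x = y ∨ (lv x = 0 ∧ lv y = 0)
  iseqv := by
    constructor
    · intro x
      exact Or.inl rfl
    · rintro x y (h | ⟨h1, h2⟩)
      · exact Or.inl h.symm
      · exact Or.inr ⟨h2, h1⟩
    · rintro x y z (h | ⟨h1, h2⟩) (h' | ⟨h1', h2'⟩)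
      · exact Or.inl (h.trans h')
      · exact Or.inr ⟨h ▸ h1', h2'⟩
      · exact Or.inr ⟨h1, h' ▸ h2⟩
      · exact Or.inr ⟨h1, h2'⟩

theorem GS3_not {V E : Type} (g : Gr V E) (lv : V → ℤ) (F : Finset E) (e : E)
    (hF : ∀ e ∈ F, lv (g.u e) = 0 ∧ lv (g.v e) = 0) (hne : g.u e ≠ g.v e)
    (h : lv (g.u e) ≠ 0 ∨ lv (g.v e) ≠ 0) : ¬ g.sp ⊥ F (g.u e) (g.v e) := by
  intro hs
  have hle : g.sp ⊥ F ≤ GS3_zero lv := by
    refine Gr.sp_le g bot_le ?_
    intro f hf
    exact Or.inr (hF f hf)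
  have h2 : (GS3_zero lv) (g.u e) (g.v e) := hle hs
  rcases h2 with h2 | ⟨h2, h3⟩
  · exact hne h2
  · rcases h with h | h
    · exact h h2
    · exact h h3

theorem GS3_claim {V E : Type} [DecidableEq E] (g : Gr V E) (lv : V → ℤ) (w0 : V)
    (F X Y A : Finset E)
    (hF : ∀ e ∈ F, lv (g.u e) = 0 ∧ lv (g.v e) = 0)
    (hX : ∀ e ∈ X, lv (g.u e) ≤ 0 ∧ lv (g.v e) ≤ 0 ∧ (lv (g.u e) < 0 ∨ lv (g.v e) < 0))
    (hY : ∀ e ∈ Y, 0 ≤ lv (g.u e) ∧ 0 ≤ lv (g.v e) ∧ (0 < lv (g.u e) ∨ 0 < lv (g.v e)))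
    (hw : ∀ x, lv x = 0 → g.sp ⊥ F w0 x) (hA : A ⊆ X) (x y : V) (hx : lv x ≤ 0) (hy : lv y ≤ 0)
    (h : g.sp ⊥ (A ∪ (Y ∪ F)) x y) : g.sp ⊥ (A ∪ F) x y := by
  classical
  have hmono : g.sp ⊥ F ≤ g.sp ⊥ (A ∪ F) := g.sp_mono le_rfl Finset.subset_union_right
  have hpi : ∀ z : V, 0 ≤ lv z → (g.sp ⊥ (A ∪ F)) w0 (if lv z ≤ 0 then z else w0) := by
    intro z hz
    by_cases h1 : lv z ≤ 0
    · rw [if_pos h1]
      exact hmono (hw z (le_antisymm h1 hz))
    · rw [if_neg h1]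
  have hle : g.sp ⊥ (A ∪ (Y ∪ F)) ≤
      Setoid.comap (fun z : V => if lv z ≤ 0 then z else w0) (g.sp ⊥ (A ∪ F)) := by
    refine Gr.sp_le g bot_le ?_
    intro e he
    change (g.sp ⊥ (A ∪ F)) (if lv (g.u e) ≤ 0 then g.u e else w0)
      (if lv (g.v e) ≤ 0 then g.v e else w0)
    have hin : e ∈ A ∪ F → (g.sp ⊥ (A ∪ F)) (g.u e) (g.v e) := fun he' =>
      (pr_le_iff _ _ _).1 (g.pe_le_sp ⊥ he')
    rcases Finset.mem_union.1 he with he | he
    · obtain ⟨h1, h2, _⟩ := hX e (hA he)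
      rw [if_pos h1, if_pos h2]
      exact hin (Finset.mem_union_left _ he)
    · rcases Finset.mem_union.1 he with he | he
      · obtain ⟨h1, h2, _⟩ := hY e he
        exact (g.sp ⊥ (A ∪ F)).trans' ((g.sp ⊥ (A ∪ F)).symm' (hpi _ h1)) (hpi _ h2)
      · obtain ⟨h1, h2⟩ := hF e he
        rw [if_pos h1.le, if_pos h2.le]
        exact hin (Finset.mem_union_right _ he)
  have h2 : (g.sp ⊥ (A ∪ F)) (if lv x ≤ 0 then x else w0) (if lv y ≤ 0 then y else w0) := hle h
  rw [if_pos hx, if_pos hy] at h2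
  exact h2

theorem thm_GS3 (hGRK : St_GRK) : St_GS3 := by
  intro V E _ _ _ g lv w0 F X Y hw0 hF hX hY hw hne
  obtain ⟨_, hrg⟩ := hGRK V E g
  constructor
  · -- the inequality for the numbers of classes
    have key : ∀ A : Finset E, A ⊆ X →
        nc (g.sp ⊥ (A ∪ (Y ∪ F))) + nc (g.sp ⊥ F) ≤ nc (g.sp ⊥ (A ∪ F)) + nc (g.sp ⊥ (Y ∪ F)) := by
      intro A
      induction A using Finset.induction_on with
      | empty =>
        intro _
        rw [Finset.empty_union, Finset.empty_union]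
        omega
      | insert e A he ih =>
        intro hA
        have hA' : A ⊆ X := (Finset.subset_insert e A).trans hA
        have heX : e ∈ X := hA (Finset.mem_insert_self e A)
        have h := ih hA'
        rw [Finset.insert_union, Finset.insert_union]
        by_cases hj : g.sp ⊥ (A ∪ F) (g.u e) (g.v e)
        · rw [g.sp_insert_of hj]
          have h1 : nc (g.sp ⊥ (insert e (A ∪ (Y ∪ F)))) ≤ nc (g.sp ⊥ (A ∪ (Y ∪ F))) :=
            nc_anti (g.sp_mono le_rfl (Finset.subset_insert _ _))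
          omega
        · have hj' : ¬ g.sp ⊥ (A ∪ (Y ∪ F)) (g.u e) (g.v e) := by
            intro h2
            obtain ⟨h3, h4, _⟩ := hX e heX
            exact hj (GS3_claim g lv w0 F X Y A hF hX hY hw hA' _ _ h3 h4 h2)
          have h1 := g.nc_sp_insert hj
          have h2 := g.nc_sp_insert hj'
          omega
    have h := key X subset_rfl
    have e1 : X ∪ (Y ∪ F) = F ∪ X ∪ Y := by
      ext e
      simp only [Finset.mem_union]
      tauto
    rw [e1] at h
    have h1 := hrg (X ∪ F)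
    have h2 := hrg (Y ∪ F)
    have h3 := hrg (F ∪ X ∪ Y)
    have h4 := hrg F
    omega
  · intro e he
    have hn : ¬ g.sp ⊥ F (g.u e) (g.v e) := by
      refine GS3_not g lv F e hF (hne e) ?_
      rcases Finset.mem_union.1 he with he | he
      · obtain ⟨_, _, h | h⟩ := hX e he
        · exact Or.inl h.ne
        · exact Or.inr h.ne
      · obtain ⟨_, _, h | h⟩ := hY e he
        · exact Or.inl h.ne'
        · exact Or.inr h.ne'
    have h1 := g.nc_sp_insert hn
    have h3 := hrg (insert e F)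
    have h4 := hrg F
    omega

end ALS
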