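import Pool.Agent.ALS.StG

/-!
# ALS: module GXT, the graph with an extra edge
-/

set_option autoImplicit false

namespace ALS

open Pool.ALT

theorem thm_GXT : St_GXT := by
  intro V E _ _ _ g A
  have h1 : (ext g).sp ⊥ (A.map Function.Embedding.some) = g.sp ⊥ A := by
    unfold Gr.sp
    rw [Finset.sup_map]
    rfl
  refine ⟨h1, ?_⟩
  rw [Gr.sp_insert, h1]
  rfl

end ALS
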