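import Pool.Agent.ALS.StG

/-!
# ALS, module LVC (helper34): number of edges from the flow identity
-/

set_option autoImplicit false

namespace ALS

open Pool.ALT

theorem LVC_cl {lo γ y y' : ℝ} (h : y ≤ y') :
    0 ≤ ALZ.cl lo γ y' - ALZ.cl lo γ y ∧ ALZ.cl lo γ y' - ALZ.cl lo γ y ≤ y' - y := by
  unfold ALZ.cl
  constructor
  · exact sub_nonneg.2 (max_le_max le_rfl (min_le_min le_rfl (by linarith)))
  · have h1 := abs_max_sub_max_le_max 0 (min γ (y' - lo)) 0 (min γ (y - lo))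
    have h2 := abs_min_sub_min_le_max γ (y' - lo) γ (y - lo)
    rw [sub_self, abs_zero] at h1 h2
    have h3 : |y' - lo - (y - lo)| = y' - y := by
      rw [abs_of_nonneg (by linarith)]
      ring
    rw [h3, max_eq_right (by linarith)] at h2
    have h4 := h1.trans (max_le (by linarith) h2)
    exact (le_abs_self _).trans h4

theorem thm_LVC (hLVT : St_LVT) : St_LVC := by
  intro V E _ N ph R lo γ G X h hlt hlo hγ hR hX
  have h1 := hLVT V E N ph R lo γ G h hlt hlo hγ hR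
  have h2 := h.fl (fun x => ALZ.cl lo γ (ph x))
  have ha : ALZ.cl lo γ (ph N.a) = 0 := by
    unfold ALZ.cl
    rw [h.a0]
    exact max_eq_left ((min_le_right _ _).trans (by linarith))
  have hb : ALZ.cl lo γ (ph N.b) = γ := by
    unfold ALZ.cl
    rw [h.bR, min_eq_left (by linarith), max_eq_right hγ]
  rw [ha, hb, sub_zero, one_mul] at h2
  have h2' : ∑ e, N.d ph e * (ALZ.cl lo γ (ph (N.t e)) - ALZ.cl lo γ (ph (N.s e))) = γ := h2
  have hl : ∀ e, 0 ≤ ALZ.cl lo γ (ph (N.t e)) - ALZ.cl lo γ (ph (N.s e)) ∧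
      ALZ.cl lo γ (ph (N.t e)) - ALZ.cl lo γ (ph (N.s e)) ≤ N.d ph e := fun e => by
    have h3 := h.up e
    unfold ALZ.Nt.d at h3 ⊢
    exact LVC_cl (by linarith)
  have hsum : ∑ e, (ALZ.cl lo γ (ph (N.t e)) - ALZ.cl lo γ (ph (N.s e))) *
      (4 - 4 * N.d ph e) =
      4 * (∑ e, (ALZ.cl lo γ (ph (N.t e)) - ALZ.cl lo γ (ph (N.s e)))) -
        4 * ∑ e, N.d ph e * (ALZ.cl lo γ (ph (N.t e)) - ALZ.cl lo γ (ph (N.s e))) := by
    rw [Finset.mul_sum, Finset.mul_sum, ← Finset.sum_sub_distrib]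
    refine Finset.sum_congr rfl fun e _ => ?_
    ring
  have hle : ∑ e, (ALZ.cl lo γ (ph (N.t e)) - ALZ.cl lo γ (ph (N.s e))) *
      (4 - 4 * N.d ph e) ≤ X.card := by
    rw [← Finset.sum_subset (Finset.subset_univ X) (fun e _ he => by
      have h3 : ALZ.cl lo γ (ph (N.t e)) - ALZ.cl lo γ (ph (N.s e)) = 0 := by
        refine le_antisymm ?_ (hl e).1
        have h4 := not_lt.1 fun h5 => he (hX e h5)
        linarith
      rw [h3, zero_mul])]
    have h3 : ((X.card : ℕ) : ℝ) = ∑ e ∈ X, (1 : ℝ) := by simp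
    rw [h3]
    refine Finset.sum_le_sum fun e _ => ?_
    have h4 := hl e
    have h5 := hlt e
    have h6 := h.up e
    nlinarith [sq_nonneg (2 * N.d ph e - 1)]
  linarith

end ALS
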