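import Pool.Agent.ALS.StG

/-!
# ALS: [LVT] every level is crossed at least twice
-/

set_option autoImplicit false

namespace ALS

open MeasureTheory

/-- the integral of the indicator of `τ < y` over `(lo, lo + γ)` -/
theorem LVT_int (lo γ y : ℝ) :
    (∫ τ in Set.Ioo lo (lo + γ), (if τ < y then (1 : ℝ) else 0)) = ALZ.cl lo γ y := by
  have h1 : (fun τ : ℝ => (if τ < y then (1 : ℝ) else 0)) =
      Set.indicator (Set.Iio y) (fun _ => (1 : ℝ)) := by
    funext τ
    by_cases h : τ < y
    · rw [if_pos h, Set.indicator_of_mem (Set.mem_Iio.2 h)]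
    · rw [if_neg h, Set.indicator_of_notMem (fun h' => h (Set.mem_Iio.1 h'))]
  rw [h1, setIntegral_indicator measurableSet_Iio, setIntegral_const, Set.Ioo_inter_Iio,
    Real.volume_real_Ioo, smul_eq_mul, mul_one]
  unfold ALZ.cl
  rw [max_comm]
  congr 1
  rcases le_total (lo + γ) y with h | h
  · rw [min_eq_left h, min_eq_left (by linarith)]
    ring
  · rw [min_eq_right h, min_eq_right (by linarith)]

/-- the indicator of `τ < y` is integrable over `(lo, lo + γ)` -/
theorem LVT_integrable (lo γ y : ℝ) :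
    IntegrableOn (fun τ : ℝ => (if τ < y then (1 : ℝ) else 0)) (Set.Ioo lo (lo + γ)) := by
  have h1 : (fun τ : ℝ => (if τ < y then (1 : ℝ) else 0)) =
      Set.indicator (Set.Iio y) (fun _ => (1 : ℝ)) := by
    funext τ
    by_cases h : τ < y
    · rw [if_pos h, Set.indicator_of_mem (Set.mem_Iio.2 h)]
    · rw [if_neg h, Set.indicator_of_notMem (fun h' => h (Set.mem_Iio.1 h'))]
  rw [h1]
  apply IntegrableOn.indicator _ measurableSet_Iio
  exact integrableOn_const (by rw [Real.volume_Ioo]; exact ENNReal.ofReal_ne_top)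

/-- every level is crossed at least twice -/
theorem LVT_two {V E : Type} [Fintype E] (N : ALZ.Nt V E) (ph : V → ℝ) (R : ℝ)
    (G : V → V → ℝ) (hok : N.Ok ph R 1 G) (hlt : ∀ e, N.d ph e < 1) (τ : ℝ) (h0 : 0 ≤ τ)
    (hR : τ < R) :
    (2 : ℝ) ≤ ∑ e, ((if τ < ph (N.t e) then (1 : ℝ) else 0) -
      (if τ < ph (N.s e) then (1 : ℝ) else 0)) := by
  classical
  have hfl := hok.fl (fun x => if τ < ph x then (1 : ℝ) else 0)
  have hb : (if τ < ph N.b then (1 : ℝ) else 0) = 1 := by
    rw [hok.bR, if_pos hR]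
  have ha : (if τ < ph N.a then (1 : ℝ) else 0) = 0 := by
    rw [hok.a0, if_neg (not_lt.2 h0)]
  simp only [hb, ha] at hfl
  have hd : ∀ e, N.d (fun x => if τ < ph x then (1 : ℝ) else 0) e =
      (if τ < ph (N.t e) ∧ ph (N.s e) ≤ τ then (1 : ℝ) else 0) := by
    intro e
    have hup := hok.up e
    unfold ALZ.Nt.d at hup ⊢
    by_cases h1 : τ < ph (N.t e) <;> by_cases h2 : τ < ph (N.s e)
    · simp only [h1, h2, if_true, true_and, if_neg (not_le.2 h2)]; norm_num
    · simp only [h1, h2, if_true, if_false, true_and, if_pos (not_lt.1 h2)]; norm_num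
    · exact absurd (lt_of_lt_of_le h2 (by linarith)) h1
    · simp only [h1, h2, if_false, false_and]; norm_num
  have hd' : ∀ e, ((if τ < ph (N.t e) then (1 : ℝ) else 0) -
      (if τ < ph (N.s e) then (1 : ℝ) else 0)) =
      (if τ < ph (N.t e) ∧ ph (N.s e) ≤ τ then (1 : ℝ) else 0) := fun e => hd e
  rw [Finset.sum_congr rfl (fun e _ => hd' e)]
  rw [Finset.sum_congr rfl (fun e _ => by rw [hd e])] at hfl
  rw [Finset.sum_ite, Finset.sum_const_zero, add_zero, Finset.sum_const, nsmul_eq_mul, mul_one]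
  simp only [mul_ite, mul_one, mul_zero] at hfl
  rw [Finset.sum_ite, Finset.sum_const_zero, add_zero] at hfl
  generalize hS : Finset.univ.filter (fun e => τ < ph (N.t e) ∧ ph (N.s e) ≤ τ) = S at hfl ⊢
  have hc : 2 ≤ S.card := by
    by_contra hlt2
    have h3 : S.card = 0 ∨ S.card = 1 := by omega
    rcases h3 with h3 | h3
    · rw [Finset.card_eq_zero] at h3
      rw [h3, Finset.sum_empty] at hfl
      norm_num at hfl
    · rw [Finset.card_eq_one] at h3
      obtain ⟨e, he⟩ := h3
      rw [he, Finset.sum_singleton] at hfl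
      have := hlt e
      norm_num at hfl
      linarith
  exact_mod_cast hc

theorem thm_LVT : St_LVT := by
  intro V E _ N ph R lo γ G hok hlt hlo hγ hR
  have h1 : (∫ _τ in Set.Ioo lo (lo + γ), (2 : ℝ)) ≤
      ∫ τ in Set.Ioo lo (lo + γ), ∑ e, ((if τ < ph (N.t e) then (1 : ℝ) else 0) -
        (if τ < ph (N.s e) then (1 : ℝ) else 0)) := by
    apply setIntegral_mono_on
    · exact integrableOn_const (by rw [Real.volume_Ioo]; exact ENNReal.ofReal_ne_top)
    · exact integrable_finsetSum _ (fun e _ =>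
        (LVT_integrable lo γ (ph (N.t e))).sub (LVT_integrable lo γ (ph (N.s e))))
    · exact measurableSet_Ioo
    · intro τ hτ
      exact LVT_two N ph R G hok hlt τ (le_trans hlo hτ.1.le) (lt_of_lt_of_le hτ.2 hR)
  have hi : ∀ e ∈ (Finset.univ : Finset E), Integrable
      (fun τ : ℝ => ((if τ < ph (N.t e) then (1 : ℝ) else 0) -
        (if τ < ph (N.s e) then (1 : ℝ) else 0))) (volume.restrict (Set.Ioo lo (lo + γ))) :=
    fun e _ => (LVT_integrable lo γ (ph (N.t e))).sub (LVT_integrable lo γ (ph (N.s e)))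
  rw [integral_finsetSum _ hi] at h1
  have h2 : ∀ e, (∫ τ in Set.Ioo lo (lo + γ), ((if τ < ph (N.t e) then (1 : ℝ) else 0) -
        (if τ < ph (N.s e) then (1 : ℝ) else 0))) =
      ALZ.cl lo γ (ph (N.t e)) - ALZ.cl lo γ (ph (N.s e)) := by
    intro e
    rw [integral_sub (LVT_integrable lo γ (ph (N.t e))) (LVT_integrable lo γ (ph (N.s e))),
      LVT_int, LVT_int]
  rw [Finset.sum_congr rfl (fun e _ => h2 e)] at h1
  refine le_trans (le_of_eq ?_) h1
  rw [setIntegral_const, Real.volume_real_Ioo, smul_eq_mul]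
  have : lo + γ - lo = γ := by ring
  rw [this, max_eq_left hγ]
  ring

end ALS
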