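import Mathlib
import Pool.Agent.ALS.StH

/-! # ALS: [NET] the network of a leaf (helper25) -/

set_option autoImplicit false

namespace ALS

open Pool.ALT

/-- [NET] -/
theorem thm_NET (hFN : Pool.ALT.St_FN) (hPQ : Pool.ALT.St_PQ) : St_NET := by
  intro V W E _ _ _ _ g h hl
  refine ⟨⟨hl.du.ab, hl.two, hl.du.con, hl.pr, hl.pr'⟩, fun hle => ?_⟩
  classical
  have hp := hl.pm
  have hK := glue_K_univ hl.du.con
  obtain ⟨e1, e2⟩ := hPQ g Finset.univ hK hl.du.ab
  have hle' : g.NF Finset.univ {g.a} ≤ g.NF Finset.univ {g.a, g.b} := by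
    rw [← e1, ← e2]
    exact hle
  obtain ⟨N, N', ph, x, G, G', hNa, hNb, _, _, hend, _, hgood, hform⟩ :=
    hFN g h hl.du hp.dist hp.cut hle'
  rw [← e1, ← e2] at hgood hform
  exact ⟨N, N', ph, x, G, G', ⟨hend, hNa, hNb⟩, hgood, hform⟩

end ALS
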