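import Pool.Agent.ALS.St

/-!
# ALS: a leaf has nullity at least 2
-/

set_option autoImplicit false

namespace ALS

theorem thm_NU2 (hRK3 : St_RK3) (hDLK : St_DLK) (hDLL : St_DLL) : St_NU2 := by
  intro α _ r o S hr hb hl
  obtain ⟨h1, h2⟩ := hDLK α r (insert o S) hr
  obtain ⟨h3, h4⟩ := hDLL α r o S hr hl
  have h5 := hRK3 α (dl r (insert o S)) o S h1 (h2 hb) h3
  omega

end ALS
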