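import Pool.Agent.ALS.St

/-!
# ALS [ONE]: at most one coloop
-/

set_option autoImplicit false

namespace ALS

theorem thm_ONE (hCNC : St_CNC) (hRK3 : St_RK3) (hNU2 : St_NU2) : St_ONE := by
  intro α _ r o S f h hb hL hN hf hC g hg g' hg' hgr hgr'
  by_contra hne
  have hne' : g ≠ g' := hne
  have n1 := hRK3 α r o S h hb hL
  have n2 := hNU2 α r o S h hb hL
  obtain ⟨-, hnc⟩ := hCNC α r S h hL.c1 hL.two
  have hEc : (S.erase f).card = S.card - 1 := Finset.card_erase_of_mem hf
  obtain ⟨-, hnco⟩ := hCNC α (ct r {o}) (S.erase f) (h.ctr {o}) hC (by omega)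
  have hgS : g ∈ S := Finset.mem_of_mem_erase hg
  have hgS' : g' ∈ S := Finset.mem_of_mem_erase hg'
  have hgf : g ≠ f := Finset.ne_of_mem_erase hg
  have hgf' : g' ≠ f := Finset.ne_of_mem_erase hg'
  have rf := hnc f hf
  have rg := hnc g hgS
  have rg' := hnc g' hgS'
  obtain ⟨Q, hQ⟩ : ∃ Q : Finset α, Q = ((S.erase f).erase g).erase g' := ⟨_, rfl⟩
  have e1 : insert g' Q = (S.erase f).erase g := by
    ext x
    rw [hQ]
    simp only [Finset.mem_insert, Finset.mem_erase]
    by_cases hx : x = g'
    · subst hx
      simp [hne'.symm, hgf', hgS']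
    · simp [hx]
  have e2 : insert g Q = (S.erase f).erase g' := by
    ext x
    rw [hQ]
    simp only [Finset.mem_insert, Finset.mem_erase]
    by_cases hx : x = g
    · subst hx
      simp [hne', hgf, hgS]
    · simp [hx]
  have e3 : insert g (insert g' Q) = S.erase f := by
    rw [e1, Finset.insert_erase hg]
  have e4 : insert f (insert g Q) = S.erase g' := by
    ext x
    rw [e2]
    simp only [Finset.mem_insert, Finset.mem_erase]
    by_cases hx : x = f
    · subst hx
      simp [hgf'.symm, hf]
    · simp [hx]
  have e5 : insert f (insert g' Q) = S.erase g := by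
    ext x
    rw [e1]
    simp only [Finset.mem_insert, Finset.mem_erase]
    by_cases hx : x = f
    · subst hx
      simp [hgf.symm, hf]
    · simp [hx]
  have e6 : insert f Q = (S.erase g).erase g' := by
    ext x
    rw [hQ]
    simp only [Finset.mem_insert, Finset.mem_erase]
    by_cases hx : x = f
    · subst hx
      simp [hgf'.symm, hgf.symm, hf]
    · by_cases hx' : x = g'
      · subst hx'
        simp [hx]
      · simp [hx, hx']
  have e7 : insert f (insert o Q) = insert o ((S.erase g).erase g') := by
    rw [Finset.insert_comm, e6]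
  have e8 : insert g (insert o Q) = insert o ((S.erase f).erase g') := by
    rw [Finset.insert_comm, e2]
  have e9 : insert g' (insert o Q) = insert o ((S.erase f).erase g) := by
    rw [Finset.insert_comm, e1]
  have e10 : insert f (insert g (insert g' (insert o Q))) ⊆ insert o S := by
    intro x hx
    simp only [Finset.mem_insert] at hx ⊢
    rcases hx with rfl | rfl | rfl | rfl | hx
    · exact Or.inr hf
    · exact Or.inr hgS
    · exact Or.inr hgS'
    · exact Or.inl rfl
    · rw [hQ] at hx
      simp only [Finset.mem_erase] at hx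
      exact Or.inr hx.2.2.2
  -- ranks
  have a1 := h.er (S.erase f) g
  have a2 := h.er (S.erase f) g'
  have a3 := h.dim Q (insert g' Q) g (Finset.subset_insert g' Q)
  have a4 := h.up Q g
  have a5 := h.up (insert g' Q) g
  rw [e3, e1, e2] at a3
  rw [e3] at a5
  rw [e2] at a4
  have b1 := h.ct1 o (S.erase f)
  have b2 := h.ct1 o ((S.erase f).erase g)
  have b3 := h.ct1 o ((S.erase f).erase g')
  have b4 := hnco g hg
  have b5 := hnco g' hg'
  have b6 := h.ge_ins (S.erase f) o
  have b7 : r (insert o (S.erase f)) ≤ r (insert o S) :=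
    h.mono _ _ (Finset.insert_subset_insert o (Finset.erase_subset f S))
  have b8 := hL.cl
  have b9 := hN g hgS g' hgS' hne'
  have c1 := h.up (insert o Q) g
  rw [e8] at c1
  have c2 := h.up (insert f Q) g
  rw [Finset.insert_comm, e4] at c2
  have c3 : r (insert f (insert g (insert g' (insert o Q)))) ≤ r (insert o S) :=
    h.mono _ _ e10
  rw [e9] at c3
  have d1 := hb Q f g g' o
  rw [e4, e5, e7, e3, e8, e9, e1, e2] at d1
  have c4 := h.up Q g'
  rw [e1] at c4
  have d2 := d1 (by omega) (by omega) (by omega) (by omega) (by omega)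
  omega

end ALS
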