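import Pool.Agent.ALS.St

/-!
# ALS, module PAR: parallel pairs in a leaf
-/

set_option autoImplicit false

namespace ALS

/-- insertion of the deleted element into a smaller set -/
theorem PAR_set {α : Type} [DecidableEq α] (S : Finset α) (h x : α) (hh : h ∈ S) (hx : x ≠ h) :
    insert h ((S.erase h).erase x) = S.erase x := by
  ext y
  simp only [Finset.mem_insert, Finset.mem_erase]
  constructor
  · rintro (rfl | ⟨h1, h2, h3⟩)
    · exact ⟨hx.symm, hh⟩
    · exact ⟨h1, h3⟩
  · rintro ⟨h1, h2⟩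
    by_cases hy : y = h
    · exact Or.inl hy
    · exact Or.inr ⟨h1, hy, h2⟩

/-- [PAR] parallel pairs. -/
theorem thm_PAR (hBDC : St_BDC) (hTUT : St_TUT) (hCNC : St_CNC) (hBR2 : St_BR2) (hRK3 : St_RK3)
    (hNU2 : St_NU2) : St_PAR := by
  intro α _ r o S h h' hr hb hL hhS hh'S hne hpar
  have h3 := hRK3 α r o S hr hb hL
  have h5 := hNU2 α r o S hr hb hL
  have hcE : (S.erase h).card = S.card - 1 := Finset.card_erase_of_mem hhS
  have hcE2 : 2 ≤ (S.erase h).card := by omega
  obtain ⟨hNL, hNC⟩ := hCNC α r S hr hL.c1 (by omega)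
  obtain ⟨-, hNCo⟩ := hCNC α (ct r {o}) S (hr.ctr {o}) hL.c2 (by omega)
  have h'E : h' ∈ S.erase h := Finset.mem_erase.2 ⟨hne.symm, hh'S⟩
  have hrh : r {h} = 1 := hNL h hhS
  have hrE : r (S.erase h) = r S := hNC h hhS
  have hC1 : Con r (S.erase h) := by
    rcases hTUT α r S h hr hL.c1 hhS (by omega) with h1 | h1
    · exact h1
    · obtain ⟨h2, -⟩ := hCNC α (ct r {h}) (S.erase h) (hr.ctr {h}) h1 hcE2
      have h4 := h2 h' h'E
      have h6 := hr.ct1 h {h'}
      omega
  have hC2 : Con (ct r {o}) (S.erase h) := by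
    rcases hTUT α (ct r {o}) S h (hr.ctr {o}) hL.c2 hhS (by omega) with h1 | h1
    · exact h1
    · obtain ⟨h2, -⟩ := hCNC α (ct (ct r {o}) {h}) (S.erase h) ((hr.ctr {o}).ctr {h}) h1 hcE2
      have h4 := h2 h' h'E
      have h6 := (hr.ctr {o}).ct1 h {h'}
      have h7 := hr.ct1 o (insert h {h'})
      have h8 := hr.ct1 o {h}
      have h9 : r (insert h' (insert o {h})) = r (insert o {h}) := by
        apply hr.clo {h} (insert o {h}) h' (Finset.subset_insert _ _)
        rw [hrh, Finset.pair_comm]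
        exact hpar
      have h10 : insert h' (insert o ({h} : Finset α)) = insert o (insert h {h'}) := by
        ext y
        simp only [Finset.mem_insert, Finset.mem_singleton]
        tauto
      rw [h10] at h9
      omega
  have hcl : r (insert o (S.erase h)) = r (S.erase h) := by
    have h1 : ct r {o} (S.erase h) = ct r {o} S := hNCo h hhS
    have h2 := hr.ct1 o (S.erase h)
    have h4 := hr.ct1 o S
    have h6 := hL.cl
    omega
  refine ⟨⟨fun hm => hL.nm (Finset.mem_of_mem_erase hm), hcE2, hL.ro, hcl, hC1, hC2⟩, ?_⟩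
  have h1 := hBDC α r S h hr hhS hrh hrE
  have h2 : NC (ct r {h}) (S.erase h) := by
    intro x hx
    have h4 := hr.ct1 h ((S.erase h).erase x)
    have h6 := hr.ct1 h (S.erase h)
    rw [PAR_set S h x hhS (Finset.ne_of_mem_erase hx)] at h4
    rw [Finset.insert_erase hhS] at h6
    have h7 := hNC x (Finset.mem_of_mem_erase hx)
    omega
  have h4 := (hBR2 α (ct r {h}) (S.erase h) (hr.ctr {h}) h2).2 (by
    have h6 := hr.ct1 h (S.erase h)
    rw [Finset.insert_erase hhS] at h6
    omega)
  omega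

end ALS
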