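import Pool.Agent.ALS.St

/-!
# ALS: a leaf has rank at least three
-/

set_option autoImplicit false

namespace ALS

variable {α : Type} [DecidableEq α]

theorem RK3_par {r : Finset α → ℕ} (h : Rk r) (x : α) (hx : r {x} = 1) (A : Finset α)
    (hA : ∀ y ∈ A, r {x, y} ≤ 1) : r (insert x A) ≤ 1 := by
  induction A using Finset.induction_on with
  | empty => exact h.sgl x
  | insert y A hy ih =>
    have h1 : r (insert x A) ≤ 1 := ih fun z hz => hA z (Finset.mem_insert_of_mem hz)
    have h2 : r {x, y} ≤ 1 := hA y (Finset.mem_insert_self y A)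
    have h3 : r (insert y {x}) ≤ r {x} := by
      rw [hx, Finset.pair_comm]
      exact h2
    have h4 := h.clo {x} (insert x A) y
      (Finset.singleton_subset_iff.mpr (Finset.mem_insert_self x A)) h3
    rw [Finset.insert_comm, h4]
    exact h1

theorem thm_RK3 (hCNC : St_CNC) : St_RK3 := by
  intro α _ r o S h hb hl
  have hnl := (hCNC α r S h hl.c1 hl.two).1
  have hnlo := (hCNC α (ct r {o}) S (h.ctr {o}) hl.c2 hl.two).1
  have hox : ∀ x ∈ S, r {o, x} = 2 := by
    intro x hx
    have h1 := h.ct1 o {x}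
    rw [hnlo x hx, hl.ro] at h1
    exact h1.symm
  obtain ⟨x, hx⟩ := hl.c1.1
  have hge : 2 ≤ r S := by
    rw [← hl.cl, ← hox x hx]
    exact h.mono _ _ (Finset.insert_subset_insert o (Finset.singleton_subset_iff.mpr hx))
  by_contra hlt
  have hρ : r S = 2 := by omega
  have hX : ∀ y ∈ S.filter (fun y => r {x, y} ≤ 1), r {x, y} ≤ 1 := fun y hy =>
    (Finset.mem_filter.mp hy).2
  have hrX : r (S.filter (fun y => r {x, y} ≤ 1)) ≤ 1 :=
    (h.ge_ins _ x).trans (RK3_par h x (hnl x hx) _ hX)
  have hxX : x ∈ S.filter (fun y => r {x, y} ≤ 1) := by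
    rw [Finset.mem_filter]
    refine ⟨hx, ?_⟩
    rw [Finset.pair_eq_singleton]
    exact h.sgl x
  have hne : S.filter (fun y => r {x, y} ≤ 1) ≠ S := by
    intro e
    rw [e] at hrX
    omega
  obtain ⟨y0, hy0S, hy0⟩ : ∃ y0 ∈ S, y0 ∉ S.filter (fun y => r {x, y} ≤ 1) := by
    by_contra hc
    push Not at hc
    exact hne (Finset.Subset.antisymm (Finset.filter_subset _ _) hc)
  have hy0' : 1 < r {x, y0} := by
    rw [Finset.mem_filter] at hy0
    by_contra hc
    exact hy0 ⟨hy0S, not_lt.mp hc⟩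
  have hY : ∀ y ∈ S \ S.filter (fun y => r {x, y} ≤ 1), r {y0, y} ≤ 1 := by
    intro y hy
    rw [Finset.mem_sdiff, Finset.mem_filter] at hy
    have hyS := hy.1
    have hy' : 1 < r {x, y} := by
      by_contra hc
      exact hy.2 ⟨hyS, not_lt.mp hc⟩
    have s1 : ∀ v, r (insert v ∅) = r {v} := fun v => rfl
    have h1 := hb ∅ o x y0 y (by rw [s1, hl.ro, h.r0]; exact one_pos)
      (by rw [s1, hnl x hx, h.r0]; exact one_pos) (by rw [s1, hnl y0 hy0S, h.r0]; exact one_pos)
      (by rw [s1, hnl y hyS, h.r0]; exact one_pos)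
      (by
        rw [h.r0, zero_add, ← hρ, ← hl.cl]
        refine h.mono _ _ (Finset.insert_subset_insert o ?_)
        intro v hv
        simp only [Finset.mem_insert, Finset.notMem_empty, or_false] at hv
        rcases hv with rfl | rfl | rfl
        · exact hx
        · exact hy0S
        · exact hyS)
    rw [h.r0, zero_add] at h1
    have e1 := hox x hx
    have e2 := hox y0 hy0S
    have e3 := hox y hyS
    have p : ∀ v w, r (insert v (insert w ∅)) = r {v, w} := fun v w => rfl
    rw [p, p, p, p, p, p] at h1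
    omega
  have hrY : r (S \ S.filter (fun y => r {x, y} ≤ 1)) ≤ 1 :=
    (h.ge_ins _ y0).trans (RK3_par h y0 (hnl y0 hy0S) _ hY)
  have hcon := hl.c1.2 _ (Finset.filter_subset (fun y => r {x, y} ≤ 1) S) ⟨x, hxX⟩ hne
  omega

end ALS
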