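import Pool.Agent.ALS.St

/-!
# ALS, module SER: series pairs (helper31)
-/

set_option autoImplicit false

namespace ALS

theorem thm_SER (hBDC : St_BDC) (hTUT : St_TUT) (hCNC : St_CNC) (hBN1 : St_BN1)
    (hRK3 : St_RK3) (hNU2 : St_NU2) : St_SER := by
  intro α _ r o S g g' h hB hL hNP hg hg' hgg hlt
  have h3 := hRK3 α r o S h hB hL
  have h5 := hNU2 α r o S h hB hL
  obtain ⟨hNL, hNC⟩ := hCNC α r S h hL.c1 hL.two
  obtain ⟨hNL2, -⟩ := hCNC α (ct r {o}) S (h.ctr {o}) hL.c2 hL.two
  have hrg : r {g} = 1 := hNL g hg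
  have hrE : r (S.erase g) = r S := hNC g hg
  have hcard : (S.erase g).card = S.card - 1 := Finset.card_erase_of_mem hg
  have hg'E : g' ∈ S.erase g := Finset.mem_erase.2 ⟨fun e => hgg e.symm, hg'⟩
  have hE2 : 2 ≤ (S.erase g).card := by omega
  -- `g'` is a coloop of `E`
  have h6 : r ((S.erase g).erase g') < r (S.erase g) := by
    have h7 := h.ge_ins ((S.erase g).erase g') o
    omega
  have hn1 : ¬ Con r (S.erase g) := by
    intro hc
    have h7 := (hCNC α r (S.erase g) h hc hE2).2 g' hg'E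
    omega
  have hC1 : Con (ct r {g}) (S.erase g) :=
    (hTUT α r S g h hL.c1 hg hL.two).resolve_left hn1
  have k1 := h.ct1 o ((S.erase g).erase g')
  have k2 := h.ct1 o (S.erase g)
  have k3 := h.ge_ins (S.erase g) o
  have hro := hL.ro
  have hn2 : ¬ Con (ct r {o}) (S.erase g) := by
    intro hc
    have h7 := (hCNC α (ct r {o}) (S.erase g) (h.ctr {o}) hc hE2).2 g' hg'E
    omega
  have hC2 : Con (ct (ct r {o}) {g}) (S.erase g) :=
    (hTUT α (ct r {o}) S g (h.ctr {o}) hL.c2 hg hL.two).resolve_left hn2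
  have hC3 : Con (ct (ct r {g}) {o}) (S.erase g) := by
    rw [h.ctct, Finset.union_comm, ← h.ctct]
    exact hC2
  have hpair : r (insert g {o}) = 2 := by
    have k4 := h.ct1 o {g}
    have k5 := hNL2 g hg
    have k6 : (insert g {o} : Finset α) = insert o {g} := Finset.pair_comm g o
    rw [k6]
    omega
  refine ⟨⟨?_, hE2, ?_, ?_, hC1, hC3⟩, ?_⟩
  · exact fun ho => hL.nm (Finset.mem_of_mem_erase ho)
  · have k7 := h.ct1 g {o}
    omega
  · have k8 := h.ct1 g (insert o (S.erase g))
    have k9 := h.ct1 g (S.erase g)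
    rw [Finset.insert_erase hg] at k9
    have k10 : insert g (insert o (S.erase g)) = insert o S := by
      rw [Finset.insert_comm, Finset.insert_erase hg]
    rw [k10, hL.cl] at k8
    omega
  · rw [hBDC α r S g h hg hrg hrE]
    have k11 := (hBN1 α r (S.erase g) h (fun x hx => hNL x (Finset.mem_of_mem_erase hx))
      (by omega)).2 (fun x hx y hy hxy => hNP x (Finset.mem_of_mem_erase hx) y
        (Finset.mem_of_mem_erase hy) hxy)
    omega

end ALS
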