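import Pool.Agent.ALS.StH

/-!
# ALS, module SIX (helper72): leaves with five elements
-/

set_option autoImplicit false

namespace ALS

/-- among four elements without loops in rank two there is a pair of rank at most one -/
theorem SIX_pair {α : Type} [DecidableEq α] (r : Finset α → ℕ) (S T : Finset α) (hr : Rk r)
    (hb : Bin r) (hl : NL r S) (hS : r S ≤ 2) (hT : T ⊆ S) (hc : T.card = 4) :
    ∃ p, p ⊆ T ∧ p.card = 2 ∧ r p ≤ 1 := by
  obtain ⟨x, T1, hx, rfl, h3⟩ := Finset.card_eq_succ.1 hc
  obtain ⟨y, z, w, hyz, hyw, hzw, rfl⟩ := Finset.card_eq_three.1 h3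
  have hxy : x ≠ y := fun h => hx (by simp [h])
  have hxz : x ≠ z := fun h => hx (by simp [h])
  have hxw : x ≠ w := fun h => hx (by simp [h])
  have m : ∀ v, v ∈ insert x ({y, z, w} : Finset α) → r ∅ < r (insert v ∅) := by
    intro v hv
    have h1 := hl v (hT hv)
    have h2 : (insert v ∅ : Finset α) = {v} := by simp
    rw [h2, h1, hr.r0]
    omega
  have e1 : insert x (insert y (insert z (insert w ∅))) = insert x ({y, z, w} : Finset α) := by
    simp
  have e2 : ∀ u v : α, insert u (insert v ∅) = ({u, v} : Finset α) := fun u v => by simp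
  have h1 := hb ∅ x y z w (m x (by simp)) (m y (by simp)) (m z (by simp)) (m w (by simp))
    (by
      rw [e1, hr.r0]
      exact (hr.mono _ _ hT).trans hS)
  simp only [e2, hr.r0, zero_add] at h1
  rcases h1 with h | h | h | h | h | h
  · exact ⟨_, by intro a; simp; tauto, Finset.card_pair hxy, h⟩
  · exact ⟨_, by intro a; simp; tauto, Finset.card_pair hxz, h⟩
  · exact ⟨_, by intro a; simp; tauto, Finset.card_pair hxw, h⟩
  · exact ⟨_, by intro a; simp; tauto, Finset.card_pair hyz, h⟩
  · exact ⟨_, by intro a; simp; tauto, Finset.card_pair hyw, h⟩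
  · exact ⟨_, by intro a; simp; tauto, Finset.card_pair hzw, h⟩

theorem thm_SIX (hCNC : St_CNC) (hRK3 : St_RK3) (hNU2 : St_NU2) : St_SIX := by
  intro α _ r o S hr hb hf hc
  have h3 := hRK3 α r o S hr hb hf
  have h4 := hNU2 α r o S hr hb hf
  have hρ : r S = 3 := by omega
  have hr' := hr.ctr {o}
  have hb' := hb.ctr hr {o}
  have hl := (hCNC α (ct r {o}) S hr' hf.c2 (by omega)).1
  have hS : ct r {o} S = 2 := by
    have h5 := hr.ct1 o S
    rw [hf.ro, hf.cl] at h5
    omega
  obtain ⟨s, hs⟩ : S.Nonempty := Finset.card_pos.1 (by omega)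
  obtain ⟨p, hpT, hp2, hp1⟩ := SIX_pair (ct r {o}) S (S.erase s) hr' hb' hl (by omega)
    (Finset.erase_subset _ _) (by rw [Finset.card_erase_of_mem hs]; omega)
  have hpS : p ⊆ S := hpT.trans (Finset.erase_subset _ _)
  obtain ⟨x, hx⟩ : p.Nonempty := Finset.card_pos.1 (by omega)
  obtain ⟨q, hqT, hq2, hq1⟩ := SIX_pair (ct r {o}) S (S.erase x) hr' hb' hl (by omega)
    (Finset.erase_subset _ _) (by rw [Finset.card_erase_of_mem (hpS hx)]; omega)
  have hqS : q ⊆ S := hqT.trans (Finset.erase_subset _ _)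
  have hpq : q ≠ p := by
    intro h
    rw [← h] at hx
    exact Finset.notMem_erase x S (hqT hx)
  have hsub : (S.powerset.filter fun A => A.card = ct r {o} S ∧ ct r {o} A = ct r {o} S) ⊆
      ((Finset.powersetCard 2 S).erase p).erase q := by
    intro A hA
    rw [Finset.mem_filter, Finset.mem_powerset, hS] at hA
    rw [Finset.mem_erase, Finset.mem_erase, Finset.mem_powersetCard]
    refine ⟨?_, ?_, hA.1, hA.2.1⟩
    · rintro rfl
      omega
    · rintro rfl
      omega
  have hcard : (((Finset.powersetCard 2 S).erase p).erase q).card = 8 := by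
    rw [Finset.card_erase_of_mem, Finset.card_erase_of_mem, Finset.card_powersetCard, hc]
    · rfl
    · rw [Finset.mem_powersetCard]
      exact ⟨hpS, hp2⟩
    · rw [Finset.mem_erase, Finset.mem_powersetCard]
      exact ⟨hpq, hqS, hq2⟩
  unfold bs
  exact (Finset.card_le_card hsub).trans hcard.le

end ALS
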