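import Pool.Agent.ALS.St

/-!
# ALS, module SIZ (helper34): main induction, at least `3 n - 7` bases
-/

set_option autoImplicit false

namespace ALS

theorem SIZ_ins {α : Type} [DecidableEq α] {S : Finset α} {f x : α} (hf : f ∈ S) (hx : x ≠ f) :
    insert f ((S.erase f).erase x) = S.erase x := by
  rw [Finset.erase_right_comm, Finset.insert_erase]
  exact Finset.mem_erase.2 ⟨hx.symm, hf⟩

theorem thm_SIZ (hBDC : St_BDC) (hTUT : St_TUT) (hCNC : St_CNC) (hBR2 : St_BR2)
    (hBN1 : St_BN1) (hRK3 : St_RK3) (hNU2 : St_NU2) (hCSA : St_CSA) (hCSB : St_CSB)
    (hPAR : St_PAR) (hSER : St_SER) : St_SIZ := by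
  intro α _ r o S
  obtain ⟨n, hn⟩ : ∃ n, n = S.card := ⟨_, rfl⟩
  induction n using Nat.strong_induction_on generalizing r S with
  | _ n IH =>
  intro hR hB hL
  have h3 := hRK3 α r o S hR hB hL
  have h2 := hNU2 α r o S hR hB hL
  obtain ⟨nl, nc⟩ := hCNC α r S hR hL.c1 hL.two
  by_cases hNP : NP r S
  · by_cases hNS : NS r o S
    · have hne : S.Nonempty := Finset.card_pos.1 (by omega)
      obtain ⟨f, hf⟩ := hne
      have hcard : (S.erase f).card = n - 1 := by rw [Finset.card_erase_of_mem hf, hn]
      have hRo := hR.ctr {o}
      have hRf := hR.ctr {f}
      have t1 := hTUT α r S f hR hL.c1 hf hL.two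
      have t2 := hTUT α (ct r {o}) S f hRo hL.c2 hf hL.two
      have hbs := hBDC α r S f hR hf (nl f hf) (nc f hf)
      have hrE : r (S.erase f) = r S := nc f hf
      have hctE : ct r {f} (S.erase f) + 1 = r S := by
        have h4 := hR.ct1 f (S.erase f)
        rw [Finset.insert_erase hf, nl f hf] at h4
        exact h4
      have hno : o ∉ S.erase f := fun h => hL.nm (Finset.mem_of_mem_erase h)
      have case1 : Con r (S.erase f) → Con (ct r {o}) (S.erase f) →
          3 * S.card ≤ bs r S + 7 := by
        intro a c
        have hLf : Lf r o (S.erase f) :=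
          { nm := hno
            two := by omega
            ro := hL.ro
            cl := by
              have h4 := hR.ge_ins (S.erase f) o
              have h5 := hR.mono (insert o (S.erase f)) (insert o S)
                (Finset.insert_subset_insert o (Finset.erase_subset f S))
              have h6 := hL.cl
              omega
            c1 := a
            c2 := c }
        have h7 := IH (n - 1) (by omega) r (S.erase f) hcard.symm hR hB hLf
        have h8 : NC (ct r {f}) (S.erase f) := by
          intro x hx
          have hxf : x ≠ f := Finset.ne_of_mem_erase hx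
          have h9 := hR.ct1 f ((S.erase f).erase x)
          rw [SIZ_ins hf hxf, nl f hf, nc x (Finset.mem_of_mem_erase hx)] at h9
          omega
        have h10 := (hBR2 α (ct r {f}) (S.erase f) hRf h8).2 (by omega)
        omega
      have case2 : Con (ct r {f}) (S.erase f) → Con (ct (ct r {o}) {f}) (S.erase f) →
          3 * S.card ≤ bs r S + 7 := by
        intro b d
        have hLf : Lf (ct r {f}) o (S.erase f) :=
          { nm := hno
            two := by omega
            ro := by
              have h4 := hR.ct1 f {o}
              have h5 := hR.ct1 o {f}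
              have h6 := (hCNC α (ct r {o}) S hRo hL.c2 hL.two).1 f hf
              have h7 : (insert f ({o} : Finset α)) = insert o {f} := Finset.pair_comm f o
              rw [h7, nl f hf] at h4
              rw [h6, hL.ro] at h5
              omega
            cl := by
              have h4 := hR.ct1 f (insert o (S.erase f))
              rw [Finset.insert_comm, Finset.insert_erase hf, nl f hf, hL.cl] at h4
              omega
            c1 := b
            c2 := by
              have h4 : ct (ct r {f}) {o} = ct (ct r {o}) {f} := by
                rw [hR.ctct, hR.ctct, Finset.union_comm]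
              rw [h4]
              exact d }
        have h7 := IH (n - 1) (by omega) (ct r {f}) (S.erase f) hcard.symm hRf (hB.ctr hR {f}) hLf
        have h8 : NL r (S.erase f) := fun x hx => nl x (Finset.mem_of_mem_erase hx)
        have h9 : NP r (S.erase f) := fun x hx y hy hxy =>
          hNP x (Finset.mem_of_mem_erase hx) y (Finset.mem_of_mem_erase hy) hxy
        have h10 := (hBN1 α r (S.erase f) hR h8 (by omega)).2 h9
        omega
      by_cases a : Con r (S.erase f)
      · by_cases b : Con (ct r {f}) (S.erase f)
        · rcases t2 with c | d
          · exact case1 a c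
          · exact case2 b d
        · exact hCSA α r S f hR hL.c1 hL.two hNP hf a b
      · have b := t1.resolve_left a
        rcases t2 with c | d
        · exact hCSB α r o S f hR hB hL hNS hf c b
        · exact case2 b d
    · unfold NS at hNS
      simp only [not_forall] at hNS
      obtain ⟨x, hx, y, hy, hxy, hlt⟩ := hNS
      have h4 := hR.mono (insert o ((S.erase x).erase y)) (insert o S)
        (Finset.insert_subset_insert o
          ((Finset.erase_subset _ _).trans (Finset.erase_subset _ _)))
      have h5 := hL.cl
      obtain ⟨g1, g2⟩ := hSER α r o S x y hR hB hL hNP hx hy hxy (by omega)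
      have hcard : (S.erase x).card = n - 1 := by rw [Finset.card_erase_of_mem hx, hn]
      have h7 := IH (n - 1) (by omega) (ct r {x}) (S.erase x) hcard.symm (hR.ctr {x})
        (hB.ctr hR {x}) g1
      omega
  · unfold NP at hNP
    simp only [not_forall] at hNP
    obtain ⟨x, hx, y, hy, hxy, hlt⟩ := hNP
    have h4 := hR.le_card {x, y}
    rw [Finset.card_pair hxy] at h4
    obtain ⟨g1, g2⟩ := hPAR α r o S x y hR hB hL hx hy hxy (by omega)
    have hcard : (S.erase x).card = n - 1 := by rw [Finset.card_erase_of_mem hx, hn]
    have h7 := IH (n - 1) (by omega) r (S.erase x) hcard.symm hR hB g1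
    omega

end ALS
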