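import Pool.Agent.ALS.StG

/-!
# ALS: `3 n ≤ p + 7`
-/

set_option autoImplicit false

namespace ALS

open Pool.ALT

theorem thm_SZ1 (hGRK : St_GRK) (hGBI : St_GBI) (hGLF : St_GLF) (hGPB : St_GPB)
    (hSIZ : St_SIZ) : St_SZ1 := by
  intro V E _ _ _ g hL
  obtain ⟨h1, h2⟩ := hGLF V E g
  have h3 := hSIZ (Option E) (rg (ext g)) none (al' E) (hGRK V (Option E) (ext g)).1
    (hGBI V (Option E) (ext g)) (h1 hL)
  have h4 : (al' E).card = Fintype.card E := by
    unfold al'
    rw [Finset.card_map, Finset.card_univ]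
  rw [h4, h2, ← hGPB V E g hL.con] at h3
  exact h3

end ALS
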