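import Pool.Agent.ALS.StG

/-!
# ALS, module SZF (helper72): final result of the block SIZE
-/

set_option autoImplicit false

namespace ALS

open Pool.ALT

theorem thm_SZF (hSZ1 : St_SZ1) (hLVC : St_LVC) (hZ3F : St_Z3F) : St_SZF := by
  intro V V' E _ _ _ _ g N N' ph x R G G' p q hL hS hG hp hp0 hR
  have hpR : (0 : ℝ) < p := by exact_mod_cast hp0
  have hRp : R * p = q := by
    rw [hR]
    exact div_mul_cancel₀ _ hpR.ne'
  have hR1 := hG.r1
  refine ⟨?_, ?_, ?_⟩
  · rw [hp]
    exact hSZ1 V E g hL
  · have h1 := hLVC V E N ph R 0 R G Finset.univ hG.dual.ok hG.lt1 le_rfl (by linarith)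
      (by linarith) (fun e _ => Finset.mem_univ e)
    rw [Finset.card_univ] at h1
    have h2 : (4 * q : ℝ) ≤ Fintype.card E * p := by
      have h3 := mul_le_mul_of_nonneg_right h1 hpR.le
      rw [mul_assoc, hRp] at h3
      exact h3
    exact_mod_cast h2
  · intro h16
    have h16' : (16 * p : ℝ) ≤ q := by exact_mod_cast h16
    have hR16 : 16 ≤ R := by
      rw [hR, le_div_iff₀ hpR]
      exact h16'
    rcases hZ3F V V' E g N N' ph x R G G' hL hS hG hR16 with h1 | h1
    · left
      rw [← hp] at h1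
      have h2 : (7 * Fintype.card E * q : ℝ) ≤ 16 * p ^ 2 := by
        have h3 := mul_le_mul_of_nonneg_right h1 hpR.le
        rw [mul_assoc, hRp] at h3
        nlinarith
      exact_mod_cast h2
    · right
      have hq0 : (0 : ℝ) < q := by linarith
      have h2 := mul_le_mul_of_nonneg_left h1 (mul_pos hpR hq0).le
      have h3 : (p : ℝ) * q * (R / 8 - 3 / 16 - 7 / (16 * R)) =
          (q : ℝ) ^ 2 / 8 - 3 * p * q / 16 - 7 * p ^ 2 / 16 := by
        rw [hR]
        field_simp
      rw [h3] at h2
      nlinarith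

end ALS
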