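import Mathlib
import Pool.Agent.ALS.StH

/-! # ALS: [SZL] the size fields (helper25) -/

set_option autoImplicit false

namespace ALS

open Pool.ALT

/-- [SZL] -/
theorem thm_SZL (hSZN : St_SZN) (hSZ1 : St_SZ1) (hSZF : St_SZF) (hNET : St_NET) : St_SZL := by
  intro V W E _ _ _ _ g h hl hlt
  obtain ⟨hg, hnet⟩ := hNET V W E g h hl
  have h6 := hSZN V E g hg hlt
  have h1 := hSZ1 V E g hg
  obtain ⟨N, N', ph, x, G, G', hsm, hgood, -⟩ := hnet hlt.le
  obtain ⟨k1, k2, -⟩ := hSZF V W E g N N' ph x _ G G' (g.p ⊥ Finset.univ) (g.q ⊥ Finset.univ) hg hsm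
    hgood rfl (by omega) rfl
  exact ⟨h6, k1, k2⟩

end ALS
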