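import Mathlib
import Pool.Agent.ALS.StH

/-! # ALS: [SZN] at least six edges (helper25) -/

set_option autoImplicit false

namespace ALS

open Pool.ALT

/-- [SZN] -/
theorem thm_SZN (hGRK : St_GRK) (hGBI : St_GBI) (hGLF : St_GLF) (hGQB : St_GQB) (hSZ1 : St_SZ1)
    (hRK3 : St_RK3) (hNU2 : St_NU2) (hSIX : St_SIX) : St_SZN := by
  intro V E _ _ _ g hg hlt
  have hR := (hGRK V (Option E) (ext g)).1
  have hB := hGBI V (Option E) (ext g)
  have hL := (hGLF V E g).1 hg
  have h1 := hRK3 (Option E) (rg (ext g)) none (al' E) hR hB hL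
  have h2 := hNU2 (Option E) (rg (ext g)) none (al' E) hR hB hL
  have hc : (al' E).card = Fintype.card E := by
    unfold al'
    rw [Finset.card_map, Finset.card_univ]
  rw [hc] at h2
  by_contra hn
  have h5 : Fintype.card E = 5 := by omega
  have h3 := hSZ1 V E g hg
  have h4 := hSIX (Option E) (rg (ext g)) none (al' E) hR hB hL (by rw [hc, h5])
  have h6 := hGQB V E g hg.ab hg.con
  omega

end ALS
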