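import Pool.Agent.ALS.St

/-!
# ALS [TUT]: deletion or contraction of an element of a connected set is connected
-/

set_option autoImplicit false

namespace ALS

variable {α : Type} [DecidableEq α]

theorem TUT_key {r : Finset α → ℕ} {S : Finset α} {f : α} (h : Rk r) (hc : Con r S)
    (A : Finset α) (hA : A ⊆ S) (hfA : f ∈ A) :
    r S ≤ r A + r (S \ A) ∧ ((S \ A).Nonempty → r S < r A + r (S \ A)) := by
  constructor
  · have h1 := h.un A (S \ A)
    rw [Finset.union_sdiff_of_subset hA] at h1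
    exact h1
  · intro hB
    refine hc.2 A hA ⟨f, hfA⟩ ?_
    rintro rfl
    simp at hB

theorem TUT_half {r : Finset α → ℕ} {S : Finset α} {f : α} (h : Rk r) (hc : Con r S)
    (hf : f ∈ S) (X1 X2 Y1 Y2 : Finset α) (hX : ∀ x, x ∈ S ∧ x ≠ f ↔ x ∈ X1 ∨ x ∈ X2)
    (hY : ∀ x, x ∈ S ∧ x ≠ f ↔ x ∈ Y1 ∨ x ∈ Y2) (hXd : ∀ x, x ∈ X1 → x ∈ X2 → False)
    (hYd : ∀ x, x ∈ Y1 → x ∈ Y2 → False) (ha : r X1 + r X2 ≤ r S)
    (hb : r (insert f Y1) + r (insert f Y2) ≤ r S + 1) :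
    X1 ∩ Y1 = ∅ ∨ X2 ∩ Y2 = ∅ := by
  have e1 : S \ insert f (X1 ∪ Y1) = X2 ∩ Y2 := by
    ext x
    have h1 := hX x
    have h2 := hY x
    have h3 := hXd x
    have h4 := hYd x
    simp only [Finset.mem_sdiff, Finset.mem_insert, Finset.mem_union, Finset.mem_inter]
    tauto
  have e2 : S \ insert f (X2 ∪ Y2) = X1 ∩ Y1 := by
    ext x
    have h1 := hX x
    have h2 := hY x
    have h3 := hXd x
    have h4 := hYd x
    simp only [Finset.mem_sdiff, Finset.mem_insert, Finset.mem_union, Finset.mem_inter]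
    tauto
  have s1 : insert f (X1 ∪ Y1) ⊆ S := by
    intro x hx
    have h1 := hX x
    have h2 := hY x
    simp only [Finset.mem_insert, Finset.mem_union] at hx
    rcases hx with rfl | hx | hx
    · exact hf
    · exact (h1.2 (Or.inl hx)).1
    · exact (h2.2 (Or.inl hx)).1
  have s2 : insert f (X2 ∪ Y2) ⊆ S := by
    intro x hx
    have h1 := hX x
    have h2 := hY x
    simp only [Finset.mem_insert, Finset.mem_union] at hx
    rcases hx with rfl | hx | hx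
    · exact hf
    · exact (h1.2 (Or.inr hx)).1
    · exact (h2.2 (Or.inr hx)).1
  have k1 := TUT_key (f := f) h hc _ s1 (Finset.mem_insert_self _ _)
  have k2 := TUT_key (f := f) h hc _ s2 (Finset.mem_insert_self _ _)
  rw [e1] at k1
  rw [e2] at k2
  have hf1 : f ∉ X1 := fun h1 => ((hX f).2 (Or.inl h1)).2 rfl
  have hf2 : f ∉ X2 := fun h1 => ((hX f).2 (Or.inr h1)).2 rfl
  have m1 := h.sub X1 (insert f Y1)
  have m2 := h.sub X2 (insert f Y2)
  rw [Finset.union_insert, Finset.inter_insert_of_notMem hf1] at m1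
  rw [Finset.union_insert, Finset.inter_insert_of_notMem hf2] at m2
  by_contra hno
  push Not at hno
  have n1 := k1.2 hno.2
  have n2 := k2.2 hno.1
  omega

theorem thm_TUT : St_TUT := by
  intro α _ r S f h hc hf hS
  set E := S.erase f with hE
  have hcard : E.card = S.card - 1 := Finset.card_erase_of_mem hf
  have hEne : E.Nonempty := Finset.card_pos.1 (by omega)
  have hEsub : E ⊆ S := Finset.erase_subset f S
  have hff : S \ {f} = E := by
    rw [hE, Finset.erase_eq]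
  have hne : ({f} : Finset α) ≠ S := by
    intro h1
    rw [← h1] at hS
    simp at hS
  have h1 := hc.2 {f} (Finset.singleton_subset_iff.2 hf) (Finset.singleton_nonempty f) hne
  rw [hff] at h1
  have h2 := h.sgl f
  have h3 := h.mono E S hEsub
  have hrf : r {f} = 1 := by omega
  have hrE : r E = r S := by omega
  by_contra hno
  rw [not_or] at hno
  obtain ⟨hA, hB⟩ := hno
  have hA' : ∃ X, X ⊆ E ∧ X.Nonempty ∧ X ≠ E ∧ r X + r (E \ X) ≤ r E := by
    by_contra h4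
    push Not at h4
    exact hA ⟨hEne, h4⟩
  have hB' : ∃ Y, Y ⊆ E ∧ Y.Nonempty ∧ Y ≠ E ∧
      ct r {f} Y + ct r {f} (E \ Y) ≤ ct r {f} E := by
    by_contra h4
    push Not at h4
    exact hB ⟨hEne, h4⟩
  obtain ⟨X, hXE, hXn, hXne, hX⟩ := hA'
  obtain ⟨Y, hYE, hYn, hYne, hY⟩ := hB'
  have c1 := h.ct1 f Y
  have c2 := h.ct1 f (E \ Y)
  have c3 := h.ct1 f E
  have hins : insert f E = S := by rw [hE, Finset.insert_erase hf]
  rw [hins] at c3
  have ha : r X + r (E \ X) ≤ r S := by omega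
  have hb : r (insert f Y) + r (insert f (E \ Y)) ≤ r S + 1 := by omega
  have mE : ∀ x, x ∈ E ↔ x ∈ S ∧ x ≠ f := by
    intro x
    rw [hE, Finset.mem_erase]
    tauto
  have hXm : ∀ x, x ∈ S ∧ x ≠ f ↔ x ∈ X ∨ x ∈ E \ X := by
    intro x
    have := @hXE x
    rw [Finset.mem_sdiff, ← mE x]
    tauto
  have hYm : ∀ x, x ∈ S ∧ x ≠ f ↔ x ∈ Y ∨ x ∈ E \ Y := by
    intro x
    have := @hYE x
    rw [Finset.mem_sdiff, ← mE x]
    tauto
  have hXd : ∀ x, x ∈ X → x ∈ E \ X → False := fun x h4 h5 => (Finset.mem_sdiff.1 h5).2 h4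
  have hYd : ∀ x, x ∈ Y → x ∈ E \ Y → False := fun x h4 h5 => (Finset.mem_sdiff.1 h5).2 h4
  have r1 := TUT_half h hc hf X (E \ X) Y (E \ Y) hXm hYm hXd hYd ha hb
  have r2 := TUT_half h hc hf X (E \ X) (E \ Y) Y hXm (fun x => (hYm x).trans or_comm) hXd
    (fun x h4 h5 => hYd x h5 h4) ha (by omega)
  have nX : ∃ x, x ∈ E ∧ x ∉ X := by
    by_contra h4
    push Not at h4
    exact hXne (Finset.Subset.antisymm hXE h4)
  have nY : ∃ x, x ∈ E ∧ x ∉ Y := by
    by_contra h4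
    push Not at h4
    exact hYne (Finset.Subset.antisymm hYE h4)
  obtain ⟨x0, hx0⟩ := hXn
  obtain ⟨y0, hy0⟩ := hYn
  obtain ⟨x1, hx1, hx1'⟩ := nX
  obtain ⟨y1, hy1, hy1'⟩ := nY
  have emp : ∀ A B : Finset α, A ∩ B = ∅ → ∀ x, x ∈ A → x ∈ B → False := by
    intro A B h4 x h5 h6
    have h7 : x ∈ A ∩ B := Finset.mem_inter.2 ⟨h5, h6⟩
    rw [h4] at h7
    exact Finset.notMem_empty x h7
  rcases r1 with r1 | r1
  · rcases r2 with r2 | r2
    · -- `X` is empty
      by_cases h4 : x0 ∈ Y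
      · exact emp _ _ r1 x0 hx0 h4
      · exact emp _ _ r2 x0 hx0 (Finset.mem_sdiff.2 ⟨hXE hx0, h4⟩)
    · -- `Y` is empty
      by_cases h4 : y0 ∈ X
      · exact emp _ _ r1 y0 h4 hy0
      · exact emp _ _ r2 y0 (Finset.mem_sdiff.2 ⟨hYE hy0, h4⟩) hy0
  · rcases r2 with r2 | r2
    · -- `E \ Y` is empty
      have hy1s : y1 ∈ E \ Y := Finset.mem_sdiff.2 ⟨hy1, hy1'⟩
      by_cases h4 : y1 ∈ X
      · exact emp _ _ r2 y1 h4 hy1s
      · exact emp _ _ r1 y1 (Finset.mem_sdiff.2 ⟨hy1, h4⟩) hy1s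
    · -- `E \ X` is empty
      have hx1s : x1 ∈ E \ X := Finset.mem_sdiff.2 ⟨hx1, hx1'⟩
      by_cases h4 : x1 ∈ Y
      · exact emp _ _ r2 x1 hx1s h4
      · exact emp _ _ r1 x1 hx1s (Finset.mem_sdiff.2 ⟨hx1, h4⟩)

end ALS
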