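import Mathlib
import Pool.Agent.ALS.StH

/-! # ALS: [Z3A] the field z3 (helper25) -/

set_option autoImplicit false

namespace ALS

open Pool.ALT

/-- [Z3A] -/
theorem thm_Z3A (hRK3 : St_RK3) (hNU2 : St_NU2) (hGRK : St_GRK) (hGBI : St_GBI) (hGLF : St_GLF)
    (hSZ1 : St_SZ1) (hSZF : St_SZF) (hNET : St_NET) : St_Z3A := by
  intro V W E _ _ _ _ g h hl h16
  obtain ⟨hg, hnet⟩ := hNET V W E g h hl
  have hR := (hGRK V (Option E) (ext g)).1
  have hB := hGBI V (Option E) (ext g)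
  have hL := (hGLF V E g).1 hg
  have h1 := hRK3 (Option E) (rg (ext g)) none (al' E) hR hB hL
  have h2 := hNU2 (Option E) (rg (ext g)) none (al' E) hR hB hL
  have hc : (al' E).card = Fintype.card E := by
    unfold al'
    rw [Finset.card_map, Finset.card_univ]
  rw [hc] at h2
  have h3 := hSZ1 V E g hg
  obtain ⟨N, N', ph, x, G, G', hsm, hgood, hform⟩ := hnet (by omega)
  obtain ⟨-, -, k3⟩ := hSZF V W E g N N' ph x _ G G' (g.p ⊥ Finset.univ) (g.q ⊥ Finset.univ) hg hsm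
    hgood rfl (by omega) rfl
  rcases k3 h16 with h4 | h4
  · exact Or.inl h4
  · refine Or.inr ?_
    rw [← hform] at h4
    have h5 : (((g.q ⊥ Finset.univ : ℚ) ^ 2 / 8 - (g.p ⊥ Finset.univ : ℚ) * g.q ⊥ Finset.univ / 2 : ℚ) : ℝ) ≤
        ((((jetOf (g.be ⊥ Finset.univ) (g.al ⊥ Finset.univ)).Om + 1) / 2 : ℚ) : ℝ) := by
      push_cast at h4 ⊢
      exact h4
    exact_mod_cast h5

end ALS
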