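import Pool.Agent.ALS.StG

/-!
# ALS [Z3F]: the dichotomy
-/

set_option autoImplicit false

namespace ALS

open Pool.ALT

theorem Z3F_level {V E : Type} [Fintype E] {N : ALZ.Nt V E} {ph : V → ℝ} {R : ℝ}
    {G : V → V → ℝ} (h : N.Ok ph R 1 G) : ∃ e, ph (N.s e) ≤ R / 2 ∧ R / 2 < ph (N.t e) := by
  classical
  by_contra hno
  push Not at hno
  have h1 := h.fl (fun x => if R / 2 < ph x then 1 else 0)
  have h2 : ∑ e, N.d ph e * N.d (fun x => if R / 2 < ph x then (1 : ℝ) else 0) e = 0 := by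
    refine Finset.sum_eq_zero fun e _ => ?_
    have h3 := h.up e
    unfold ALZ.Nt.d at h3
    have h4 : N.d (fun x => if R / 2 < ph x then (1 : ℝ) else 0) e = 0 := by
      show (if R / 2 < ph (N.t e) then (1 : ℝ) else 0) - (if R / 2 < ph (N.s e) then 1 else 0) = 0
      by_cases h5 : ph (N.s e) ≤ R / 2
      · have h6 := hno e h5
        rw [if_neg (not_lt.2 h6), if_neg (not_lt.2 h5)]
        ring
      · have h6 : R / 2 < ph (N.s e) := not_le.1 h5
        have h7 : R / 2 < ph (N.t e) := by linarith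
        rw [if_pos h7, if_pos h6]
        ring
    rw [h4, mul_zero]
  have hR := h.R0
  rw [h2, h.a0, h.bR, if_pos (by linarith), if_neg (by linarith)] at h1
  norm_num at h1

theorem thm_Z3F (hGNC : St_GNC) (hCRO : St_CRO) (hTWF : ALZ.St_TWF) : St_Z3F := by
  classical
  intro V V' E _ _ _ _ g N N' ph x R G G' hL hS hG hR
  have hok := hG.dual.ok
  obtain ⟨e0, he1, he2⟩ := Z3F_level hok
  have hw1 : R / 4 < ph (N.t e0) := by linarith
  have hw2 : ph (N.t e0) < 3 * R / 4 := by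
    have h1 := hG.lt1 e0
    unfold ALZ.Nt.d at h1
    linarith
  obtain ⟨F, hF⟩ : ∃ F : Finset E, F =
    Finset.univ.filter fun e => R / 4 < ph (N.s e) ∧ ph (N.t e) < 3 * R / 4 := ⟨_, rfl⟩
  have hFm : ∀ e, e ∈ F ↔ R / 4 < ph (N.s e) ∧ ph (N.t e) < 3 * R / 4 := by
    intro e
    rw [hF]
    simp
  by_cases hall : ∀ y, R / 4 < ph y → ph y < 3 * R / 4 → g.sp ⊥ F (N.t e0) y
  · left
    obtain ⟨h1, h2⟩ := hGNC V E g hL
    exact hCRO V E g N ph R G (N.t e0) F hS hok hG.lt1 (by linarith) hL.con h1 h2 hFm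
      ⟨hw1, hw2⟩ hall
  · right
    push Not at hall
    obtain ⟨y, hy1, hy2, hy3⟩ := hall
    have hst : ∀ e ∈ F, g.sp ⊥ F (N.s e) (N.t e) := by
      intro e he
      have h1 : g.sp ⊥ F (g.u e) (g.v e) := by
        have h2 := g.pe_le_sp ⊥ he
        exact h2 (pr_rel _ _)
      rcases hS.ends e with ⟨h2, h3⟩ | ⟨h2, h3⟩
      · rw [h2, h3]
        exact h1
      · rw [h2, h3]
        exact (g.sp ⊥ F).symm' h1
    refine hTWF V V' E N N' ph x R G G'
      {z | R / 4 < ph z ∧ ph z < 3 * R / 4 ∧ g.sp ⊥ F (N.t e0) z} hG (by linarith) ?_ ?_ ?_ ?_ ?_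
    · intro z hz
      exact ⟨hz.1, hz.2.1⟩
    · intro e he h
      have h1 := hok.up e
      unfold ALZ.Nt.d at h1
      have h2 : e ∈ F := (hFm e).2 ⟨he.1, h⟩
      refine ⟨?_, h, ?_⟩
      · have := he.1
        linarith
      · exact (g.sp ⊥ F).trans' he.2.2 (hst e h2)
    · intro e he h
      have h1 := hok.up e
      unfold ALZ.Nt.d at h1
      have h2 : e ∈ F := (hFm e).2 ⟨h, he.2.1⟩
      refine ⟨h, ?_, ?_⟩
      · have := he.2.1
        linarith
      · exact (g.sp ⊥ F).trans' he.2.2 ((g.sp ⊥ F).symm' (hst e h2))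
    · exact ⟨N.t e0, hw1, hw2, (g.sp ⊥ F).refl' _⟩
    · exact ⟨y, fun hy => hy3 hy.2.2, hy1, hy2⟩

end ALS
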