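import Pool.Agent.ALS.BDC
import Pool.Agent.ALS.BLC
import Pool.Agent.ALS.BSP
import Pool.Agent.ALS.BMI
import Pool.Agent.ALS.TUT
import Pool.Agent.ALS.CNC
import Pool.Agent.ALS.BCN
import Pool.Agent.ALS.BNC
import Pool.Agent.ALS.BR2
import Pool.Agent.ALS.BN1
import Pool.Agent.ALS.BN2
import Pool.Agent.ALS.RK3
import Pool.Agent.ALS.DLK
import Pool.Agent.ALS.DLL
import Pool.Agent.ALS.NU2
import Pool.Agent.ALS.ONE
import Pool.Agent.ALS.CSA
import Pool.Agent.ALS.CSB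
import Pool.Agent.ALS.PAR
import Pool.Agent.ALS.SER
import Pool.Agent.ALS.SIZ
import Pool.Agent.ALS.FXY
import Pool.Agent.ALS.DLM
import Pool.Agent.ALS.FIB
import Pool.Agent.ALS.GRK
import Pool.Agent.ALS.GBI
import Pool.Agent.ALS.GXT
import Pool.Agent.ALS.GLF
import Pool.Agent.ALS.GPB
import Pool.Agent.ALS.SZ1
import Pool.Agent.ALS.GNC
import Pool.Agent.ALS.DUG
import Pool.Agent.ALS.LVT
import Pool.Agent.ALS.LVC
import Pool.Agent.ALS.GS3
import Pool.Agent.ALS.CRO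
import Pool.Agent.ALS.Z3F
import Pool.Agent.ALS.SZF
import Pool.Agent.ALS.SIX
import Pool.Agent.ALS.GQB
import Pool.Agent.ALS.SZN
import Pool.Agent.ALS.NET
import Pool.Agent.ALS.SZL
import Pool.Agent.ALS.Z3A
import Pool.Agent.ALZ.ALL

/-!
# ALS: the size block, assembly
-/

set_option autoImplicit false

namespace ALS

/-- connected sets have at least as many bases as elements -/
theorem bcn : St_BCN := thm_BCN thm_BDC thm_BMI thm_TUT thm_CNC
/-- the same without loops and coloops -/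
theorem bnc : St_BNC := thm_BNC thm_BMI thm_BSP bcn
/-- small numbers of bases -/
theorem br2 : St_BR2 := thm_BR2 thm_BLC bnc
/-- small numbers of bases -/
theorem bn1 : St_BN1 := thm_BN1 thm_BLC bnc
/-- at least `2n - 3` bases -/
theorem bn2 : St_BN2 := thm_BN2 thm_BDC thm_BLC thm_TUT thm_CNC bcn bnc br2 bn1
/-- rank at least three -/
theorem rk3 : St_RK3 := thm_RK3 thm_CNC
/-- nullity at least two -/
theorem nu2 : St_NU2 := thm_NU2 rk3 thm_DLK (thm_DLL thm_DLK)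
/-- at most one coloop -/
theorem one : St_ONE := thm_ONE thm_CNC rk3 nu2
/-- case A -/
theorem csa : St_CSA := thm_CSA thm_BDC thm_BSP thm_CNC bcn bnc
/-- case B -/
theorem csb : St_CSB := thm_CSB thm_BDC thm_BLC thm_CNC bnc bn2 rk3 nu2 one
/-- parallel pairs -/
theorem par : St_PAR := thm_PAR thm_BDC thm_TUT thm_CNC br2 rk3 nu2
/-- series pairs -/
theorem ser : St_SER := thm_SER thm_BDC thm_TUT thm_CNC bn1 rk3 nu2
/-- at least `3n - 7` bases -/
theorem siz : St_SIZ := thm_SIZ thm_BDC thm_TUT thm_CNC br2 bn1 rk3 nu2 csa csb par ser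
/-- contraction of `F` -/
theorem fxy : St_FXY := thm_FXY thm_BSP bnc
/-- deletion in `F` -/
theorem dlm : St_DLM := thm_DLM thm_BMI fxy
/-- the fibre lemma -/
theorem fib : St_FIB := thm_FIB thm_BDC thm_BSP thm_BMI fxy dlm
/-- graphs -/
theorem gbi : St_GBI := thm_GBI thm_GRK
/-- leaves -/
theorem glf : St_GLF := thm_GLF thm_GRK thm_GXT
/-- trees -/
theorem gpb : St_GPB := thm_GPB thm_GRK
/-- `3n ≤ p + 7` -/
theorem sz1 : St_SZ1 := thm_SZ1 thm_GRK gbi glf gpb siz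
/-- levels -/
theorem lvc : St_LVC := thm_LVC thm_LVT
/-- cross connected -/
theorem cro : St_CRO := thm_CRO thm_GRK gpb fib lvc (thm_GS3 thm_GRK)
/-- dichotomy -/
theorem z3f : St_Z3F := thm_Z3F (thm_GNC thm_GRK thm_CNC) cro ALZ.twf
/-- result -/
theorem szf : St_SZF := thm_SZF sz1 lvc z3f
/-- `n ≥ 6` -/
theorem szn : St_SZN :=
  thm_SZN thm_GRK gbi glf (thm_GQB thm_GRK thm_GXT) sz1 rk3 nu2 (thm_SIX thm_CNC rk3 nu2)

/-- the size fields -/
theorem szl (hFN : Pool.ALT.St_FN) (hPQ : Pool.ALT.St_PQ) : St_SZL :=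
  thm_SZL szn sz1 szf (thm_NET hFN hPQ)

/-- the size fields, in the form of the glue -/
theorem sz (hFN : Pool.ALT.St_FN) (hPQ : Pool.ALT.St_PQ) : Pool.ALT.St_SZ :=
  fun g h hl hlt => szl hFN hPQ g h hl hlt

/-- the field z3 -/
theorem z3a (hFN : Pool.ALT.St_FN) (hPQ : Pool.ALT.St_PQ) : Pool.ALT.St_Z3 :=
  thm_Z3A rk3 nu2 thm_GRK gbi glf sz1 szf (thm_NET hFN hPQ)

end ALS
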