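import Pool.Agent.ALS.St

/-! # ALS, deletion and contraction for the number of bases (helper19) -/

set_option autoImplicit false

namespace ALS

theorem thm_BDC : St_BDC := by
  intro α _ r S f hr hf hf1 hfe
  unfold bs
  have hct : ct r {f} (S.erase f) + 1 = r S := by
    have h := hr.ct1 f (S.erase f)
    rw [Finset.insert_erase hf, hf1] at h
    exact h
  have h1 : (S.powerset.filter fun A => A.card = r S ∧ r A = r S) =
      ((S.erase f).powerset.filter fun A => A.card = r (S.erase f) ∧ r A = r (S.erase f)) ∪
      (((S.erase f).powerset.filter fun A => A.card = ct r {f} (S.erase f) ∧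
        ct r {f} A = ct r {f} (S.erase f)).image fun A => insert f A) := by
    ext A
    simp only [Finset.mem_union, Finset.mem_filter, Finset.mem_powerset, Finset.mem_image]
    constructor
    · rintro ⟨hA, hc, hrA⟩
      by_cases hfA : f ∈ A
      · right
        refine ⟨A.erase f, ⟨Finset.erase_subset_erase f hA, ?_, ?_⟩, Finset.insert_erase hfA⟩
        · have := Finset.card_erase_add_one hfA
          omega
        · have h := hr.ct1 f (A.erase f)
          rw [Finset.insert_erase hfA, hf1] at h
          omega
      · left
        refine ⟨fun x hx => Finset.mem_erase.2 ⟨fun h => hfA (h ▸ hx), hA hx⟩, ?_, ?_⟩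
        · omega
        · omega
    · rintro (⟨hA, hc, hrA⟩ | ⟨B, ⟨hB, hc, hrB⟩, rfl⟩)
      · exact ⟨hA.trans (Finset.erase_subset f S), by omega, by omega⟩
      · have hfB : f ∉ B := fun h => (Finset.mem_erase.1 (hB h)).1 rfl
        refine ⟨?_, ?_, ?_⟩
        · intro x hx
          rcases Finset.mem_insert.1 hx with h | h
          · rwa [h]
          · exact Finset.mem_of_mem_erase (hB h)
        · rw [Finset.card_insert_of_notMem hfB]
          omega
        · have h := hr.ct1 f B
          rw [hf1] at h
          omega
  rw [h1, Finset.card_union_of_disjoint, Finset.card_image_of_injOn]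
  · intro A hA B hB hAB
    have hA' := (Finset.mem_powerset.1 (Finset.mem_filter.1 (Finset.mem_coe.1 hA)).1)
    have hB' := (Finset.mem_powerset.1 (Finset.mem_filter.1 (Finset.mem_coe.1 hB)).1)
    have hfA : f ∉ A := fun h => (Finset.mem_erase.1 (hA' h)).1 rfl
    have hfB : f ∉ B := fun h => (Finset.mem_erase.1 (hB' h)).1 rfl
    have h := congrArg (fun C => C.erase f) hAB
    simp only [Finset.erase_insert hfA, Finset.erase_insert hfB] at h
    exact h
  · rw [Finset.disjoint_left]
    intro A hA hA2
    have hA' := (Finset.mem_powerset.1 (Finset.mem_filter.1 hA).1)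
    obtain ⟨B, -, rfl⟩ := Finset.mem_image.1 hA2
    exact (Finset.mem_erase.1 (hA' (Finset.mem_insert_self f B))).1 rfl

end ALS
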