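import Pool.Agent.ALS.StG

/-!
# ALS: the number of trees if the middle part is connected (helper27)
-/

set_option autoImplicit false

namespace ALS

open Pool.ALT

theorem CRO_cl1 {γ y z : ℝ} (hγ : 0 ≤ γ) (h : ALZ.cl 0 γ y < ALZ.cl 0 γ z) : y ≤ γ := by
  by_contra hn
  push Not at hn
  unfold ALZ.cl at h
  rw [sub_zero, sub_zero, min_eq_left hn.le, max_eq_right hγ] at h
  have h1 : max 0 (min γ z) ≤ γ := max_le hγ (min_le_left _ _)
  linarith

theorem CRO_cl2 {lo γ y z : ℝ} (h : ALZ.cl lo γ y < ALZ.cl lo γ z) : lo ≤ z := by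
  by_contra hn
  push Not at hn
  unfold ALZ.cl at h
  have h1 : min γ (z - lo) ≤ 0 := le_trans (min_le_right _ _) (by linarith)
  rw [max_eq_left h1] at h
  have h2 : 0 ≤ max 0 (min γ (y - lo)) := le_max_left _ _
  linarith

theorem CRO_loop {V E : Type} [Fintype V] [DecidableEq E] (g : Gr V E) (e : E)
    (h : rg g {e} = 1) : g.u e ≠ g.v e := by
  intro huv
  have h1 : g.sp ⊥ {e} = ⊥ := by
    have h2 : g.sp ⊥ (insert e ∅) = g.sp ⊥ ∅ := by
      apply Gr.sp_insert_of
      rw [huv]
    rw [Gr.sp_empty] at h2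
    exact h2
  unfold rg at h
  rw [h1, nc_bot, Nat.card_eq_fintype_card] at h
  omega

/-- [CRO] the number of trees if the middle part is connected -/
theorem thm_CRO (hGRK : St_GRK) (hGPB : St_GPB) (hFIB : St_FIB) (hLVC : St_LVC)
    (hGS3 : St_GS3) : St_CRO := by
  classical
  intro V E _ _ _ g N ph R G w0 F hS hok hcur hR hcon hNL hNC hF hw0 hmid
  set X : Finset E := Finset.univ.filter fun e => ph (N.s e) ≤ R / 4 with hX
  set Y : Finset E := Finset.univ.filter fun e => 3 * R / 4 ≤ ph (N.t e) with hY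
  have mX : ∀ e, e ∈ X ↔ ph (N.s e) ≤ R / 4 := fun e => by
    rw [hX, Finset.mem_filter]
    exact ⟨fun h => h.2, fun h => ⟨Finset.mem_univ _, h⟩⟩
  have mY : ∀ e, e ∈ Y ↔ 3 * R / 4 ≤ ph (N.t e) := fun e => by
    rw [hY, Finset.mem_filter]
    exact ⟨fun h => h.2, fun h => ⟨Finset.mem_univ _, h⟩⟩
  have hup : ∀ e, ph (N.s e) ≤ ph (N.t e) := fun e => by
    have := hok.up e
    unfold ALZ.Nt.d at this
    linarith
  have hlt : ∀ e, ph (N.t e) < ph (N.s e) + 1 := fun e => by
    have := hcur e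
    unfold ALZ.Nt.d at this
    linarith
  have hfx : Disjoint F X := by
    rw [Finset.disjoint_left]
    intro e h1 h2
    have h3 := (hF e).1 h1
    have h4 := (mX e).1 h2
    linarith [h3.1]
  have hfy : Disjoint F Y := by
    rw [Finset.disjoint_left]
    intro e h1 h2
    have h3 := (hF e).1 h1
    have h4 := (mY e).1 h2
    linarith [h3.2]
  have hxy : Disjoint X Y := by
    rw [Finset.disjoint_left]
    intro e h1 h2
    have h3 := (mX e).1 h1
    have h4 := (mY e).1 h2
    have h5 := hlt e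
    linarith
  have hun : F ∪ X ∪ Y = Finset.univ := by
    rw [Finset.eq_univ_iff_forall]
    intro e
    rw [Finset.mem_union, Finset.mem_union, hF, mX, mY]
    by_cases h1 : ph (N.s e) ≤ R / 4
    · exact Or.inl (Or.inr h1)
    · by_cases h2 : 3 * R / 4 ≤ ph (N.t e)
      · exact Or.inr h2
      · push Not at h1 h2
        exact Or.inl (Or.inl ⟨h1, h2⟩)
  have hXc : R ≤ (X.card : ℝ) := by
    have h1 := hLVC V E N ph R 0 (R / 4) G X hok hcur le_rfl (by linarith) (by linarith)
      (fun e he => (mX e).2 (CRO_cl1 (by linarith) he))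
    linarith
  have hYc : R ≤ (Y.card : ℝ) := by
    have h1 := hLVC V E N ph R (3 * R / 4) (R / 4) G Y hok hcur (by linarith) (by linarith)
      (by linarith) (fun e he => (mY e).2 (CRO_cl2 he))
    linarith
  have hnx : X.Nonempty := by
    rw [← Finset.card_pos]
    have : (0 : ℝ) < X.card := by linarith
    exact_mod_cast this
  have hny : Y.Nonempty := by
    rw [← Finset.card_pos]
    have : (0 : ℝ) < Y.card := by linarith
    exact_mod_cast this
  -- the levels
  set lv : V → ℤ := fun x => if ph x ≤ R / 4 then -1 else if 3 * R / 4 ≤ ph x then 1 else 0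
    with hlv
  have lv1 : ∀ x, ph x ≤ R / 4 → lv x = -1 := fun x h => if_pos h
  have lv2 : ∀ x, 3 * R / 4 ≤ ph x → lv x = 1 := fun x h => by
    rw [hlv]
    simp only
    rw [if_neg (by linarith), if_pos h]
  have lv0 : ∀ x, R / 4 < ph x → ph x < 3 * R / 4 → lv x = 0 := fun x h1 h2 => by
    rw [hlv]
    simp only
    rw [if_neg (by linarith), if_neg (by linarith)]
  have lvm : ∀ x, lv x = 0 → R / 4 < ph x ∧ ph x < 3 * R / 4 := fun x h => by
    constructor
    · by_contra h1
      rw [lv1 x (not_lt.1 h1)] at h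
      omega
    · by_contra h2
      rw [lv2 x (not_lt.1 h2)] at h
      omega
  have lvle : ∀ x, ph x < 3 * R / 4 → lv x ≤ 0 := fun x h => by
    by_cases h1 : ph x ≤ R / 4
    · rw [lv1 x h1]
      norm_num
    · push Not at h1
      rw [lv0 x h1 h]
  have lvge : ∀ x, R / 4 < ph x → 0 ≤ lv x := fun x h => by
    by_cases h1 : 3 * R / 4 ≤ ph x
    · rw [lv2 x h1]
      norm_num
    · push Not at h1
      rw [lv0 x h h1]
  have hG := hGS3 V E g lv w0 F X Y (lv0 w0 hw0.1 hw0.2)
    (by
      intro e he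
      have h3 := (hF e).1 he
      have h4 := hup e
      have hs : lv (N.s e) = 0 := lv0 _ h3.1 (by linarith [h3.2])
      have ht : lv (N.t e) = 0 := lv0 _ (by linarith [h3.1]) h3.2
      rcases hS.ends e with ⟨h5, h6⟩ | ⟨h5, h6⟩
      · rw [← h5, ← h6]
        exact ⟨hs, ht⟩
      · rw [← h5, ← h6]
        exact ⟨ht, hs⟩)
    (by
      intro e he
      have h3 := (mX e).1 he
      have h4 := hlt e
      have hs : lv (N.s e) = -1 := lv1 _ h3
      have ht : lv (N.t e) ≤ 0 := lvle _ (by linarith)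
      rcases hS.ends e with ⟨h5, h6⟩ | ⟨h5, h6⟩
      · rw [← h5, ← h6]
        exact ⟨by omega, ht, Or.inl (by omega)⟩
      · rw [← h5, ← h6]
        exact ⟨ht, by omega, Or.inr (by omega)⟩)
    (by
      intro e he
      have h3 := (mY e).1 he
      have h4 := hlt e
      have ht : lv (N.t e) = 1 := lv2 _ h3
      have hs : 0 ≤ lv (N.s e) := lvge _ (by linarith)
      rcases hS.ends e with ⟨h5, h6⟩ | ⟨h5, h6⟩
      · rw [← h5, ← h6]
        exact ⟨hs, by omega, Or.inr (by omega)⟩
      · rw [← h5, ← h6]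
        exact ⟨by omega, hs, Or.inl (by omega)⟩)
    (by
      intro x hx
      obtain ⟨h1, h2⟩ := lvm x hx
      exact hmid x h1 h2)
    (fun e => CRO_loop g e (hNL e (Finset.mem_univ e)))
  have hFb : Fb (rg g) F X Y :=
    { fx := hfx
      fy := hfy
      xy := hxy
      nx := hnx
      ny := hny
      nl := by rw [hun]; exact hNL
      nc := by rw [hun]; exact hNC
      sm := hG.1
      lp := hG.2 }
  have hfib := hFIB E (rg g) F X Y (min X.card Y.card) (hGRK V E g).1 hFb (min_le_left _ _)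
    (min_le_right _ _)
  rw [hun, ← hGPB V E g hcon] at hfib
  have hcard : Fintype.card E = F.card + X.card + Y.card := by
    rw [← Finset.card_univ, ← hun, Finset.card_union_of_disjoint, Finset.card_union_of_disjoint hfx]
    rw [Finset.disjoint_union_left]
    exact ⟨hfy, hxy⟩
  have hm : R ≤ ((min X.card Y.card : ℕ) : ℝ) := by
    rw [Nat.cast_min]
    exact le_min hXc hYc
  have hfibR : (X.card : ℝ) * Y.card + ((min X.card Y.card : ℕ) : ℝ) * F.card ≤
      (g.p ⊥ Finset.univ : ℝ) := by exact_mod_cast hfib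
  rw [hcard]
  push_cast
  have hF0 : (0 : ℝ) ≤ F.card := Nat.cast_nonneg _
  have k1 : R * F.card ≤ ((min X.card Y.card : ℕ) : ℝ) * F.card :=
    mul_le_mul_of_nonneg_right hm hF0
  have k2 : R * (Y.card : ℝ) ≤ (X.card : ℝ) * Y.card :=
    mul_le_mul_of_nonneg_right hXc (Nat.cast_nonneg _)
  have k3 : (X.card : ℝ) * R ≤ (X.card : ℝ) * Y.card :=
    mul_le_mul_of_nonneg_left hYc (Nat.cast_nonneg _)
  have k4 : 0 ≤ R * F.card := mul_nonneg (by linarith) hF0
  nlinarith

end ALS
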