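import Pool.Agent.ALS.St

/-! # ALS, case B (helper19) -/

set_option autoImplicit false

namespace ALS

theorem thm_CSB (hBDC : St_BDC) (hBLC : St_BLC) (hCNC : St_CNC) (hBNC : St_BNC) (hBN2 : St_BN2)
    (hRK3 : St_RK3) (hNU2 : St_NU2) (hONE : St_ONE) : St_CSB := by
  intro α _ r o S f hr hb hL hNS hf hco hcf
  have h3 := hRK3 α r o S hr hb hL
  have hn := hNU2 α r o S hr hb hL
  obtain ⟨hnl, hnc⟩ := hCNC α r S hr hL.c1 hL.two
  have hfl := hnl f hf
  have hfe := hnc f hf
  have h1 := hBDC α r S f hr hf hfl hfe
  have hcard : (S.erase f).card + 1 = S.card := Finset.card_erase_add_one hf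
  have hrf : ct r {f} (S.erase f) + r {f} = r S := by
    have h := hr.ct1 f (S.erase f)
    rwa [Finset.insert_erase hf] at h
  have h2 := hBN2 α (ct r {f}) (S.erase f) (hr.ctr {f}) hcf (by omega) (by omega)
  have h4 : (S.erase f).card ≤ bs r (S.erase f) + 1 := by
    have hnlE : NL r (S.erase f) := fun x hx => hnl x (Finset.mem_of_mem_erase hx)
    by_cases hncE : NC r (S.erase f)
    · have h := hBNC α r _ hr hnlE hncE
      omega
    · unfold NC at hncE
      push Not at hncE
      obtain ⟨g, hg, hgr⟩ := hncE
      have hgl : r ((S.erase f).erase g) < r (S.erase f) := lt_of_le_of_ne (hr.er_le _ _) hgr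
      have hcg : ((S.erase f).erase g).card + 1 = (S.erase f).card := Finset.card_erase_add_one hg
      have h5 := (hBLC α r (S.erase f) g hr hg).2 hgl
      have hnlD : NL r ((S.erase f).erase g) := fun x hx => hnlE x (Finset.mem_of_mem_erase hx)
      have hncD : NC r ((S.erase f).erase g) := by
        intro y hy
        by_contra hne
        have hyl : r (((S.erase f).erase g).erase y) < r ((S.erase f).erase g) :=
          lt_of_le_of_ne (hr.er_le _ _) hne
        obtain ⟨hyg, hyE⟩ := Finset.mem_erase.1 hy
        have h6 : r ((S.erase f).erase y) ≤ r (((S.erase f).erase g).erase y) + 1 := by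
          have h7 := hr.er ((S.erase f).erase y) g
          rwa [Finset.erase_right_comm (s := S.erase f) (a := y) (b := g)] at h7
        have h8 : r ((S.erase f).erase y) < r S := by omega
        exact hyg (hONE α r o S f hr hb hL hNS hf hco g hg y hyE (by omega) h8).symm
      have h9 := hBNC α r _ hr hnlD hncD
      omega
  omega

end ALS
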