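import Mathlib

/-!
# ALS: rank functions on finite sets, numbers of bases (size block of ALT, MP_42db45_gt)
-/

set_option autoImplicit false

namespace ALS

variable {α : Type} [DecidableEq α]

/-- rank functions -/
structure Rk (r : Finset α → ℕ) : Prop where
  r0 : r ∅ = 0
  up : ∀ A x, r (insert x A) ≤ r A + 1
  mono : ∀ A B, A ⊆ B → r A ≤ r B
  sub : ∀ A B, r (A ∪ B) + r (A ∩ B) ≤ r A + r B

/-- in rank two over `Q` there are at most three parallel classes -/
def Bin (r : Finset α → ℕ) : Prop := ∀ (Q : Finset α) (x y z w : α),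
  r Q < r (insert x Q) → r Q < r (insert y Q) → r Q < r (insert z Q) → r Q < r (insert w Q) →
  r (insert x (insert y (insert z (insert w Q)))) ≤ r Q + 2 →
  r (insert x (insert y Q)) ≤ r Q + 1 ∨ r (insert x (insert z Q)) ≤ r Q + 1 ∨
  r (insert x (insert w Q)) ≤ r Q + 1 ∨ r (insert y (insert z Q)) ≤ r Q + 1 ∨
  r (insert y (insert w Q)) ≤ r Q + 1 ∨ r (insert z (insert w Q)) ≤ r Q + 1

/-- contraction of `Q` -/
def ct (r : Finset α → ℕ) (Q A : Finset α) : ℕ := r (A ∪ Q) - r Q

/-- connected -/
def Con (r : Finset α → ℕ) (S : Finset α) : Prop :=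
  S.Nonempty ∧ ∀ X, X ⊆ S → X.Nonempty → X ≠ S → r S < r X + r (S \ X)

/-- number of bases -/
def bs (r : Finset α → ℕ) (S : Finset α) : ℕ :=
  (S.powerset.filter fun A => A.card = r S ∧ r A = r S).card

/-- no loops -/
def NL (r : Finset α → ℕ) (S : Finset α) : Prop := ∀ x ∈ S, r {x} = 1

/-- no coloops -/
def NC (r : Finset α → ℕ) (S : Finset α) : Prop := ∀ x ∈ S, r (S.erase x) = r S

/-- no parallel pairs -/
def NP (r : Finset α → ℕ) (S : Finset α) : Prop := ∀ x ∈ S, ∀ y ∈ S, x ≠ y → r {x, y} = 2

/-- `S` with the extra element `o` is a leaf: deletion and contraction of `o` are connected -/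
structure Lf (r : Finset α → ℕ) (o : α) (S : Finset α) : Prop where
  nm : o ∉ S
  two : 2 ≤ S.card
  ro : r {o} = 1
  cl : r (insert o S) = r S
  c1 : Con r S
  c2 : Con (ct r {o}) S

/-- no series pairs in `S` with the extra element `o` -/
def NS (r : Finset α → ℕ) (o : α) (S : Finset α) : Prop :=
  ∀ x ∈ S, ∀ y ∈ S, x ≠ y → r (insert o ((S.erase x).erase y)) = r S

/-- dual rank function on `U` -/
def dl (r : Finset α → ℕ) (U A : Finset α) : ℕ := (A ∩ U).card + r (U \ A) - r U

namespace Rk

variable {r : Finset α → ℕ} (h : Rk r)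
include h

theorem un (A B : Finset α) : r (A ∪ B) ≤ r A + r B := by
  have := h.sub A B
  omega

theorem le_card (A : Finset α) : r A ≤ A.card := by
  induction A using Finset.induction_on with
  | empty => simp [h.r0]
  | insert x A hx ih =>
    rw [Finset.card_insert_of_notMem hx]
    have := h.up A x
    omega

theorem sgl (x : α) : r {x} ≤ 1 := by
  have := h.le_card {x}
  simpa using this

theorem ge_ins (A : Finset α) (x : α) : r A ≤ r (insert x A) :=
  h.mono _ _ (Finset.subset_insert x A)

theorem er (S : Finset α) (x : α) : r S ≤ r (S.erase x) + 1 := by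
  by_cases hx : x ∈ S
  · have h1 := h.up (S.erase x) x
    rw [Finset.insert_erase hx] at h1
    exact h1
  · rw [Finset.erase_eq_of_notMem hx]
    omega

theorem er_le (S : Finset α) (x : α) : r (S.erase x) ≤ r S :=
  h.mono _ _ (Finset.erase_subset x S)

/-- diminishing returns -/
theorem dim (A B : Finset α) (x : α) (hAB : A ⊆ B) :
    r (insert x B) + r A ≤ r B + r (insert x A) := by
  by_cases hx : x ∈ B
  · rw [Finset.insert_eq_of_mem hx]
    have := h.ge_ins A x
    omega
  · have h1 := h.sub B (insert x A)
    have h2 : B ∪ insert x A = insert x B := by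
      ext y
      simp only [Finset.mem_union, Finset.mem_insert]
      constructor
      · rintro (h3 | h3 | h3)
        · exact Or.inr h3
        · exact Or.inl h3
        · exact Or.inr (hAB h3)
      · rintro (h3 | h3)
        · exact Or.inr (Or.inl h3)
        · exact Or.inl h3
    have h3 : B ∩ insert x A = A := by
      ext y
      simp only [Finset.mem_inter, Finset.mem_insert]
      constructor
      · rintro ⟨h4, h5 | h5⟩
        · subst h5
          exact absurd h4 hx
        · exact h5
      · intro h4
        exact ⟨hAB h4, Or.inr h4⟩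
    rw [h2, h3] at h1
    exact h1

/-- an element in the closure of `A` is in the closure of every larger set -/
theorem clo (A B : Finset α) (x : α) (hAB : A ⊆ B) (hx : r (insert x A) ≤ r A) :
    r (insert x B) = r B := by
  have h1 := h.dim A B x hAB
  have h2 := h.ge_ins B x
  omega

/-- contraction is again a rank function -/
theorem ctr (Q : Finset α) : Rk (ct r Q) where
  r0 := by simp [ct]
  up := by
    intro A x
    have h1 := h.up (A ∪ Q) x
    have h2 : insert x A ∪ Q = insert x (A ∪ Q) := Finset.insert_union x A Q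
    unfold ct
    rw [h2]
    omega
  mono := by
    intro A B hAB
    have h1 := h.mono (A ∪ Q) (B ∪ Q) (Finset.union_subset_union_left hAB)
    unfold ct
    omega
  sub := by
    intro A B
    have h1 := h.sub (A ∪ Q) (B ∪ Q)
    have h2 : A ∪ Q ∪ (B ∪ Q) = A ∪ B ∪ Q := by
      ext y
      simp only [Finset.mem_union]
      tauto
    have h3 : (A ∪ Q) ∩ (B ∪ Q) = (A ∩ B) ∪ Q := by
      ext y
      simp only [Finset.mem_union, Finset.mem_inter]
      tauto
    rw [h2, h3] at h1
    have h4 := h.mono Q (A ∪ Q) Finset.subset_union_right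
    have h5 := h.mono Q (B ∪ Q) Finset.subset_union_right
    have h6 := h.mono Q (A ∪ B ∪ Q) Finset.subset_union_right
    have h7 := h.mono Q ((A ∩ B) ∪ Q) Finset.subset_union_right
    unfold ct
    omega

/-- value of the contraction -/
theorem ct_add (Q A : Finset α) : ct r Q A + r Q = r (A ∪ Q) := by
  have h4 := h.mono Q (A ∪ Q) Finset.subset_union_right
  unfold ct
  omega

/-- contraction of one element -/
theorem ct1 (f : α) (A : Finset α) : ct r {f} A + r {f} = r (insert f A) := by
  have h1 := h.ct_add {f} A
  rw [h1]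
  congr 1
  ext y
  simp only [Finset.mem_union, Finset.mem_singleton, Finset.mem_insert]
  tauto

/-- iterated contraction -/
theorem ctct (Q P : Finset α) : ct (ct r Q) P = ct r (Q ∪ P) := by
  funext A
  have h1 := h.ct_add Q (A ∪ P)
  have h2 := h.ct_add Q P
  have h3 := h.ct_add (Q ∪ P) A
  have h4 := (h.ctr Q).ct_add P A
  have h5 : A ∪ P ∪ Q = A ∪ (Q ∪ P) := by
    ext y
    simp only [Finset.mem_union]
    tauto
  have h6 : P ∪ Q = Q ∪ P := Finset.union_comm P Q
  rw [h5] at h1
  rw [h6] at h2
  omega

end Rk

/-- contraction preserves the binary property -/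
theorem Bin.ctr {r : Finset α → ℕ} (h : Rk r) (hb : Bin r) (Q : Finset α) : Bin (ct r Q) := by
  intro P x y z w hx hy hz hw ha
  have e : ∀ (v : α) (A : Finset α), insert v A ∪ Q = insert v (A ∪ Q) :=
    fun v A => Finset.insert_union v A Q
  have k : ∀ A, ct r Q A + r Q = r (A ∪ Q) := h.ct_add Q
  have k0 := k P
  have k1 := k (insert x P)
  have k2 := k (insert y P)
  have k3 := k (insert z P)
  have k4 := k (insert w P)
  have k5 := k (insert x (insert y (insert z (insert w P))))
  have k6 := k (insert x (insert y P))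
  have k7 := k (insert x (insert z P))
  have k8 := k (insert x (insert w P))
  have k9 := k (insert y (insert z P))
  have k10 := k (insert y (insert w P))
  have k11 := k (insert z (insert w P))
  simp only [e] at k1 k2 k3 k4 k5 k6 k7 k8 k9 k10 k11
  have h1 := hb (P ∪ Q) x y z w (by omega) (by omega) (by omega) (by omega) (by omega)
  omega

end ALS
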