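import Pool.Agent.ALS.ALL
import Pool.Agent.ALT.Tu.All

/-!
# ALS: the size block without hypotheses, in the form of the glue
-/

set_option autoImplicit false

namespace Pool.ALT

/-- the size fields -/
theorem all_SZ : St_SZ := ALS.sz all_FN all_PQ

/-- the field z3 -/
theorem all_Z3 : St_Z3 := ALS.z3a all_FN all_PQ

/-- the lower bound for `z` -/
theorem all_ZFN : ALZ.St_ZFN := ALZ.zfn

end Pool.ALT
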