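import Pool.Agent.ALS.Defs

/-!
# ALS: frozen statements, abstract part (rank functions)

The docstrings contain complete proofs. Basic facts (all proved in `Defs.lean`): `Rk.un`, `Rk.le_card`,
`Rk.sgl`, `Rk.ge_ins`, `Rk.er`, `Rk.er_le`, `Rk.dim`, `Rk.clo`, `Rk.ctr`, `Rk.ct_add`, `Rk.ct1`, `Rk.ctct`,
`Bin.ctr`. `n = S.card`, `ρ = r S`; `r/Q = ct r Q`.
-/

set_option autoImplicit false

namespace ALS

/-! ## Numbers of bases -/

/-- [BDC] (0.8 h) deletion and contraction. Hypotheses: none.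
Proof. Split the bases `A` of `S` (`A.card = r S`, `r A = r S`) into those with `f ∉ A` (exactly the bases of
`S.erase f`, as `r (S.erase f) = r S`) and those with `f ∈ A`: `A ↦ A.erase f` is a bijection onto the bases `B`
of `S.erase f` for `r/f`: `(r/f) (S.erase f) = r S - 1` and `(r/f) B = r (insert f B) - 1` ([Rk.ct1]). -/
def St_BDC : Prop := ∀ (α : Type) [DecidableEq α] (r : Finset α → ℕ) (S : Finset α) (f : α),
  Rk r → f ∈ S → r {f} = 1 → r (S.erase f) = r S →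
  bs r S = bs r (S.erase f) + bs (ct r {f}) (S.erase f)

/-- [BLC] (0.7 h) loops and coloops. Hypotheses: none.
Proof. (1) no basis contains a loop `f` (`A.card = r A = r (A.erase f) ≤ A.card - 1`), and `r (S.erase f) = r S`
([Rk.clo]). (2) every basis contains a coloop `f` (otherwise `A ⊆ S.erase f`, `r A < r S`); `A ↦ A.erase f` is a
bijection onto the bases `B` of `S.erase f` (`r (insert f B) = r B + 1`: by [Rk.dim]
`r S + r B ≤ r (S.erase f) + r (insert f B)`). -/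
def St_BLC : Prop := ∀ (α : Type) [DecidableEq α] (r : Finset α → ℕ) (S : Finset α) (f : α),
  Rk r → f ∈ S → (r {f} = 0 → bs r S = bs r (S.erase f)) ∧
  (r (S.erase f) < r S → bs r S = bs r (S.erase f))

/-- [BSP] (1 h) direct sums. Hypotheses: none.
Proof. `r (X ∪ Y) = r X + r Y` ([Rk.un]). `A ↦ (A ∩ X, A ∩ Y)` is a bijection from the bases of `X ∪ Y` to the pairs of
bases: if `A` is a basis, `A.card = r A ≤ r (A ∩ X) + r (A ∩ Y)`, `r (A ∩ X) ≤ (A ∩ X).card` and `≤ r X`, in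
the same way for `Y`, and `A.card = r X + r Y`, so all are equalities. Conversely `B ⊆ X`, `C ⊆ Y` bases:
`(B ∪ C).card = r X + r Y`, `r (B ∪ C) = r (X ∪ Y)`: `r (X ∪ C) = r (X ∪ Y)` (add the elements of `Y`: each is
in the closure of `C`), `r (B ∪ C) = r (X ∪ C)` in the same way. (Closure: if `B ⊆ X`, `r B = r X`, then
`r (B ∪ Z) = r (X ∪ Z)` by `sub` for `B ∪ Z` and `X`.) -/
def St_BSP : Prop := ∀ (α : Type) [DecidableEq α] (r : Finset α → ℕ) (X Y : Finset α),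
  Rk r → Disjoint X Y → r X + r Y ≤ r (X ∪ Y) → bs r (X ∪ Y) = bs r X * bs r Y

/-- [BMI] (0.8 h) bases of minors. Hypotheses: none.
Proof. (1) a maximal `A ⊆ S` with `r A = A.card` is a basis (if `r A < r S`, some `x ∈ S` has `r (insert x A) =
r A + 1`: otherwise `r S = r A` by [Rk.clo] and induction). (2) let `B ⊆ Q` be a basis of `Q` (by (1)); `A ↦ A ∪ B`
is an injection from the bases of `T` for `r/Q` to the bases of `Q ∪ T` for `r`: `(A ∪ B).card = (r/Q) T + r Q =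
r (T ∪ Q)`, `r (A ∪ B) = r (A ∪ Q)` (closure, `sub` for `A ∪ B` and `Q`) `= (r/Q) A + r Q`. -/
def St_BMI : Prop := ∀ (α : Type) [DecidableEq α] (r : Finset α → ℕ), Rk r →
  (∀ S, 1 ≤ bs r S) ∧ ∀ Q T, Disjoint Q T → bs (ct r Q) T ≤ bs r (Q ∪ T)

/-- [TUT] (1 h) Tutte's theorem. Hypotheses: none.
Proof. Let `f ∈ S`, `E = S.erase f` (not empty). First: `r {f} = 1` (otherwise `X = {f}` contradicts `Con r S`:
`r S < r {f} + r E`, `r E ≤ r S`) and `r E = r S` (the same inequality). Suppose both fail: `E = X1 ∪ X2`, `E = Y1 ∪ Y2`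
(disjoint, not empty) with `r X1 + r X2 ≤ r S` and `r (Y1 + f) + r (Y2 + f) ≤ r S + 1`. Submodularity:
`r X1 + r (Y1 + f) ≥ r (X1 ∪ Y1 + f) + r (X1 ∩ Y1)`, `r X2 + r (Y2 + f) ≥ r (X2 ∪ Y2 + f) + r (X2 ∩ Y2)`. The sets
`X1 ∪ Y1 + f` and `X2 ∩ Y2` are complementary in `S`, so (`Con r S`) `r (X1 ∪ Y1 + f) + r (X2 ∩ Y2) ≥ r S + [X2 ∩ Y2 ≠ ∅]`,
and in the same way `r (X2 ∪ Y2 + f) + r (X1 ∩ Y1) ≥ r S + [X1 ∩ Y1 ≠ ∅]`. The total is `≤ 2 r S + 1`, so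
`X1 ∩ Y1 = ∅` or `X2 ∩ Y2 = ∅`. Exchanging `Y1`, `Y2`: `X1 ∩ Y2 = ∅` or `X2 ∩ Y1 = ∅`. In all four cases one of
`X1, X2, Y1, Y2` is empty. -/
def St_TUT : Prop := ∀ (α : Type) [DecidableEq α] (r : Finset α → ℕ) (S : Finset α) (f : α),
  Rk r → Con r S → f ∈ S → 2 ≤ S.card → Con r (S.erase f) ∨ Con (ct r {f}) (S.erase f)

/-- [CNC] (0.4 h) a connected set with at least two elements has no loops and no coloops. Hypotheses: none.
Proof. `Con r S` for `X = {x}`: `r S < r {x} + r (S.erase x)`, `r {x} ≤ 1`, `r (S.erase x) ≤ r S`. -/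
def St_CNC : Prop := ∀ (α : Type) [DecidableEq α] (r : Finset α → ℕ) (S : Finset α),
  Rk r → Con r S → 2 ≤ S.card → NL r S ∧ NC r S

/-- [BCN] (0.7 h) Hypotheses: `St_BDC`, `St_BMI`, `St_TUT`, `St_CNC`.
Proof. Induction on `S.card` for all `r`. `S.card = 1`: `bs ≥ 1` ([BMI]). `S.card ≥ 2`: choose `f ∈ S`; [CNC], [BDC]:
`bs r S = bs r (S.erase f) + bs (r/f) (S.erase f)`; one of the two sets is connected ([TUT]), its number is
`≥ S.card - 1`, the other one is `≥ 1` ([BMI]). -/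
def St_BCN : Prop := ∀ (α : Type) [DecidableEq α] (r : Finset α → ℕ) (S : Finset α),
  Rk r → Con r S → S.card ≤ bs r S

/-- [BNC] (0.8 h) Hypotheses: `St_BMI`, `St_BSP`, `St_BCN`.
Proof. Strong induction on `S.card`. `S = ∅`: clear. `Con r S`: [BCN]. Otherwise there is `X ⊆ S`, not empty, `≠ S`, with
`r X + r (S \ X) ≤ r S`. `X` has no loops and no coloops: if `r (X.erase x) < r X` then `r (S.erase x) ≤ r (X.erase x) +
r (S \ X) < r S`. In the same way `Y = S \ X`. `X.card ≥ 2` (`X = {x}` has the coloop `x`: `r ∅ = 0 < r {x}`),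
`Y.card ≥ 2`. [BSP]: `bs r S = bs r X * bs r Y ≥ X.card * Y.card ≥ X.card + Y.card`. -/
def St_BNC : Prop := ∀ (α : Type) [DecidableEq α] (r : Finset α → ℕ) (S : Finset α),
  Rk r → NL r S → NC r S → S.card ≤ bs r S

/-- [BR2] (0.7 h) no coloops. Hypotheses: `St_BLC`, `St_BNC`.
Proof. Induction on `S.card`. If there is a loop `x ∈ S`, `S.erase x` has no coloops (`r (A.erase x) = r A` for all `A`
by [Rk.clo]), the same rank, the same `bs` ([BLC]). Otherwise [BNC]: `S.card ≤ bs r S`, and `S.card > r S`: if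
`S.card = r S ≥ 1`, take `x ∈ S`: `r (S.erase x) ≤ S.card - 1 < r S`. -/
def St_BR2 : Prop := ∀ (α : Type) [DecidableEq α] (r : Finset α → ℕ) (S : Finset α),
  Rk r → NC r S → (1 ≤ r S → 2 ≤ bs r S) ∧ (2 ≤ r S → 3 ≤ bs r S)

/-- [BN1] (0.7 h) no loops, `S.card > r S`. Hypotheses: `St_BLC`, `St_BNC`.
Proof. Induction on `S.card`. If there is a coloop `x ∈ S` (`r (S.erase x) < r S`, so `= r S - 1`), pass to
`S.erase x` (`r (S.erase x) < (S.erase x).card`, the same `bs` by [BLC]). Otherwise [BNC]: `S.card ≤ bs r S`; `S ≠ ∅`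
has no loops, so `r S ≥ 1`, `S.card ≥ 2`. If `r S = 1` there are `x ≠ y` in `S` with `r {x, y} ≤ 1`, which
contradicts `NP`; so with `NP` `r S ≥ 2`, `S.card ≥ 3`. -/
def St_BN1 : Prop := ∀ (α : Type) [DecidableEq α] (r : Finset α → ℕ) (S : Finset α),
  Rk r → NL r S → r S < S.card → 2 ≤ bs r S ∧ (NP r S → 3 ≤ bs r S)

/-- [BN2] (1.2 h) Hypotheses: `St_BDC`, `St_BLC`, `St_TUT`, `St_CNC`, `St_BCN`, `St_BNC`, `St_BR2`, `St_BN1`.
Proof. Induction on `n = S.card` for all `r`. `S` has no loops and no coloops ([CNC]). Take `f ∈ S`, [BDC], [TUT].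
`E = S.erase f`. CASE 1: `Con r E`. `r E = ρ`. `r/f` has no coloops on `E`, rank `ρ - 1 ≥ 1`: `bs (r/f) E ≥ 2` ([BR2]). If
`ρ + 2 ≤ n - 1`: induction, `bs r E ≥ 2 (n-1) - 3`. If `n - 1 = ρ + 1`: `bs r E ≥ n - 1` ([BCN]); every non empty
`A ⊆ E`, `A ≠ E` has `r A = A.card` (`Con r E`: `r A + r (E \ A) ≥ ρ + 1 = E.card`), so at most one `x ∈ E` has
`r {x, f} = 1` (two such `x ≠ y`: `r {x, y} ≤ r {x, y, f} = 1`, but `{x, y} ≠ E` as `E.card ≥ 3`). Remove this loop of `r/f`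
if it exists ([BLC]); the rest has no loops and no coloops for `r/f`, so `bs (r/f) E ≥ n - 2` ([BNC]). Sum `≥ 2n - 3`.
CASE 2: `Con (r/f) E`. `bs r E ≥ 2` ([BN1]: `r E = ρ < n - 1`). If `ρ - 1 ≥ 2`: induction (rank `ρ - 1`, `n - 1`
elements): `bs (r/f) E ≥ 2 (n-1) - 3`. If `ρ = 2`: `bs (r/f) E ≥ n - 1` ([BCN]). `bs r E ≥ n - 2`: if `E` has no
coloops [BNC]; if `x` is a coloop of `E` pass to `D = E.erase x` ([BLC]), `r D = 1`, `D.card ≥ 2`, no loops, no coloops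
(`r (D.erase y) ≥ 1` because `D.erase y` is not empty), [BNC]. -/
def St_BN2 : Prop := ∀ (α : Type) [DecidableEq α] (r : Finset α → ℕ) (S : Finset α),
  Rk r → Con r S → 2 ≤ r S → r S + 2 ≤ S.card → 2 * S.card ≤ bs r S + 3

/-! ## Leaves -/

/-- [RK3] (0.8 h) a leaf has rank at least three. Hypotheses: `St_CNC`.
Proof. For `x ∈ S` `r {x} = 1` and `(r/o) {x} = 1`, so `r {x, o} = 2`, and `ρ = r (insert o S) ≥ 2`. Suppose `ρ = 2`. Fix
`x ∈ S`, `X = {y ∈ S | r {x, y} ≤ 1}`, `Y = S \ X`. `r X ≤ 1`: for `A ⊆ X` `r (insert x A) ≤ 1` by induction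
([Rk.clo] for `{x} ⊆ insert x A`). `Y ≠ ∅` (otherwise `ρ ≤ 1`); fix `y0 ∈ Y`. For `y ∈ Y`, `y ≠ y0`: `Bin` with `Q = ∅` and
`o, x, y0, y`: the pairs `{o, x}, {o, y0}, {o, y}, {x, y0}, {x, y}` have rank 2, so `r {y0, y} ≤ 1`. So
`r Y ≤ 1`, `r X + r Y ≤ 2 = ρ`, contradiction to `Con r S`. -/
def St_RK3 : Prop := ∀ (α : Type) [DecidableEq α] (r : Finset α → ℕ) (o : α) (S : Finset α),
  Rk r → Bin r → Lf r o S → 3 ≤ r S

/-- [DLK] (0.8 h) the dual rank function. Hypotheses: none.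
Proof. `Rk`: `r (U \ A) ≤ r (U \ B) + ((B \ A) ∩ U).card` for `A ⊆ B`; `U \ (A ∪ B) = (U \ A) ∩ (U \ B)`,
`U \ (A ∩ B) = (U \ A) ∪ (U \ B)`. `Bin`: let `Q*, x, y, z, w` satisfy the hypotheses for `dl r U`. If two of the four are equal
the conclusion holds for this pair. They are not in `Q*` and are in `U` (`insert` does not increase the value otherwise). `T =
{x, y, z, w}`, `Q = U \ (Q* ∪ T)`; for `A ⊆ T`: `dl (Q* ∪ A) = (Q* ∩ U).card + A.card + r (Q ∪ (T \ A)) - r U`. From the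
hypotheses `r (Q ∪ T) ≥ r Q + 2`. If the conclusion is false, `r (Q ∪ {two elements}) = r (Q ∪ T)` for all pairs, so
`r (Q ∪ T) = r Q + 2`, all `r (Q ∪ {x}) = r Q + 1`, which contradicts `Bin r` for `Q, x, y, z, w`. -/
def St_DLK : Prop := ∀ (α : Type) [DecidableEq α] (r : Finset α → ℕ) (U : Finset α),
  Rk r → Rk (dl r U) ∧ (Bin r → Bin (dl r U))

/-- [DLL] (0.8 h) the dual of a leaf is a leaf. Hypotheses: `St_DLK`.
`U = insert o S`, `r U = ρ`, `U.card = n + 1`, `d = dl r U`. Proof. `d {o} = 1 + r S - ρ = 1`. `d U = n + 1 - ρ`,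
`d S = n + r {o} - ρ = n + 1 - ρ`. For `X ⊆ S`: `d X = X.card + r (insert o (S \ X)) - ρ`, so `Con d S` is
`n + 1 - ρ < n + r (insert o (S \ X)) + r (insert o X) - 2 ρ`, i.e. `ρ + 1 < r (insert o X) + r (insert o (S \ X))`, which is
`Con (r/o) S` (`(r/o) A = r (insert o A) - 1`). `(d/o) X = d (insert o X) - 1 = X.card + r (S \ X) - ρ`, so `Con (d/o) S` is
`n - ρ < n + r (S \ X) + r X - 2 ρ`, i.e. `Con r S`. -/
def St_DLL : Prop := ∀ (α : Type) [DecidableEq α] (r : Finset α → ℕ) (o : α) (S : Finset α),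
  Rk r → Lf r o S → Lf (dl r (insert o S)) o S ∧ dl r (insert o S) S + r S = S.card + 1

/-- [NU2] (0.2 h) Hypotheses: `St_RK3`, `St_DLK`, `St_DLL`. Proof: [RK3] for the dual. -/
def St_NU2 : Prop := ∀ (α : Type) [DecidableEq α] (r : Finset α → ℕ) (o : α) (S : Finset α),
  Rk r → Bin r → Lf r o S → r S + 2 ≤ S.card

/-- [ONE] (0.7 h) at most one coloop. Hypotheses: `St_CNC`, `St_RK3`, `St_NU2`.
Proof. `n ≥ 5`. Suppose `g ≠ g'`. `r (S.erase f) = r (S.erase g) = r (S.erase g') = ρ` ([CNC]).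
`Q = S \ {f, g, g'}`: `r (Q + g') = r (Q + g) = ρ - 1`, `r (Q + g + g') = ρ`, so by [Rk.dim] `r Q ≤ ρ - 2`, and
`r Q ≥ ρ - 2`. `r (Q + f + g) = r (S.erase g') = ρ`, `r (Q + f + g') = ρ`. `(r/o)` has no coloops on `S.erase f` ([CNC],
`n - 1 ≥ 2`): `r (Q + g' + o) = r (Q + g + o) = r (insert o (S.erase f)) = ρ`, so `r (Q + o) ≥ ρ - 1`. `r (Q + f) ≥ ρ - 1`
(`r (Q + f + g) = ρ`). All ranks over `Q` are `≤ r (insert o S) = ρ = r Q + 2`. `Bin` for `Q, f, g, g', o`: the only possible pair is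
`f, o`: `r (Q + f + o) ≤ ρ - 1`, but `Q + f = (S.erase g).erase g'`, contradiction to `NS`. -/
def St_ONE : Prop := ∀ (α : Type) [DecidableEq α] (r : Finset α → ℕ) (o : α) (S : Finset α)
  (f : α), Rk r → Bin r → Lf r o S → NS r o S → f ∈ S → Con (ct r {o}) (S.erase f) →
  ∀ g ∈ S.erase f, ∀ g' ∈ S.erase f, r ((S.erase f).erase g) < r S →
    r ((S.erase f).erase g') < r S → g = g'

/-- [CSA] (0.8 h) case A. Hypotheses: `St_BDC`, `St_BSP`, `St_CNC`, `St_BCN`, `St_BNC`.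
Proof. `E = S.erase f`. `bs r S = bs r E + bs (r/f) E`, `bs r E ≥ n - 1` ([BCN]). `E` is not connected for `r' = r/f`: `X ⊆ E`
not empty, `≠ E`, `r' X + r' (E \ X) ≤ r' E`. `E` has no loops for `r'` (`NP`: `r' {x} = r {x, f} - 1 = 1`) and no
coloops (`r' (E.erase x) = r (S.erase x) - 1 = ρ - 1 = r' E`; `n ≥ 3` as `X ≠ E`), so `X` and `Y = E \ X` have no loops
and no coloops (as in [BNC]), `X.card ≥ 2`, `Y.card ≥ 2`, `bs r' E = bs r' X * bs r' Y ≥ X.card * Y.card ≥ 2 (n - 3)`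
([BSP], [BNC]; `(X.card - 2)(Y.card - 2) ≥ 0`). Sum `≥ 3n - 7`. -/
def St_CSA : Prop := ∀ (α : Type) [DecidableEq α] (r : Finset α → ℕ) (S : Finset α) (f : α),
  Rk r → Con r S → 2 ≤ S.card → NP r S → f ∈ S → Con r (S.erase f) →
  ¬ Con (ct r {f}) (S.erase f) → 3 * S.card ≤ bs r S + 7

/-- [CSB] (0.8 h) case B. Hypotheses: `St_BDC`, `St_BLC`, `St_CNC`, `St_BNC`, `St_BN2`, `St_RK3`, `St_NU2`, `St_ONE`.
Proof. `E = S.erase f`, `bs r S = bs r E + bs (r/f) E` ([CNC], [BDC]). `r/f` on `E`: connected, rank `ρ - 1 ≥ 2` ([RK3]), `ρ - 1 + 2 ≤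
n - 1` ([NU2]): `bs (r/f) E ≥ 2 (n - 1) - 3` ([BN2]). `bs r E ≥ n - 2`: `E` has no loops. If `E` has no coloops
[BNC]. Otherwise let `g` be a coloop of `E` (`r (E.erase g) < r E = ρ`), `D = E.erase g`, `bs r E = bs r D` ([BLC]); `D` has no
coloops: `r (D.erase y) < r D` gives `r (E.erase y) ≤ r (D.erase y) + 1 ≤ r D < r E`, so `y` is a coloop of `E`, `y ≠ g`,
contradiction to [ONE]. [BNC]: `bs r D ≥ n - 2`. -/
def St_CSB : Prop := ∀ (α : Type) [DecidableEq α] (r : Finset α → ℕ) (o : α) (S : Finset α)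
  (f : α), Rk r → Bin r → Lf r o S → NS r o S → f ∈ S → Con (ct r {o}) (S.erase f) →
  Con (ct r {f}) (S.erase f) → 3 * S.card ≤ bs r S + 7

/-- [PAR] (0.7 h) parallel pairs. Hypotheses: `St_BDC`, `St_TUT`, `St_CNC`, `St_BR2`, `St_RK3`, `St_NU2`.
Proof. `n ≥ 5`. `E = S.erase h`. `Con r E`: otherwise `Con (r/h) E` ([TUT]), but `(r/h) {h'} = r {h', h} - 1 = 0`, contradiction to
[CNC]. `Con (r/o) E`: otherwise `Con ((r/o)/h) E`, but `((r/o)/h) {h'} = r {h', h, o} - r {h, o} = 0` ([Rk.clo]), the same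
contradiction. `r (insert o E) = r E`: both are `ρ` ([CNC]). (2) `bs r S = bs r E + bs (r/h) E`; `r/h` has no coloops on
`E` and rank `ρ - 1 ≥ 2`, so `bs (r/h) E ≥ 3` ([BR2]). -/
def St_PAR : Prop := ∀ (α : Type) [DecidableEq α] (r : Finset α → ℕ) (o : α) (S : Finset α)
  (h h' : α), Rk r → Bin r → Lf r o S → h ∈ S → h' ∈ S → h ≠ h' → r {h, h'} ≤ 1 →
  Lf r o (S.erase h) ∧ bs r (S.erase h) + 3 ≤ bs r S

/-- [SER] (0.8 h) series pairs. Hypotheses: `St_BDC`, `St_TUT`, `St_CNC`, `St_BN1`, `St_RK3`, `St_NU2`.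
Proof. `n ≥ 5`, `E = S.erase g`, `r2 = r/g`. `r (E.erase g') < ρ = r E`, so `E` is not connected for `r` ([CNC]), so
`Con (r/g) E` ([TUT]). `(r/o) (E.erase g') = r (insert o (E.erase g')) - 1 < ρ - 1 = (r/o) E`, so `Con ((r/o)/g) E`, and
`(r/o)/g = (r/g)/o` ([Rk.ctct]). `r2 {o} = r {o, g} - 1 = 1` (`(r/o) {g} = 1`). `r2 (insert o E) = ρ - 1 = r2 E`.
(2) `bs r S = bs r E + bs r2 E`; `E` has no loops, no parallel pairs, `r E = ρ < n - 1` ([NU2]), so `bs r E ≥ 3` ([BN1]). -/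
def St_SER : Prop := ∀ (α : Type) [DecidableEq α] (r : Finset α → ℕ) (o : α) (S : Finset α)
  (g g' : α), Rk r → Bin r → Lf r o S → NP r S → g ∈ S → g' ∈ S → g ≠ g' →
  r (insert o ((S.erase g).erase g')) < r S →
  Lf (ct r {g}) o (S.erase g) ∧ bs (ct r {g}) (S.erase g) + 3 ≤ bs r S

/-- [SIZ] (1 h) the number of bases of a leaf. Hypotheses: `St_BDC`, `St_TUT`, `St_CNC`, `St_BR2`, `St_BN1`, `St_RK3`, `St_NU2`,
`St_CSA`, `St_CSB`, `St_PAR`, `St_SER`.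
Proof. Strong induction on `n = S.card` for all `r`; `n ≥ 5`. If `NP r S` is false (`r {x, y} ≠ 2`, so `≤ 1`): [PAR] and
induction for `S.erase h`. If `NS r o S` is false: [SER] and induction for `r/g`, `S.erase g` (`Rk.ctr`, `Bin.ctr`). Otherwise
take any `f ∈ S`, `E = S.erase f`. [TUT] for `r` and for `r/o`. (1) `Con r E`, `Con (r/o) E`: `Lf r o E`
(`r (insert o E) = r E = ρ`), `bs r S = bs r E + bs (r/f) E`, `bs (r/f) E ≥ 3` ([BR2], no coloops, rank `ρ - 1 ≥ 2`). (2) `Con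
(r/f) E`, `Con ((r/o)/f) E`: `Lf (r/f) o E` (`(r/f) {o} = r {o, f} - 1 = 1`, `(r/f)/o = (r/o)/f`), `bs r E ≥ 3` ([BN1]: no loops, no
parallel pairs, `r E = ρ < n - 1`). (3) `Con r E`, not `Con (r/f) E`: [CSA]. (4) not `Con r E`, so `Con (r/f) E`; and not
`Con ((r/o)/f) E`, so `Con (r/o) E`: [CSB]. These are all cases. -/
def St_SIZ : Prop := ∀ (α : Type) [DecidableEq α] (r : Finset α → ℕ) (o : α) (S : Finset α),
  Rk r → Bin r → Lf r o S → 3 * S.card ≤ bs r S + 7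

/-! ## Two independent parts -/

/-- the hypotheses for the fibre lemma; `F`, `X`, `Y` pairwise disjoint -/
structure Fb {α : Type} [DecidableEq α] (r : Finset α → ℕ) (F X Y : Finset α) : Prop where
  fx : Disjoint F X
  fy : Disjoint F Y
  xy : Disjoint X Y
  nx : X.Nonempty
  ny : Y.Nonempty
  nl : NL r (F ∪ X ∪ Y)
  nc : NC r (F ∪ X ∪ Y)
  sm : r (X ∪ F) + r (Y ∪ F) ≤ r (F ∪ X ∪ Y) + r F
  lp : ∀ x ∈ X ∪ Y, r F < r (insert x F)

/-- [FXY] (0.8 h) the contraction of `F`. Hypotheses: `St_BSP`, `St_BNC`.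
Proof. `r' = r/F`. No loops on `X ∪ Y`: `lp`. No coloops on `Y`: if `r' (Y.erase y) < r' Y` then `r (F ∪ Y.erase y) < r (F ∪ Y)`,
`r (S.erase y) ≤ r (X ∪ F) + r (Y.erase y ∪ F) - r F < r S` (submodularity, `S = F ∪ X ∪ Y`; `sm`); the same for `X`. So `X.card ≤
bs r' X`, `Y.card ≤ bs r' Y` ([BNC]), `bs r' (X ∪ Y) = bs r' X * bs r' Y` ([BSP], `sm`). `X.card ≥ 2`: `X = {x}` would be a coloop of
`r'`, the same for `Y`. -/
def St_FXY : Prop := ∀ (α : Type) [DecidableEq α] (r : Finset α → ℕ) (F X Y : Finset α),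
  Rk r → Fb r F X Y → X.card ≤ bs (ct r F) X ∧ Y.card ≤ bs (ct r F) Y ∧
    X.card * Y.card ≤ bs (ct r F) (X ∪ Y) ∧ 2 ≤ X.card ∧ 2 ≤ Y.card

/-- [DLM] (1 h) deletion of an element of `F`. Hypotheses: `St_BMI`, `St_FXY`.
`S = F ∪ X ∪ Y`, `G = F.erase f`. Proof. If `r G = r F`: `S.erase f = G ∪ (X ∪ Y)`, `r/G = r/F` on subsets of `X ∪ Y` (closure), so
`bs r (S.erase f) ≥ bs (r/G) (X ∪ Y) = bs (r/F) (X ∪ Y) ≥ X.card * Y.card ≥ m` ([BMI], [FXY]). If `r G = r F - 1`: `r (X ∪ G) =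
r (X ∪ F)` or `r (Y ∪ G) = r (Y ∪ F)`: otherwise `r (X ∪ G) + r (Y ∪ G) ≤ r S + r F - 2 < r (S.erase f) + r G` (`nc`), contradiction to
`sub`. Say the first (the second is symmetric). `S.erase f = (X ∪ G) ∪ Y`, so `bs r (S.erase f) ≥ bs (r/(X ∪ G)) Y` ([BMI]),
and for `A ⊆ Y` `(r/(X ∪ G)) A = r (A ∪ X ∪ F) - r (X ∪ F) = r (A ∪ F) - r F = (r/F) A`: `A ∪ X ∪ G` and `A ∪ X ∪ F` have the
same rank (`r (X ∪ G) = r (X ∪ F)`, `sub`), and `r (A ∪ X ∪ F) = r (A ∪ F) + r (X ∪ F) - r F`: `≤` by `sub`; `≥`: by `sub` for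
`A ∪ X ∪ F` and `Y ∪ F` (intersection `⊇ A ∪ F`, union `S`) and `sm`. So `bs ≥ Y.card ≥ m` ([FXY]). -/
def St_DLM : Prop := ∀ (α : Type) [DecidableEq α] (r : Finset α → ℕ) (F X Y : Finset α) (f : α)
  (m : ℕ), Rk r → Fb r F X Y → f ∈ F → m ≤ X.card → m ≤ Y.card →
  m ≤ bs r ((F ∪ X ∪ Y).erase f)

/-- [FIB] (1.5 h) the fibre lemma. Hypotheses: `St_BDC`, `St_BSP`, `St_BMI`, `St_FXY`, `St_DLM`.
`S = F ∪ X ∪ Y`. Proof. Induction on `F.card` for all `r`. `F = ∅`: [FXY] (`r/∅ = r`). Let `f ∈ F`, `E = S.erase f`,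
`G = F.erase f`; [BDC]: `bs r S = bs r E + bs (r/f) E`. `bs (r/f) E ≥ bs ((r/f)/G) (X ∪ Y) = bs (r/F) (X ∪ Y) ≥ X.card * Y.card`
([BMI], [FXY]). (i) there is `f' ∈ S`, `f' ≠ f`, with `r {f, f'} ≤ 1`. Then `f' ∈ F` (`lp`: `f'` is in the closure of `{f} ⊆ F`).
`f` is in the closure of `G`. (i-a) `E` has no coloops: `Fb r G X Y` (all ranks in `sm`, `lp` are unchanged), induction: `bs r E ≥
X.card * Y.card + m G.card`, and `bs (r/f) E ≥ X.card * Y.card ≥ m`. (i-b) `E` has a coloop `g`: if `g ≠ f'` then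
`r (E.erase g) = r (S.erase g) = r S` (`f` is in the closure of `{f'} ⊆ E.erase g`), so `g = f'`; `S' = S \ {f, f'}` has rank
`r S - 1`, so `r {f, f'} + r S' ≤ r S`, and `r (A ∪ {f, f'}) = r A + 1` for all `A ⊆ S'` (`dim`). So `bs r S = bs r {f, f'} * bs r S' = 2
bs r S'` ([BSP], `bs r {f, f'} = 2`) and `Fb r (F \ {f, f'}) X Y`; induction: `bs r S' ≥ X.card * Y.card + m (F.card - 2)`, and
`bs r S' ≥ X.card * Y.card ≥ 2 m` (`2 ≤ X.card`, `2 ≤ Y.card`). (ii) no such `f'`: `Fb (r/f) G X Y` (`(r/f) {x} = r {x, f} - 1 = 1`; all other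
ranks decrease by `1`), induction: `bs (r/f) E ≥ X.card * Y.card + m G.card`, and `bs r E ≥ m` ([DLM]). -/
def St_FIB : Prop := ∀ (α : Type) [DecidableEq α] (r : Finset α → ℕ) (F X Y : Finset α) (m : ℕ),
  Rk r → Fb r F X Y → m ≤ X.card → m ≤ Y.card →
  X.card * Y.card + m * F.card ≤ bs r (F ∪ X ∪ Y)

end ALS
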