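import Pool.Agent.ALS.St
import Pool.Agent.ALT.Tu.Defs
import Pool.Agent.ALZ.StT

/-!
# ALS: frozen statements, graph part

`g : Gr V E` (file `Pool/Agent/ALT/Tu/Part.lean`, partitions `Setoid V`, `g.sp ⊥ A` = the partition spanned by
the edges in `A`, `nc` = number of classes), `n = Fintype.card E`. The docstrings contain complete proofs.
Useful (proved, `Pool/Agent/ALT/Tu/Part.lean`): `Gr.sp_insert`, `Gr.sp_insert_of`, `Gr.nc_sp_insert`, `sup_pr_iff`,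
`nc_anti`, `nc_bot`, `nc_sup_pr`, `nc_sup_pr_le`, `Gr.sp_le`, `Gr.sp_mono`.
-/

set_option autoImplicit false

namespace ALS

open Pool.ALT

/-- the rank function of a graph -/
noncomputable def rg {V α : Type} [Fintype V] (g : Gr V α) (A : Finset α) : ℕ :=
  Fintype.card V - nc (g.sp ⊥ A)

/-- the graph with the extra edge `none` between the marked vertices -/
def ext {V E : Type} (g : Gr V E) : Gr V (Option E) where
  u := fun e => e.elim g.a g.u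
  v := fun e => e.elim g.b g.v
  a := g.a
  b := g.b

/-- all edges of `g` as edges of `ext g` -/
def al' (E : Type) [Fintype E] : Finset (Option E) := Finset.univ.map Function.Embedding.some

/-- leaves -/
structure LfG {V E : Type} [Fintype V] [Fintype E] [DecidableEq E] (g : Gr V E) : Prop where
  ab : g.a ≠ g.b
  two : 2 ≤ Fintype.card E
  con : nc (g.sp ⊥ Finset.univ) = 1
  c1 : ∀ A : Finset E, A.Nonempty → A ≠ Finset.univ →
    nc (g.sp ⊥ A) + nc (g.sp ⊥ (Finset.univ \ A)) ≤ Fintype.card V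
  c2 : ∀ A : Finset E, A.Nonempty → A ≠ Finset.univ →
    nc (g.sp ⊥ A ⊔ g.ab) + nc (g.sp ⊥ (Finset.univ \ A) ⊔ g.ab) + 1 ≤ Fintype.card V

/-- the network `N` lives on the graph `g` -/
structure Sm {V E : Type} (g : Gr V E) (N : ALZ.Nt V E) : Prop where
  ends : ∀ e, (N.s e = g.u e ∧ N.t e = g.v e) ∨ (N.s e = g.v e ∧ N.t e = g.u e)
  a : N.a = g.a
  b : N.b = g.b

/-- [GRK] (1 h) the rank function of a graph. Hypotheses: none.
Proof. `nc (g.sp ⊥ A) ≤ nc ⊥ = card V` (`nc_bot`, `Nat.card_eq_fintype_card`). `up`: `nc_sup_pr_le`; `mono`: `nc_anti`. `sub`: for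
`A ⊆ B` and an edge `x`: `rg (insert x B) - rg B ≤ rg (insert x A) - rg A`: if the ends of `x` are joined in `g.sp ⊥ A` they are
joined in `g.sp ⊥ B` (`sp_mono`, `sp_insert_of`, `nc_sp_insert`). Then add the elements of `A \ B` one by one to `A ∩ B` and to
`B`. -/
def St_GRK : Prop := ∀ (V α : Type) [Fintype V] [DecidableEq α] (g : Gr V α),
  Rk (rg g) ∧ ∀ A, rg g A + nc (g.sp ⊥ A) = Fintype.card V

/-- [GBI] (1.2 h) at most three parallel classes. Hypotheses: `St_GRK`.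
Proof. `σ = g.sp ⊥ Q`; the ends of `x` are `x1, x2` etc. They are not joined in `σ`. Suppose all six pairs have rank
`rg Q + 2`: for two of the edges, say `x`, `y`, the ends of `y` are not joined in `σ ⊔ pr x1 x2` (and conversely). The ends of `z` are
joined in `σ ⊔ pr x1 x2 ⊔ pr y1 y2` (the rank of all four is `rg Q + 2`) but not in `σ ⊔ pr x1 x2`: `sup_pr_iff` (twice) gives a
path `z1 ~ .. ~ z2` which uses both `x` and `y` once, so `x` and `y` have a common end modulo `σ`. Say (renaming ends) `x2 ~ y1`; then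
`{z1, z2} ~ {x1, y2}` modulo `σ` (any other common end would make `x`, `y` parallel). In the same way
`{w1, w2} ~ {x1, y2}`, so the ends of `w` are joined in `σ ⊔ pr z1 z2`, contradiction. (Finite case distinction with
`sup_pr_iff`; it may help to work in `Quotient σ` with unordered pairs: four two-element sets, any two different, each of `z`, `w` is
contained in the graph spanned by `x`, `y`.) -/
def St_GBI : Prop := ∀ (V α : Type) [Fintype V] [DecidableEq α] (g : Gr V α), Bin (rg g)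

/-- [GXT] (0.7 h) the extension. Hypotheses: none.
Proof. `(ext g).pe (some e) = g.pe e`, `(ext g).pe none = g.ab`; `Finset.sup_map`, `sp_insert`. -/
def St_GXT : Prop := ∀ (V E : Type) [Fintype V] [Fintype E] [DecidableEq E] (g : Gr V E)
  (A : Finset E), (ext g).sp ⊥ (A.map Function.Embedding.some) = g.sp ⊥ A ∧
  (ext g).sp ⊥ (insert none (A.map Function.Embedding.some)) = g.sp ⊥ A ⊔ g.ab

/-- [GLF] (1 h) the rank function of a leaf. Hypotheses: `St_GRK`, `St_GXT`.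
Proof. Every `X ⊆ al' E` is `A.map some` (`A` = the `e` with `some e ∈ X`). `rg (ext g) (A.map some) = rg g A`,
`rg (ext g) {none} = card V - nc (⊥ ⊔ g.ab) = 1` (`nc_sup_pr`, `a ≠ b`), `rg (ext g) (insert none (al' E)) = card V - nc (⊤) =
rg (ext g) (al' E)` (one class). `c1`: `card V - 1 < 2 card V - nc - nc`. `c2`: `(rg/none) (A.map some) = card V - nc (g.sp ⊥ A ⊔ g.ab) -
1`. (2) `A ↦ A.map some` is a bijection of the bases. -/
def St_GLF : Prop := ∀ (V E : Type) [Fintype V] [Fintype E] [DecidableEq E] (g : Gr V E),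
  (LfG g → Lf (rg (ext g)) none (al' E)) ∧
  bs (rg (ext g)) (al' E) = bs (rg g) Finset.univ

/-- [GPB] (0.5 h) spanning trees are bases. Hypotheses: `St_GRK`.
Proof. `g.K ⊥ univ = nc (g.sp ⊥ univ ⊔ g.ab) = 1`, `nc ⊥ = card V`; both sides count the `A` with `nc (g.sp ⊥ A) = 1` and
`A.card + 1 = card V`. -/
def St_GPB : Prop := ∀ (V E : Type) [Fintype V] [Fintype E] [DecidableEq E] (g : Gr V E),
  nc (g.sp ⊥ Finset.univ) = 1 → g.p ⊥ Finset.univ = bs (rg g) Finset.univ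

/-- [SZ1] (0.3 h) Hypotheses: `St_GRK`, `St_GBI`, `St_GLF`, `St_GPB`, `St_SIZ`.
Proof. [SIZ] for `rg (ext g)`, `none`, `al' E`; `(al' E).card = card E`. -/
def St_SZ1 : Prop := ∀ (V E : Type) [Fintype V] [Fintype E] [DecidableEq E] (g : Gr V E),
  LfG g → 3 * Fintype.card E ≤ g.p ⊥ Finset.univ + 7

/-- [GNC] (0.4 h) Hypotheses: `St_GRK`, `St_CNC`. Proof. `c1` is `Con (rg g) univ`; [CNC]. -/
def St_GNC : Prop := ∀ (V E : Type) [Fintype V] [Fintype E] [DecidableEq E] (g : Gr V E),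
  LfG g → NL (rg g) Finset.univ ∧ NC (rg g) Finset.univ

/-- [DUG] (0.8 h) the dual of a leaf is a leaf. Hypotheses: none.
Proof. For a partition `σ` `nc σ = nc (σ ⊔ pr x y) + [¬ σ x y]` (`nc_sup_pr`, `sup_pr_of`). So by `du` and `sep`: `nc (h.sp ⊥ (univ \ A)) =
nc (g.sp ⊥ A) + A.card + 1 - card V + [g.sp ⊥ A a b] = nc (g.sp ⊥ A ⊔ g.ab) + A.card + 2 - card V`, and `nc (h.sp ⊥ (univ \ A) ⊔ h.ab) =
nc (g.sp ⊥ A) + A.card + 1 - card V`. `A = univ` in `du`: `nc (⊥ ⊔ h.ab) = card W - 1`, so `card V + card W = card E + 3`. Insert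
(`univ \ (univ \ A) = A`, `A.card + (univ \ A).card = card E`): `c1` for `h` is `c2` for `g`, `c2` for `h` is `c1` for `g`. -/
def St_DUG : Prop := ∀ (V W E : Type) [Fintype V] [Fintype W] [Fintype E] [DecidableEq E]
  (g : Gr V E) (h : Gr W E), Du g h → LfG g → LfG h

/-! ## Levels -/

/-- [LVT] (1 h) every level is crossed at least twice. Hypotheses: none.
Proof. For a level `τ` with `0 ≤ τ < R` let `H x = 1` if `τ < ph x`, else `0`; `fl`: the sum of the currents `s_e` of the edges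
with `ph (s e) ≤ τ < ph (t e)` is `H b - H a = 1`, all `s_e < 1`, so there are at least two such edges. Integrate over
`τ ∈ (lo, lo + γ)`: the measure of the `τ` with `ph (s e) ≤ τ < ph (t e)` in this interval is `cl lo γ (ph (t e)) - cl lo γ (ph (s e))`
(`volume (Ico _ _ ∩ Ioo _ _)`), so `∑ e, (cl .. - cl ..) ≥ 2 γ`. -/
def St_LVT : Prop := ∀ (V E : Type) [Fintype E] (N : ALZ.Nt V E) (ph : V → ℝ) (R lo γ : ℝ)
  (G : V → V → ℝ), N.Ok ph R 1 G → (∀ e, N.d ph e < 1) → 0 ≤ lo → 0 ≤ γ → lo + γ ≤ R →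
  2 * γ ≤ ∑ e, (ALZ.cl lo γ (ph (N.t e)) - ALZ.cl lo γ (ph (N.s e)))

/-- [LVC] (0.6 h) number of edges. Hypotheses: `St_LVT`.
Proof. `l_e = cl (ph (t e)) - cl (ph (s e))`, `0 ≤ l_e ≤ s_e < 1`. `∑ s_e l_e = γ` (`fl` for `h = cl lo γ ∘ ph`: `0` at `a`, `γ` at `b`).
`∑ l_e ≥ 2 γ`. If `l_e > 0`: `l_e (4 - 4 s_e) ≤ s_e (4 - 4 s_e) ≤ 1`. So the number of these edges is
`≥ ∑ l_e (4 - 4 s_e) ≥ 8 γ - 4 γ`. -/
def St_LVC : Prop := ∀ (V E : Type) [Fintype E] (N : ALZ.Nt V E) (ph : V → ℝ) (R lo γ : ℝ)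
  (G : V → V → ℝ) (X : Finset E), N.Ok ph R 1 G → (∀ e, N.d ph e < 1) → 0 ≤ lo → 0 ≤ γ →
  lo + γ ≤ R → (∀ e, ALZ.cl lo γ (ph (N.s e)) < ALZ.cl lo γ (ph (N.t e)) → e ∈ X) →
  4 * γ ≤ X.card

/-! ## The cross connected case -/

/-- [GS3] (1.2 h) a separating class. Hypotheses: `St_GRK`.
`σ_A = g.sp ⊥ A`. Proof. (lp) Let `e ∈ X` and `x` an end of `e` with `lv x < 0`. In `σ_F` the class of `x` is `{x}` (the partition
with the one class `{lv = 0}` and singletons otherwise is above all `g.pe f`, `f ∈ F`: `Gr.sp_le`), and the other end is `≠ x`; so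
`nc (g.sp ⊥ (insert e F)) < nc (g.sp ⊥ F)` (`nc_sp_insert`). (sm) Claim: for `A ⊆ X` and `x`, `y` with `lv x ≤ 0`, `lv y ≤ 0`:
`σ_{Y ∪ F ∪ A} x y → σ_{F ∪ A} x y`. Let `π x = x` if `lv x ≤ 0`, `π x = w0` otherwise; the partition `τ x y := σ_{F ∪ A} (π x) (π y)`
contains all edges of `F`, `A` (`π` is the identity at their ends) and of `Y` (ends with `lv > 0` go to `w0`, the others have
`lv = 0` and are joined with `w0` by `σ_F`). So adding the edges of `X` one by one to `F` and to `Y ∪ F` decreases `nc` by the same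
amounts (the ends of an edge of `X` have `lv ≤ 0`): `rg (Y ∪ F ∪ X) - rg (Y ∪ F) = rg (F ∪ X) - rg F`. -/
def St_GS3 : Prop := ∀ (V E : Type) [Fintype V] [Fintype E] [DecidableEq E] (g : Gr V E)
  (lv : V → ℤ) (w0 : V) (F X Y : Finset E), lv w0 = 0 →
  (∀ e ∈ F, lv (g.u e) = 0 ∧ lv (g.v e) = 0) →
  (∀ e ∈ X, lv (g.u e) ≤ 0 ∧ lv (g.v e) ≤ 0 ∧ (lv (g.u e) < 0 ∨ lv (g.v e) < 0)) →
  (∀ e ∈ Y, 0 ≤ lv (g.u e) ∧ 0 ≤ lv (g.v e) ∧ (0 < lv (g.u e) ∨ 0 < lv (g.v e))) →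
  (∀ x, lv x = 0 → g.sp ⊥ F w0 x) → (∀ e, g.u e ≠ g.v e) →
  rg g (X ∪ F) + rg g (Y ∪ F) ≤ rg g (F ∪ X ∪ Y) + rg g F ∧
  ∀ e ∈ X ∪ Y, rg g F < rg g (insert e F)

/-- [CRO] (1 h) the number of trees if the middle part is connected. Hypotheses: `St_GRK`, `St_GPB`, `St_FIB`, `St_LVC`, `St_GS3`.
Proof. `X` = the edges with `ph (N.s e) ≤ R/4`, `Y` = those with `3R/4 ≤ ph (N.t e)`, disjoint as `s_e < 1 < R/2`; `F` = the rest,
`F ∪ X ∪ Y = univ`. `lv x = -1` if `ph x ≤ R/4`, `1` if `3R/4 ≤ ph x`, else `0`. `NL`: `g.u e ≠ g.v e` (`rg g {e} = 1`). [GS3] gives `sm`, `lp`.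
[LVC] with `lo = 0`, `γ = R/4`: `X.card ≥ R`; with `lo = 3R/4`, `γ = R/4`: `Y.card ≥ R`. [FIB] with `m = min X.card Y.card`:
`bs ≥ X.card * Y.card + m F.card ≥ R max(X.card, Y.card) + R F.card ≥ R n / 2`. -/
def St_CRO : Prop := ∀ (V E : Type) [Fintype V] [Fintype E] [DecidableEq E] (g : Gr V E)
  (N : ALZ.Nt V E) (ph : V → ℝ) (R : ℝ) (G : V → V → ℝ) (w0 : V) (F : Finset E),
  Sm g N → N.Ok ph R 1 G → (∀ e, N.d ph e < 1) → 4 ≤ R → nc (g.sp ⊥ Finset.univ) = 1 →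
  NL (rg g) Finset.univ → NC (rg g) Finset.univ →
  (∀ e, e ∈ F ↔ R / 4 < ph (N.s e) ∧ ph (N.t e) < 3 * R / 4) →
  (R / 4 < ph w0 ∧ ph w0 < 3 * R / 4) →
  (∀ x, R / 4 < ph x → ph x < 3 * R / 4 → g.sp ⊥ F w0 x) →
  (Fintype.card E : ℝ) * R ≤ 2 * (g.p ⊥ Finset.univ : ℝ)

/-- [Z3F] (0.8 h) the dichotomy. Hypotheses: `St_GNC`, `St_CRO`, `ALZ.St_TWF`.
Proof. There is an edge `e` with `ph (s e) ≤ R/2 < ph (t e)` (`fl` for the indicator function of `R/2 < ph x`); `w0 = N.t e`,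
`R/4 < ph w0 < R/2 + 1 < 3R/4`. `F` as in [CRO] (classical filter), `C = {x | R/4 < ph x < 3R/4, g.sp ⊥ F w0 x}`. If `C` is the
whole middle part: [CRO]. Otherwise [TWF]: if `N.s e ∈ C`, `ph (N.t e) < 3R/4` then `e ∈ F` (`ph (s e) ≤ ph (t e)`), so `N.t e ∈ C`; in
the same way for `N.t e ∈ C`. -/
def St_Z3F : Prop := ∀ (V V' E : Type) [Fintype V] [Fintype V'] [Fintype E] [DecidableEq E]
  (g : Gr V E) (N : ALZ.Nt V E) (N' : ALZ.Nt V' E) (ph : V → ℝ) (x : V' → ℝ) (R : ℝ)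
  (G : V → V → ℝ) (G' : V' → V' → ℝ), LfG g → Sm g N → ALZ.Good V V' E N N' ph x R G G' →
  16 ≤ R → (Fintype.card E : ℝ) * R ≤ 2 * (g.p ⊥ Finset.univ : ℝ) ∨
    R / 8 - 3 / 16 - 7 / (16 * R) ≤ ALZ.zh N N' ph R G G'

/-- [SZF] (0.6 h) the result of this block (`n = card E`, `p`, `q` natural numbers). Hypotheses: `St_SZ1`, `St_LVC`, `St_Z3F`.
Proof. (1) [SZ1]. (2) [LVC] with `lo = 0`, `γ = R`, `X = univ`: `4 R ≤ n`, times `p`. (3) `16 p ≤ q`: `R ≥ 16`, [Z3F]. First case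
`n q / p ≤ 2 p`: `7 n q ≤ 14 p^2`. Second case: `p q zh + 1/2 ≥ q^2/8 - 3 p q/16 - 7 p^2/16 + 1/2 ≥ q^2/8 - p q/2`. -/
def St_SZF : Prop := ∀ (V V' E : Type) [Fintype V] [Fintype V'] [Fintype E] [DecidableEq E]
  (g : Gr V E) (N : ALZ.Nt V E) (N' : ALZ.Nt V' E) (ph : V → ℝ) (x : V' → ℝ) (R : ℝ)
  (G : V → V → ℝ) (G' : V' → V' → ℝ) (p q : ℕ), LfG g → Sm g N →
  ALZ.Good V V' E N N' ph x R G G' → p = g.p ⊥ Finset.univ → 0 < p → R = (q : ℝ) / p →
  3 * Fintype.card E ≤ p + 7 ∧ 4 * q ≤ Fintype.card E * p ∧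
  (16 * p ≤ q → 7 * Fintype.card E * q ≤ 16 * p ^ 2 ∨
    (q : ℝ) ^ 2 / 8 - (p : ℝ) * q / 2 ≤ (p : ℝ) * q * ALZ.zh N N' ph R G G' + 1 / 2)

end ALS
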